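import Pool.Agent.helper45.TF.Defs

/-! Mod 2 duality for 2-chains of a closed triangulated surface. -/

open scoped Topology

namespace Pool.Agent.helper43.TF.DU

open Pool.Agent.helper45.TF

variable {n : ℕ} (K : ClosedSurface (Fin n))

/-- unordered boundary -/
noncomputable def fb : (Finset (Fin n) →₀ ZMod 2) →ₗ[ZMod 2] (Finset (Fin n) →₀ ZMod 2) :=
  Finsupp.linearCombination (ZMod 2) fun t => ∑ v ∈ t, Finsupp.single (t.erase v) 1

/-- ordered boundary -/
noncomputable def vb : ((Fin n × Fin n × Fin n) →₀ ZMod 2) →ₗ[ZMod 2] ((Fin n × Fin n) →₀ ZMod 2) :=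
  Finsupp.linearCombination (ZMod 2) fun e =>
    Finsupp.single (e.2.1, e.2.2) 1 + Finsupp.single (e.1, e.2.2) 1 + Finsupp.single (e.1, e.2.1) 1

noncomputable def U1 : ((Fin n × Fin n) →₀ ZMod 2) →ₗ[ZMod 2] (Finset (Fin n) →₀ ZMod 2) :=
  Finsupp.linearCombination (ZMod 2) fun e =>
    if e.1 = e.2 then 0 else Finsupp.single {e.1, e.2} 1

noncomputable def U2 : ((Fin n × Fin n × Fin n) →₀ ZMod 2) →ₗ[ZMod 2] (Finset (Fin n) →₀ ZMod 2) :=
  Finsupp.linearCombination (ZMod 2) fun e =>
    if e.1 = e.2.1 ∨ e.1 = e.2.2 ∨ e.2.1 = e.2.2 then 0 else Finsupp.single {e.1, e.2.1, e.2.2} 1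

theorem fb_single_triple {x y z : Fin n} (h1 : x ≠ y) (h2 : x ≠ z) (h3 : y ≠ z) :
    fb (Finsupp.single ({x, y, z} : Finset (Fin n)) 1) =
      Finsupp.single {y, z} 1 + (Finsupp.single {x, z} 1 + Finsupp.single {x, y} 1) := by
  have e1 : ({x, y, z} : Finset (Fin n)).erase x = {y, z} := by
    ext a; simp only [Finset.mem_erase, Finset.mem_insert, Finset.mem_singleton]
    constructor
    · rintro ⟨h, h' | h' | h'⟩ <;> simp_all
    · rintro (h' | h') <;> subst h' <;> simp_all [eq_comm]
  have e2 : ({x, y, z} : Finset (Fin n)).erase y = {x, z} := by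
    ext a; simp only [Finset.mem_erase, Finset.mem_insert, Finset.mem_singleton]
    constructor
    · rintro ⟨h, h' | h' | h'⟩ <;> simp_all
    · rintro (h' | h') <;> subst h' <;> simp_all [eq_comm]
  have e3 : ({x, y, z} : Finset (Fin n)).erase z = {x, y} := by
    ext a; simp only [Finset.mem_erase, Finset.mem_insert, Finset.mem_singleton]
    constructor
    · rintro ⟨h, h' | h' | h'⟩ <;> simp_all
    · rintro (h' | h') <;> subst h' <;> simp_all [eq_comm]
  rw [fb, Finsupp.linearCombination_single, one_smul, Finset.sum_insert (by simp [h1, h2]),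
    Finset.sum_insert (by simp [h3]), Finset.sum_singleton, e1, e2, e3]

theorem U1_vb (c : (Fin n × Fin n × Fin n) →₀ ZMod 2) : U1 (vb c) = fb (U2 c) := by
  suffices h : U1 ∘ₗ vb = fb ∘ₗ U2 (n := n) from LinearMap.congr_fun h c
  refine Finsupp.lhom_ext' fun e => LinearMap.ext_ring ?_
  obtain ⟨x, y, z⟩ := e
  simp only [LinearMap.comp_apply, Finsupp.lsingle_apply]
  simp only [vb, U1, U2, Finsupp.linearCombination_single, one_smul, map_add]
  by_cases h1 : x = y
  · subst h1
    by_cases h2 : x = z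
    · subst h2; simp
    · simp [h2, ZModModule.add_self]
  by_cases h2 : x = z
  · subst h2
    have h3 : ({y, x} : Finset (Fin n)) = {x, y} := Finset.pair_comm _ _
    simp [h1, Ne.symm h1, h3, ZModModule.add_self]
  by_cases h3 : y = z
  · subst h3
    simp [h1, ZModModule.add_self]
  · rw [if_neg h3, if_neg h2, if_neg h1, if_neg (by simp [h1, h2, h3]),
      fb_single_triple h1 h2 h3, add_assoc]

/-- sorted pair -/
noncomputable def O1 : (Finset (Fin n) →₀ ZMod 2) →ₗ[ZMod 2] ((Fin n × Fin n) →₀ ZMod 2) :=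
  Finsupp.linearCombination (ZMod 2) fun e =>
    if h : e.Nonempty then Finsupp.single (e.min' h, e.max' h) 1 else 0

theorem O1_pair {i j : Fin n} (h : i < j) :
    O1 (Finsupp.single ({i, j} : Finset (Fin n)) 1) = Finsupp.single (i, j) 1 := by
  have hne : ({i, j} : Finset (Fin n)).Nonempty := ⟨i, by simp⟩
  rw [O1, Finsupp.linearCombination_single, one_smul, dif_pos hne]
  have h1 : ({i, j} : Finset (Fin n)).min' hne = i := by
    apply le_antisymm
    · exact Finset.min'_le _ _ (by simp)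
    · refine Finset.le_min' _ _ _ fun y hy => ?_
      rcases Finset.mem_insert.1 hy with h' | h'
      · exact h'.ge
      · rw [Finset.mem_singleton.1 h']; exact h.le
  have h2 : ({i, j} : Finset (Fin n)).max' hne = j := by
    apply le_antisymm
    · refine Finset.max'_le _ _ _ fun y hy => ?_
      rcases Finset.mem_insert.1 hy with h' | h'
      · rw [h']; exact h.le
      · exact (Finset.mem_singleton.1 h').le
    · exact Finset.le_max' _ _ (by simp)
  rw [h1, h2]

noncomputable def E1 : ((Fin n × Fin n) →₀ ZMod 2) →ₗ[ZMod 2] ((Fin n × Fin n × Fin n) →₀ ZMod 2) :=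
  Finsupp.linearCombination (ZMod 2) fun e =>
    if e.1 < e.2 then 0 else if e.2 < e.1 then
      Finsupp.single (e.1, e.2, e.1) 1 + Finsupp.single (e.1, e.1, e.1) 1
    else Finsupp.single (e.1, e.1, e.1) 1

theorem vb_E1 (z : (Fin n × Fin n) →₀ ZMod 2) : vb (E1 z) = z + O1 (U1 z) := by
  suffices h : vb ∘ₗ E1 = LinearMap.id + O1 ∘ₗ U1 (n := n) from LinearMap.congr_fun h z
  refine Finsupp.lhom_ext' fun e => LinearMap.ext_ring ?_
  obtain ⟨x, y⟩ := e
  simp only [LinearMap.comp_apply, Finsupp.lsingle_apply, LinearMap.add_apply, LinearMap.id_apply]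
  simp only [vb, E1, U1, Finsupp.linearCombination_single, one_smul]
  rcases lt_trichotomy x y with h | h | h
  · rw [if_pos h, if_neg h.ne, O1_pair h, ZModModule.add_self, map_zero]
  · subst h
    simp only [lt_irrefl, if_false, if_true, Finsupp.linearCombination_single, one_smul, map_zero]
    rw [ZModModule.add_self, zero_add, add_zero]
  · rw [if_neg h.not_gt, if_pos h, if_neg h.ne', Finset.pair_comm, O1_pair h]
    simp only [map_add, Finsupp.linearCombination_single, one_smul]
    rw [ZModModule.add_self (Finsupp.single (x, x) (1 : ZMod 2)), zero_add]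
    have := ZModModule.add_self (Finsupp.single (x, x) (1 : ZMod 2))
    calc _ = (Finsupp.single (x, x) (1 : ZMod 2) + Finsupp.single (x, x) (1 : ZMod 2)) +
        (Finsupp.single (x, y) 1 + Finsupp.single (y, x) 1) := by abel
      _ = _ := by rw [this, zero_add]

theorem exists_sorted {t : Finset (Fin n)} (ht : t.card = 3) :
    ∃ i j k : Fin n, i < j ∧ j < k ∧ t = {i, j, k} := by
  have hr := Finset.range_orderEmbOfFin t ht
  refine ⟨t.orderEmbOfFin ht 0, t.orderEmbOfFin ht 1, t.orderEmbOfFin ht 2, ?_, ?_, ?_⟩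
  · exact (t.orderEmbOfFin ht).strictMono (by decide)
  · exact (t.orderEmbOfFin ht).strictMono (by decide)
  · ext x
    rw [← Finset.mem_coe, ← hr]
    simp only [Set.mem_range, Finset.mem_insert, Finset.mem_singleton]
    constructor
    · rintro ⟨i, rfl⟩
      fin_cases i <;> simp
    · rintro (rfl | rfl | rfl) <;> exact ⟨_, rfl⟩

open Classical in
noncomputable def srt (t : Finset (Fin n)) : (Fin n × Fin n × Fin n) →₀ ZMod 2 :=
  if h : ∃ e : Fin n × Fin n × Fin n, e.1 < e.2.1 ∧ e.2.1 < e.2.2 ∧ t = {e.1, e.2.1, e.2.2} then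
    Finsupp.single h.choose 1 else 0

theorem srt_spec {t : Finset (Fin n)} (ht : t.card = 3) :
    ∃ i j k : Fin n, i < j ∧ j < k ∧ t = {i, j, k} ∧ srt t = Finsupp.single (i, j, k) 1 := by
  obtain ⟨i, j, k, h1, h2, h3⟩ := exists_sorted ht
  have h : ∃ e : Fin n × Fin n × Fin n, e.1 < e.2.1 ∧ e.2.1 < e.2.2 ∧ t = {e.1, e.2.1, e.2.2} :=
    ⟨(i, j, k), h1, h2, h3⟩
  refine ⟨h.choose.1, h.choose.2.1, h.choose.2.2, h.choose_spec.1, h.choose_spec.2.1,
    h.choose_spec.2.2, ?_⟩
  rw [srt, dif_pos h]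

noncomputable def O2 : (Finset (Fin n) →₀ ZMod 2) →ₗ[ZMod 2] ((Fin n × Fin n × Fin n) →₀ ZMod 2) :=
  Finsupp.linearCombination (ZMod 2) srt

theorem vb_O2 {b : Finset (Fin n) →₀ ZMod 2} (hb : ∀ t ∈ b.support, t.card = 3) :
    vb (O2 b) = O1 (fb b) := by
  have key : ∀ t : Finset (Fin n), t.card = 3 →
      vb (O2 (Finsupp.single t 1)) = O1 (fb (Finsupp.single t 1)) := by
    intro t ht
    obtain ⟨i, j, k, h1, h2, h3, h4⟩ := srt_spec ht
    rw [O2, Finsupp.linearCombination_single, one_smul, h4, h3,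
      fb_single_triple h1.ne (h1.trans h2).ne h2.ne, map_add, map_add, O1_pair h2,
      O1_pair (h1.trans h2), O1_pair h1, vb, Finsupp.linearCombination_single, one_smul, add_assoc]
  have hs : b = ∑ t ∈ b.support, b t • Finsupp.single t (1 : ZMod 2) := by
    conv_lhs => rw [← Finsupp.sum_single b]
    simp [Finsupp.sum]
  rw [hs, map_sum, map_sum, map_sum, map_sum]
  refine Finset.sum_congr rfl fun t ht => ?_
  rw [map_smul, map_smul, map_smul, map_smul, key t (hb t ht)]

theorem sum_erase_eq {t e : Finset (Fin n)} (ht : t.card = 3) (he : e.card = 2) :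
    (∑ v ∈ t, (Finsupp.single (t.erase v) (1 : ZMod 2)) e) = if e ⊆ t then 1 else 0 := by
  simp only [Finsupp.single_apply]
  by_cases h : e ⊆ t
  · rw [if_pos h]
    have hc : (t \ e).card = 1 := by
      rw [Finset.card_sdiff_of_subset h]; omega
    obtain ⟨a, ha⟩ := Finset.card_eq_one.1 hc
    have hat : a ∈ t ∧ a ∉ e := by
      have : a ∈ t \ e := by rw [ha]; simp
      exact Finset.mem_sdiff.1 this
    rw [Finset.sum_eq_single a]
    · rw [if_pos]
      refine (Finset.eq_of_subset_of_card_le (fun x hx => ?_) ?_).symm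
      · exact Finset.mem_erase.2 ⟨fun hxa => hat.2 (hxa ▸ hx), h hx⟩
      · rw [Finset.card_erase_of_mem hat.1]; omega
    · intro b hb hba
      rw [if_neg]
      intro hbe
      apply hat.2
      rw [← hbe]
      exact Finset.mem_erase.2 ⟨Ne.symm hba, hat.1⟩
    · intro h'
      exact absurd hat.1 h'
  · rw [if_neg h]
    refine Finset.sum_eq_zero fun v hv => ?_
    rw [if_neg]
    intro hbe
    apply h
    rw [← hbe]
    exact Finset.erase_subset _ _

theorem fb_apply {b : Finset (Fin n) →₀ ZMod 2} (hb : ∀ t ∈ b.support, t ∈ K.faces)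
    {e : Finset (Fin n)} (he : e.card = 2) :
    fb b e = ∑ t ∈ K.faces.filter (fun s => e ⊆ s), b t := by
  rw [fb, Finsupp.linearCombination_apply, Finsupp.sum_of_support_subset b (s := K.faces) hb _
    (by simp), Finsupp.finsetSum_apply, Finset.sum_filter]
  refine Finset.sum_congr rfl fun t ht => ?_
  rw [Finsupp.smul_apply, Finsupp.finsetSum_apply, sum_erase_eq (K.card_eq t ht) he, smul_eq_mul]
  split_ifs <;> simp

/-- the fundamental class -/
noncomputable def fund : Finset (Fin n) →₀ ZMod 2 := ∑ t ∈ K.faces, Finsupp.single t 1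

theorem fund_apply (t : Finset (Fin n)) : fund K t = if t ∈ K.faces then 1 else 0 := by
  rw [fund, Finsupp.finsetSum_apply]
  simp only [Finsupp.single_apply]
  by_cases h : t ∈ K.faces
  · rw [if_pos h, Finset.sum_eq_single t]
    · simp
    · intro b _ hb; rw [if_neg hb]
    · intro h'; exact absurd h h'
  · rw [if_neg h]
    refine Finset.sum_eq_zero fun b hb => ?_
    rw [if_neg]
    rintro rfl
    exact h hb

theorem two_of_card {e : Finset (Fin n)} (he : e.card = 2) (hex : ∃ t ∈ K.faces, e ⊆ t) :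
    (K.faces.filter (fun s => e ⊆ s)).card = 2 := by
  obtain ⟨u, v, huv, rfl⟩ := Finset.card_eq_two.1 he
  obtain ⟨t, ht, het⟩ := hex
  rw [← K.edge_two u v huv ⟨t, ht, het (by simp), het (by simp)⟩]
  congr 1
  ext s
  simp [Finset.insert_subset_iff]

theorem fb_fund : fb (fund K) = 0 := by
  have hs : ∀ t ∈ (fund K).support, t ∈ K.faces := by
    intro t ht
    by_contra h
    rw [Finsupp.mem_support_iff, fund_apply, if_neg h] at ht
    exact ht rfl
  ext e
  rw [Finsupp.coe_zero, Pi.zero_apply]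
  by_cases he : e.card = 2
  · rw [fb_apply K hs he]
    by_cases hex : ∃ t ∈ K.faces, e ⊆ t
    · have h2 := two_of_card K he hex
      rw [Finset.sum_congr rfl (g := fun _ => (1 : ZMod 2))]
      · rw [Finset.sum_const, h2]; rfl
      · intro s hs'
        rw [fund_apply, if_pos (Finset.mem_filter.1 hs').1]
    · refine Finset.sum_eq_zero fun s hs' => ?_
      exact absurd ⟨s, (Finset.mem_filter.1 hs').1, (Finset.mem_filter.1 hs').2⟩ hex
  · rw [fb, Finsupp.linearCombination_apply, Finsupp.sum_of_support_subset _ (s := K.faces) hs _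
      (by simp), Finsupp.finsetSum_apply]
    refine Finset.sum_eq_zero fun t ht => ?_
    rw [Finsupp.smul_apply, Finsupp.finsetSum_apply, Finset.sum_eq_zero, smul_zero]
    intro v hv
    rw [Finsupp.single_apply, if_neg]
    rintro rfl
    apply he
    rw [Finset.card_erase_of_mem hv, K.card_eq t ht]

/-- two triangles with a common edge on which the boundary vanishes have the same coefficient -/
theorem edge_eq {b : Finset (Fin n) →₀ ZMod 2} (hb : ∀ t ∈ b.support, t ∈ K.faces) {w x : Fin n}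
    (hwx : w ≠ x) (h0 : fb b {w, x} = 0) {s t : Finset (Fin n)} (hs : s ∈ K.faces)
    (ht : t ∈ K.faces) (hws : w ∈ s) (hxs : x ∈ s) (hwt : w ∈ t) (hxt : x ∈ t) : b s = b t := by
  by_cases hst : s = t
  · rw [hst]
  have hc : ({w, x} : Finset (Fin n)).card = 2 := Finset.card_pair hwx
  have h2 := two_of_card K hc ⟨s, hs, by simp [Finset.insert_subset_iff, hws, hxs]⟩
  have hfil : K.faces.filter (fun r => ({w, x} : Finset (Fin n)) ⊆ r) = {s, t} := by
    symm
    apply Finset.eq_of_subset_of_card_le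
    · intro r hr
      rw [Finset.mem_insert, Finset.mem_singleton] at hr
      rcases hr with rfl | rfl
      · simp [Finset.insert_subset_iff, hs, hws, hxs]
      · simp [Finset.insert_subset_iff, ht, hwt, hxt]
    · rw [h2, Finset.card_pair hst]
  rw [fb_apply K hb hc, hfil, Finset.sum_pair hst] at h0
  have h1 := ZModModule.add_self (b t)
  calc b s = b s + (b t + b t) := by rw [h1, add_zero]
    _ = (b s + b t) + b t := by rw [add_assoc]
    _ = b t := by rw [h0, zero_add]

theorem vertex_eq {b : Finset (Fin n) →₀ ZMod 2} (hb : ∀ t ∈ b.support, t ∈ K.faces) {w : Fin n}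
    (h0 : ∀ x, w ≠ x → fb b {w, x} = 0) {s t : Finset (Fin n)} (hs : s ∈ K.faces)
    (ht : t ∈ K.faces) (hws : w ∈ s) (hwt : w ∈ t) : b s = b t := by
  have h := K.link_conn w s hs t ht hws hwt
  clear ht hwt
  induction h with
  | refl => rfl
  | tail _ hst ih =>
    obtain ⟨ha, hb', hwa, hwb, hab⟩ := hst
    rw [ih]
    obtain ⟨x, hx⟩ : ∃ x, x ∈ ((_ : Finset (Fin n)) ∩ _).erase w :=
      Finset.card_pos.1 (by rw [Finset.card_erase_of_mem (Finset.mem_inter.2 ⟨hwa, hwb⟩), hab]; omega)
    have hxw := Finset.ne_of_mem_erase hx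
    have hx2 := Finset.mem_inter.1 (Finset.mem_of_mem_erase hx)
    exact edge_eq K hb hxw.symm (h0 x hxw.symm) ha hb' hwa hx2.1 hwb hx2.2

/-- **Mod 2 duality.** -/
theorem fb_duality {T : Set (Fin n)}
    (hconn : ∀ a b, a ∉ T → b ∉ T →
      Relation.ReflTransGen (fun x y => K.Adj x y ∧ x ∉ T ∧ y ∉ T) a b)
    {b : Finset (Fin n) →₀ ZMod 2} (hb : ∀ t ∈ b.support, t ∈ K.faces)
    (h0 : ∀ w x, w ≠ x → (w ∉ T ∨ x ∉ T) → fb b {w, x} = 0) :
    ∃ b' : Finset (Fin n) →₀ ZMod 2, (∀ t ∈ b'.support, t ∈ K.faces ∧ ∀ v ∈ t, v ∈ T) ∧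
      fb b' = fb b := by
  by_cases hT : ∃ a, a ∉ T
  · obtain ⟨a, ha⟩ := hT
    obtain ⟨s, hs, has⟩ := K.cover a
    have hconst : ∀ w, w ∉ T → ∀ t ∈ K.faces, w ∈ t → b t = b s := by
      intro w hw
      have h := hconn a w ha hw
      clear hw
      induction h with
      | refl =>
        intro t ht hat
        exact vertex_eq K hb (fun x hx => h0 a x hx (Or.inl ha)) ht hs hat has
      | tail _ hst ih =>
        obtain ⟨⟨r, hr, hxr, hyr⟩, hx, hy⟩ := hst
        intro t ht hyt
        rw [← ih r hr hxr]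
        exact vertex_eq K hb (fun x hx => h0 _ x hx (Or.inl hy)) ht hr hyt hyr
    have h01 : b s = 0 ∨ b s = 1 := by
      generalize b s = q
      revert q; decide
    rcases h01 with h01 | h01
    · refine ⟨b, fun t ht => ⟨hb t ht, fun v hv => ?_⟩, rfl⟩
      by_contra hvT
      have := hconst v hvT t (hb t ht) hv
      rw [h01] at this
      exact (Finsupp.mem_support_iff.1 ht) this
    · refine ⟨b + fund K, fun t ht => ?_, by rw [map_add, fb_fund, add_zero]⟩
      have htf : t ∈ K.faces := by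
        by_contra h
        have h1 : b t = 0 := by
          by_contra h2
          exact h (hb t (Finsupp.mem_support_iff.2 h2))
        rw [Finsupp.mem_support_iff, Finsupp.add_apply, fund_apply, if_neg h, h1, add_zero] at ht
        exact ht rfl
      refine ⟨htf, fun v hv => ?_⟩
      by_contra hvT
      have := hconst v hvT t htf hv
      rw [h01] at this
      rw [Finsupp.mem_support_iff, Finsupp.add_apply, fund_apply, if_pos htf, this] at ht
      exact ht (by decide)
  · push Not at hT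
    exact ⟨b, fun t ht => ⟨hb t ht, fun v _ => hT v⟩, rfl⟩

theorem U2_support {c : (Fin n × Fin n × Fin n) →₀ ZMod 2}
    (hc : ∀ e ∈ c.support, ∃ s ∈ K.faces, e.1 ∈ s ∧ e.2.1 ∈ s ∧ e.2.2 ∈ s) :
    ∀ t ∈ (U2 c).support, t ∈ K.faces := by
  intro t ht
  by_contra h
  apply Finsupp.mem_support_iff.1 ht
  rw [U2, Finsupp.linearCombination_apply, Finsupp.sum, Finsupp.finsetSum_apply]
  refine Finset.sum_eq_zero fun e he => ?_
  rw [Finsupp.smul_apply]
  by_cases hd : e.1 = e.2.1 ∨ e.1 = e.2.2 ∨ e.2.1 = e.2.2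
  · rw [if_pos hd]; simp
  · rw [if_neg hd, Finsupp.single_apply, if_neg, smul_zero]
    rintro rfl
    obtain ⟨s, hs, h1, h2, h3⟩ := hc e he
    push Not at hd
    apply h
    have : ({e.1, e.2.1, e.2.2} : Finset (Fin n)) = s := by
      apply Finset.eq_of_subset_of_card_le
      · intro x hx
        simp only [Finset.mem_insert, Finset.mem_singleton] at hx
        rcases hx with rfl | rfl | rfl <;> assumption
      · rw [K.card_eq s hs, Finset.card_insert_of_notMem (by simp [hd.1, hd.2.1]),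
          Finset.card_insert_of_notMem (by simp [hd.2.2]), Finset.card_singleton]
    rw [this]; exact hs

theorem U1_apply_eq_zero {T : Set (Fin n)} {z : (Fin n × Fin n) →₀ ZMod 2}
    (hz : ∀ e ∈ z.support, e.1 ∈ T ∧ e.2 ∈ T) {w x : Fin n} (h : w ∉ T ∨ x ∉ T) :
    U1 z {w, x} = 0 := by
  rw [U1, Finsupp.linearCombination_apply, Finsupp.sum, Finsupp.finsetSum_apply]
  refine Finset.sum_eq_zero fun e he => ?_
  rw [Finsupp.smul_apply]
  by_cases hd : e.1 = e.2
  · rw [if_pos hd]; simp
  · rw [if_neg hd, Finsupp.single_apply, if_neg, smul_zero]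
    intro h'
    obtain ⟨h1, h2⟩ := hz e he
    have hw : w ∈ ({e.1, e.2} : Finset (Fin n)) := by rw [h']; simp
    have hx : x ∈ ({e.1, e.2} : Finset (Fin n)) := by rw [h']; simp
    simp only [Finset.mem_insert, Finset.mem_singleton] at hw hx
    rcases h with h | h
    · rcases hw with rfl | rfl <;> exact h (by assumption)
    · rcases hx with rfl | rfl <;> exact h (by assumption)

/-- **Mod 2 duality for ordered chains.** -/
theorem duality {T : Set (Fin n)}
    (hconn : ∀ a b, a ∉ T → b ∉ T →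
      Relation.ReflTransGen (fun x y => K.Adj x y ∧ x ∉ T ∧ y ∉ T) a b)
    {z : (Fin n × Fin n) →₀ ZMod 2}
    (hz : ∀ e ∈ z.support, e.1 ∈ T ∧ e.2 ∈ T ∧ ∃ s ∈ K.faces, e.1 ∈ s ∧ e.2 ∈ s)
    {c : (Fin n × Fin n × Fin n) →₀ ZMod 2}
    (hc : ∀ e ∈ c.support, ∃ s ∈ K.faces, e.1 ∈ s ∧ e.2.1 ∈ s ∧ e.2.2 ∈ s)
    (hcz : vb c = z) :
    ∃ d : (Fin n × Fin n × Fin n) →₀ ZMod 2,
      (∀ e ∈ d.support, (e.1 ∈ T ∧ e.2.1 ∈ T ∧ e.2.2 ∈ T) ∧
        ∃ s ∈ K.faces, e.1 ∈ s ∧ e.2.1 ∈ s ∧ e.2.2 ∈ s) ∧ vb d = z := by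
  have h1 : fb (U2 c) = U1 z := by rw [← U1_vb, hcz]
  obtain ⟨b, hb, hbb⟩ := fb_duality K hconn (U2_support K hc) (fun w x _ h => by
    rw [h1]; exact U1_apply_eq_zero (fun e he => ⟨(hz e he).1, (hz e he).2.1⟩) h)
  refine ⟨O2 b + E1 z, ?_, ?_⟩
  · intro e he
    have hcases : e ∈ (O2 b).support ∨ e ∈ (E1 z).support := by
      have := Finsupp.support_add he
      exact Finset.mem_union.1 this
    rcases hcases with h | h
    · -- O2 part
      by_contra hcon
      apply Finsupp.mem_support_iff.1 h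
      rw [O2, Finsupp.linearCombination_apply, Finsupp.sum, Finsupp.finsetSum_apply]
      refine Finset.sum_eq_zero fun t ht => ?_
      obtain ⟨htf, htT⟩ := hb t ht
      obtain ⟨i, j, k, _, _, h3, h4⟩ := srt_spec (K.card_eq t htf)
      rw [Finsupp.smul_apply, h4, Finsupp.single_apply, if_neg, smul_zero]
      rintro rfl
      apply hcon
      have hi : i ∈ t := by rw [h3]; simp
      have hj : j ∈ t := by rw [h3]; simp
      have hk : k ∈ t := by rw [h3]; simp
      exact ⟨⟨htT i hi, htT j hj, htT k hk⟩, t, htf, hi, hj, hk⟩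
    · by_contra hcon
      apply Finsupp.mem_support_iff.1 h
      rw [E1, Finsupp.linearCombination_apply, Finsupp.sum, Finsupp.finsetSum_apply]
      refine Finset.sum_eq_zero fun f hf => ?_
      obtain ⟨hf1, hf2, s, hs, hs1, hs2⟩ := hz f hf
      rw [Finsupp.smul_apply]
      have k1 : (f.1, f.2, f.1) ≠ e := by
        rintro rfl; exact hcon ⟨⟨hf1, hf2, hf1⟩, s, hs, hs1, hs2, hs1⟩
      have k2 : (f.1, f.1, f.1) ≠ e := by
        rintro rfl; exact hcon ⟨⟨hf1, hf1, hf1⟩, s, hs, hs1, hs1, hs1⟩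
      split_ifs <;> simp [k1, k2]
  · rw [map_add, vb_O2 (fun t ht => K.card_eq t (hb t ht).1), vb_E1, hbb, h1]
    have := ZModModule.add_self (O1 (U1 z))
    calc O1 (U1 z) + (z + O1 (U1 z)) = z + (O1 (U1 z) + O1 (U1 z)) := by abel
      _ = z := by rw [this, add_zero]

end Pool.Agent.helper43.TF.DU
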