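import Pool.Agent.helper43.TF.SG3

/-! The singular `H_1` condition from mod 2 duality; the criterion for tightness. -/

open Set Topology Filter

namespace Pool.Agent.helper43.TF.SG

open Pool.Agent.helper45.TF

/-- cancel pairs of equal terms in a `ZMod 2`-module -/
theorem cancel {M : Type} [AddCommGroup M] [Module (ZMod 2) M] {x y s : M} (h : x = y + (s + s)) :
    x = y := by rw [h, ZModModule.add_self, add_zero]

variable {n : ℕ}

/-! ### singular versus vertex chains -/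

noncomputable def i1 : ((Fin n × Fin n) →₀ ZMod 2) →ₗ[ZMod 2] (Sing1 (Fin n) →₀ ZMod 2) :=
  Finsupp.linearCombination (ZMod 2) fun e => Finsupp.single (seg (T0.vert e.1) (T0.vert e.2)) 1

noncomputable def i2 : ((Fin n × Fin n × Fin n) →₀ ZMod 2) →ₗ[ZMod 2] (Sing2 (Fin n) →₀ ZMod 2) :=
  Finsupp.linearCombination (ZMod 2) fun e =>
    Finsupp.single (tri (T0.vert e.1) (T0.vert e.2.1) (T0.vert e.2.2)) 1

theorem bd2_i2 (d : (Fin n × Fin n × Fin n) →₀ ZMod 2) : bd2 (i2 d) = i1 (DU.vb d) :=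
  lin_ext (f := bd2 ∘ₗ i2) (g := i1 ∘ₗ DU.vb) (fun e => by
    simp only [LinearMap.comp_apply, i2, DU.vb, i1, Finsupp.linearCombination_single, one_smul,
      map_add, bd2_tri]
    abel) d

theorem comp_e01_zero {V : Type} (τ : Sing2 V) :
    (τ.comp (edgeMap 0 2)) 0 = (τ.comp (edgeMap 0 1)) 0 := by
  show τ _ = τ _
  congr 1
  apply Subtype.ext
  funext k
  rw [edge_apply, edge_apply]; simp

theorem comp_e12_zero {V : Type} (τ : Sing2 V) :
    (τ.comp (edgeMap 1 2)) 0 = (τ.comp (edgeMap 0 1)) 1 := by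
  show τ _ = τ _
  congr 1
  apply Subtype.ext
  funext k
  rw [edge_apply, edge_apply]; simp

theorem comp_e12_one {V : Type} (τ : Sing2 V) :
    (τ.comp (edgeMap 1 2)) 1 = (τ.comp (edgeMap 0 2)) 1 := by
  show τ _ = τ _
  congr 1
  apply Subtype.ext
  funext k
  rw [edge_apply, edge_apply]; simp

theorem bd1_bd2 {V : Type} (w : Sing2 V →₀ ZMod 2) : bd1 (bd2 w) = 0 :=
  lin_ext (f := bd1 ∘ₗ bd2) (g := 0) (fun τ => by
    simp only [LinearMap.comp_apply, bd2_single, map_add, bd1_single, comp_e01_zero, comp_e12_zero,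
      comp_e12_one, LinearMap.zero_apply]
    refine cancel (s := Finsupp.single ((τ.comp (edgeMap 0 1)) 0) 1 +
      Finsupp.single ((τ.comp (edgeMap 0 1)) 1) 1 + Finsupp.single ((τ.comp (edgeMap 0 2)) 1) 1) ?_
    abel) w

section maps

variable (φ : (Fin n → ℝ) → Fin n) (ψ : Sing1 (Fin n) → Fin n) (χ : Sing2 (Fin n) → Fin n)

/-- simplicial approximation of small 1-simplices -/
noncomputable def T1' (γ : Sing1 (Fin n)) : (Fin n × Fin n) →₀ ZMod 2 :=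
  Finsupp.single (φ (γ 0), ψ γ) 1 + Finsupp.single (ψ γ, φ (γ 1)) 1

noncomputable def T1 : (Sing1 (Fin n) →₀ ZMod 2) →ₗ[ZMod 2] ((Fin n × Fin n) →₀ ZMod 2) :=
  Finsupp.linearCombination (ZMod 2) (T1' φ ψ)

noncomputable def cone' (w : Fin n) (γ : Sing1 (Fin n)) : (Fin n × Fin n × Fin n) →₀ ZMod 2 :=
  Finsupp.single (w, φ (γ 0), ψ γ) 1 + Finsupp.single (w, ψ γ, φ (γ 1)) 1

theorem vb_cone' (w : Fin n) (γ : Sing1 (Fin n)) : DU.vb (cone' φ ψ w γ) =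
    T1' φ ψ γ + (Finsupp.single (w, φ (γ 0)) 1 + Finsupp.single (w, φ (γ 1)) 1) := by
  simp only [cone', map_add, DU.vb, Finsupp.linearCombination_single, one_smul, T1']
  refine cancel (s := Finsupp.single (w, ψ γ) 1) ?_
  abel

noncomputable def T2' (τ : Sing2 (Fin n)) : (Fin n × Fin n × Fin n) →₀ ZMod 2 :=
  cone' φ ψ (χ τ) (τ.comp (edgeMap 0 1)) + cone' φ ψ (χ τ) (τ.comp (edgeMap 0 2)) +
    cone' φ ψ (χ τ) (τ.comp (edgeMap 1 2))

noncomputable def T2 : (Sing2 (Fin n) →₀ ZMod 2) →ₗ[ZMod 2] ((Fin n × Fin n × Fin n) →₀ ZMod 2) :=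
  Finsupp.linearCombination (ZMod 2) (T2' φ ψ χ)

theorem vb_T2 (w : Sing2 (Fin n) →₀ ZMod 2) : DU.vb (T2 φ ψ χ w) = T1 φ ψ (bd2 w) :=
  lin_ext (f := DU.vb ∘ₗ T2 φ ψ χ) (g := T1 φ ψ ∘ₗ bd2) (fun τ => by
    simp only [LinearMap.comp_apply, T2, T1, Finsupp.linearCombination_single, one_smul, T2',
      map_add, vb_cone', bd2_single, comp_e01_zero, comp_e12_zero, comp_e12_one]
    refine cancel (s := Finsupp.single (χ τ, φ ((τ.comp (edgeMap 0 1)) 0)) 1 +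
      Finsupp.single (χ τ, φ ((τ.comp (edgeMap 0 1)) 1)) 1 +
      Finsupp.single (χ τ, φ ((τ.comp (edgeMap 0 2)) 1)) 1) ?_
    abel) w

/-- straight-line homotopy to a point -/
noncomputable def hom (γ : Sing1 (Fin n)) (y : Fin n → ℝ) :
    C(unitInterval × unitInterval, Fin n → ℝ) where
  toFun q := (1 - (q.2 : ℝ)) • γ q.1 + (q.2 : ℝ) • y
  continuous_toFun := by fun_prop

theorem hom_bot (γ : Sing1 (Fin n)) (y : Fin n → ℝ) : (hom γ y).comp bot = γ := by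
  ext t v; simp [hom, bot]

theorem hom_top (γ : Sing1 (Fin n)) (y : Fin n → ℝ) : (hom γ y).comp top' = cst1 y := by
  ext t v; simp [hom, top', cst1]

theorem hom_left (γ : Sing1 (Fin n)) (y : Fin n → ℝ) : (hom γ y).comp left = seg (γ 0) y := by
  ext t v; simp [hom, left, seg]

theorem hom_right (γ : Sing1 (Fin n)) (y : Fin n → ℝ) : (hom γ y).comp right = seg (γ 1) y := by
  ext t v; simp [hom, right, seg]

noncomputable def H' (γ : Sing1 (Fin n)) : Sing2 (Fin n) →₀ ZMod 2 :=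
  prism (hom γ (T0.vert (ψ γ))) + Finsupp.single (cst2 (T0.vert (ψ γ))) 1 +
    Finsupp.single (tri (γ 0) (T0.vert (φ (γ 0))) (T0.vert (ψ γ))) 1 +
    Finsupp.single (tri (γ 1) (T0.vert (ψ γ)) (T0.vert (φ (γ 1)))) 1

noncomputable def H : (Sing1 (Fin n) →₀ ZMod 2) →ₗ[ZMod 2] (Sing2 (Fin n) →₀ ZMod 2) :=
  Finsupp.linearCombination (ZMod 2) (H' φ ψ)

noncomputable def E0 : ((Fin n → ℝ) →₀ ZMod 2) →ₗ[ZMod 2] (Sing1 (Fin n) →₀ ZMod 2) :=
  Finsupp.linearCombination (ZMod 2) fun x => Finsupp.single (seg x (T0.vert (φ x))) 1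

theorem bd2_H (c : Sing1 (Fin n) →₀ ZMod 2) :
    bd2 (H φ ψ c) = c + (i1 (T1 φ ψ c) + E0 φ (bd1 c)) := by
  have := lin_ext (f := bd2 ∘ₗ H φ ψ)
    (g := LinearMap.id + (i1 ∘ₗ T1 φ ψ + E0 φ ∘ₗ bd1)) (fun γ => by
      simp only [LinearMap.comp_apply, LinearMap.add_apply, LinearMap.id_apply, H, T1, i1, E0,
        Finsupp.linearCombination_single, one_smul, bd1_single, map_add, T1', H', bd2_tri,
        bd2_cst2, bd2_prism, hom_bot, hom_top, hom_left, hom_right]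
      refine cancel (s := Finsupp.single (seg (γ 1) (T0.vert (ψ γ))) 1 +
        Finsupp.single (seg (γ 0) (T0.vert (ψ γ))) 1 + Finsupp.single (cst1 (T0.vert (ψ γ))) 1) ?_
      abel) c
  simpa using this

end maps

theorem hOneInjective [Nonempty (Fin n)] (K : ClosedSurface (Fin n)) (val : Fin n → ℝ) {J : Set ℝ}
    (hJ : IsLowerSet J)
    (hconn : ∀ a b, a ∉ {v | val v ∈ J} → b ∉ {v | val v ∈ J} →
      Relation.ReflTransGen (fun x y => K.Adj x y ∧ x ∉ {v | val v ∈ J} ∧ y ∉ {v | val v ∈ J}) a b) :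
    HOneInjective (T0.part K val J) K.space := by
  intro c hc hc0 hcM
  obtain ⟨w, hw, hwc⟩ := hcM
  have hX : ∀ x ∈ T0.part K val J, ∃ v, val v ∈ J ∧ x v ≠ 0 := by
    rintro x ⟨⟨s, hs, hx⟩, hxJ⟩
    obtain ⟨v, _, hv, hvl⟩ := T0.exists_low_vertex (val := val) hx
    exact ⟨v, hJ hvl hxJ, hv⟩
  have hM : ∀ x ∈ K.space, ∃ v, True ∧ x v ≠ 0 := by
    rintro x ⟨s, hs, hx⟩
    obtain ⟨v, _, hv, _⟩ := T0.exists_low_vertex (val := val) hx
    exact ⟨v, trivial, hv⟩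
  -- choices
  have hφ : ∀ x : Fin n → ℝ, ∃ v, (x ∈ K.space → x v ≠ 0) ∧
      (x ∈ T0.part K val J → val v ∈ J) := by
    intro x
    by_cases h1 : x ∈ T0.part K val J
    · obtain ⟨v, hv, hv'⟩ := hX x h1
      exact ⟨v, fun _ => hv', fun _ => hv⟩
    · by_cases h2 : x ∈ K.space
      · obtain ⟨v, -, hv⟩ := hM x h2
        exact ⟨v, fun _ => hv, fun h => absurd h h1⟩
      · exact ⟨Classical.arbitrary _, fun h => absurd h h2, fun h => absurd h h1⟩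
  choose φ hφ1 hφ2 using hφ
  have hψ : ∀ γ : Sing1 (Fin n), ∃ v, ((∃ u, ∀ t, γ t u ≠ 0) → ∀ t, γ t v ≠ 0) ∧
      (γ ∈ Sm1 (T0.part K val J) (fun v => val v ∈ J) → val v ∈ J) := by
    intro γ
    by_cases h1 : γ ∈ Sm1 (T0.part K val J) (fun v => val v ∈ J)
    · obtain ⟨v, hv, hv'⟩ := h1.2
      exact ⟨v, fun _ => hv', fun _ => hv⟩
    · by_cases h2 : ∃ u, ∀ t, γ t u ≠ 0
      · obtain ⟨v, hv⟩ := h2
        exact ⟨v, fun _ => hv, fun h => absurd h h1⟩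
      · exact ⟨Classical.arbitrary _, fun h => absurd h h2, fun h => absurd h h1⟩
  choose ψ hψ1 hψ2 using hψ
  have hχ : ∀ τ : Sing2 (Fin n), ∃ v, (∃ u, ∀ t, τ t u ≠ 0) → ∀ t, τ t v ≠ 0 := by
    intro τ
    by_cases h2 : ∃ u, ∀ t, τ t u ≠ 0
    · obtain ⟨v, hv⟩ := h2
      exact ⟨v, fun _ => hv⟩
    · exact ⟨Classical.arbitrary _, fun h => absurd h h2⟩
  choose χ hχ1 using hχ
  obtain ⟨N, ⟨hN1, hN2⟩, hN0⟩ := (((small1_chain hX hc).and (small2_chain hM hw)).and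
    (eventually_gt_atTop 0)).exists
  -- the simplicial cycle bounds in the vertices of `J`
  have hz : ∀ e ∈ (T1 φ ψ (sd1 N c)).support, e.1 ∈ {v | val v ∈ J} ∧ e.2 ∈ {v | val v ∈ J} ∧
      ∃ s ∈ K.faces, e.1 ∈ s ∧ e.2 ∈ s := by
    have hmem : T1 φ ψ (sd1 N c) ∈ Finsupp.supported (ZMod 2) (ZMod 2)
        {e : Fin n × Fin n | e.1 ∈ {v | val v ∈ J} ∧ e.2 ∈ {v | val v ∈ J} ∧
          ∃ s ∈ K.faces, e.1 ∈ s ∧ e.2 ∈ s} := by
      refine lc_mem _ _ _ fun γ hγ => ?_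
      have hγ' := hN1 hγ
      have hv := hψ1 γ ⟨_, hγ'.2.choose_spec.2⟩
      have hvJ := hψ2 γ hγ'
      refine add_mem (single_mem ⟨hφ2 _ (hγ'.1 0), hvJ, ?_⟩) (single_mem ⟨hvJ, hφ2 _ (hγ'.1 1), ?_⟩)
      · obtain ⟨s, hs, hx⟩ := (hγ'.1 0).1
        refine ⟨s, hs, ?_, ?_⟩
        · by_contra h; exact hφ1 _ (hγ'.1 0).1 (hx.2.2 _ h)
        · by_contra h; exact hv 0 (hx.2.2 _ h)
      · obtain ⟨s, hs, hx⟩ := (hγ'.1 1).1
        refine ⟨s, hs, ?_, ?_⟩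
        · by_contra h; exact hv 1 (hx.2.2 _ h)
        · by_contra h; exact hφ1 _ (hγ'.1 1).1 (hx.2.2 _ h)
    exact fun e he => hmem he
  have hd : ∀ e ∈ (T2 φ ψ χ (sd2 N w)).support, ∃ s ∈ K.faces, e.1 ∈ s ∧ e.2.1 ∈ s ∧ e.2.2 ∈ s := by
    have hmem : T2 φ ψ χ (sd2 N w) ∈ Finsupp.supported (ZMod 2) (ZMod 2)
        {e : Fin n × Fin n × Fin n | ∃ s ∈ K.faces, e.1 ∈ s ∧ e.2.1 ∈ s ∧ e.2.2 ∈ s} := by
      refine lc_mem _ _ _ fun τ hτ => ?_
      have hτ' := hN2 hτ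
      obtain ⟨u, -, hu⟩ := hτ'.2
      have hw' := hχ1 τ ⟨u, hu⟩
      have key : ∀ i j, cone' φ ψ (χ τ) (τ.comp (edgeMap i j)) ∈ Finsupp.supported (ZMod 2) (ZMod 2)
          {e : Fin n × Fin n × Fin n | ∃ s ∈ K.faces, e.1 ∈ s ∧ e.2.1 ∈ s ∧ e.2.2 ∈ s} := by
        intro i j
        have hγ : ∀ t, (τ.comp (edgeMap i j)) t (ψ (τ.comp (edgeMap i j))) ≠ 0 :=
          hψ1 _ ⟨u, fun t => hu _⟩
        refine add_mem (single_mem ?_) (single_mem ?_)
        · obtain ⟨s, hs, hx⟩ := hτ'.1 (edgeMap i j 0)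
          refine ⟨s, hs, ?_, ?_, ?_⟩
          · by_contra h; exact hw' _ (hx.2.2 _ h)
          · by_contra h; exact hφ1 _ (hτ'.1 (edgeMap i j 0)) (hx.2.2 _ h)
          · by_contra h; exact hγ 0 (hx.2.2 _ h)
        · obtain ⟨s, hs, hx⟩ := hτ'.1 (edgeMap i j 1)
          refine ⟨s, hs, ?_, ?_, ?_⟩
          · by_contra h; exact hw' _ (hx.2.2 _ h)
          · by_contra h; exact hγ 1 (hx.2.2 _ h)
          · by_contra h; exact hφ1 _ (hτ'.1 (edgeMap i j 1)) (hx.2.2 _ h)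
      exact add_mem (add_mem (key 0 1) (key 0 2)) (key 1 2)
    exact fun e he => hmem he
  obtain ⟨d, hdT, hdz⟩ := DU.duality K hconn hz hd (by rw [vb_T2, bd2_sd2 hN0, hwc])
  refine ⟨hd1 N c + (H φ ψ (sd1 N c) + i2 d), ?_, ?_⟩
  · rw [in2_iff]
    refine add_mem (hd1_mem hc) (add_mem ?_ ?_)
    · refine lc_mem _ _ _ fun γ hγ => ?_
      have hγ' := hN1 hγ
      have hv := hψ1 γ ⟨_, hγ'.2.choose_spec.2⟩
      have hvJ := hψ2 γ hγ'
      have hface : ∀ t, ∃ s ∈ K.faces, γ t ∈ {x | x ∈ cell s ∧ T0.lin val x ∈ J} ∧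
          T0.vert (ψ γ) ∈ {x | x ∈ cell s ∧ T0.lin val x ∈ J} ∧
          T0.vert (φ (γ t)) ∈ {x | x ∈ cell s ∧ T0.lin val x ∈ J} := by
        intro t
        obtain ⟨s, hs, hx⟩ := (hγ'.1 t).1
        refine ⟨s, hs, ⟨hx, (hγ'.1 t).2⟩, ⟨T0.vert_mem_cell ?_, ?_⟩, ⟨T0.vert_mem_cell ?_, ?_⟩⟩
        · by_contra h; exact hv t (hx.2.2 _ h)
        · rw [T0.lin_vert]; exact hvJ
        · by_contra h; exact hφ1 _ (hγ'.1 t).1 (hx.2.2 _ h)
        · rw [T0.lin_vert]; exact hφ2 _ (hγ'.1 t)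
      refine add_mem (add_mem (add_mem (prism_mem ?_) (single_mem ?_)) (single_mem ?_))
        (single_mem ?_)
      · rintro ⟨t, s⟩
        obtain ⟨f, hf, h1, h2, -⟩ := hface t
        have := T0.convex_cellPart val hJ f h1 h2 (a := 1 - (s : ℝ)) (b := s)
          (by linarith [s.2.2]) s.2.1 (by ring)
        exact ⟨⟨f, hf, this.1⟩, this.2⟩
      · intro t
        obtain ⟨f, hf, h1, h2, -⟩ := hface 0
        exact ⟨⟨f, hf, h2.1⟩, h2.2⟩
      · intro t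
        obtain ⟨f, hf, h1, h2, h3⟩ := hface 0
        have := tri_mem (T0.convex_cellPart val hJ f) h1 h3 h2 t
        exact ⟨⟨f, hf, this.1⟩, this.2⟩
      · intro t
        obtain ⟨f, hf, h1, h2, h3⟩ := hface 1
        have := tri_mem (T0.convex_cellPart val hJ f) h1 h2 h3 t
        exact ⟨⟨f, hf, this.1⟩, this.2⟩
    · refine lc_mem _ _ _ fun e he => single_mem fun t => ?_
      obtain ⟨⟨h1, h2, h3⟩, s, hs, k1, k2, k3⟩ := hdT e he
      have := tri_mem (T0.convex_cellPart val hJ s)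
        (x := T0.vert e.1) (y := T0.vert e.2.1) (z := T0.vert e.2.2)
        ⟨T0.vert_mem_cell k1, by rw [T0.lin_vert]; exact h1⟩
        ⟨T0.vert_mem_cell k2, by rw [T0.lin_vert]; exact h2⟩
        ⟨T0.vert_mem_cell k3, by rw [T0.lin_vert]; exact h3⟩ t
      exact ⟨⟨s, hs, this.1⟩, this.2⟩
  · have hcyc : bd1 (sd1 N c) = 0 := by
      have h1 := congrArg bd1 (bd2_hd1 hN0 c)
      rw [bd1_bd2, map_add, hc0, zero_add] at h1
      exact h1.symm
    rw [map_add, map_add, bd2_hd1 hN0, bd2_H, bd2_i2, hdz, hcyc, map_zero, add_zero]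
    refine cancel (s := sd1 N c + i1 (T1 φ ψ (sd1 N c))) ?_
    abel

/-- **Criterion for tightness.** If the vertices of `H` are pairwise adjacent (or equal) and every
other vertex has in every direction a strictly lower neighbour, then the surface is tight. -/
theorem tight_of [Nonempty (Fin n)] (K : ClosedSurface (Fin n)) (p : Fin n → E3) {H : Set (Fin n)}
    (hH : ∀ v ∈ H, ∀ w ∈ H, K.Adj v w)
    (hd : ∀ a : E3, a ≠ 0 → ∀ v, v ∉ H → ∃ w, K.Adj v w ∧ inner ℝ a (p w) < inner ℝ a (p v)) :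
    Tight K p := by
  refine ⟨T0.zeroTight K p hH hd, fun h hh => ?_⟩
  obtain ⟨a, ha, J, hJ, rfl⟩ := T0.halfSpace_lower hh
  rw [T0.pre_eq_part]
  exact hOneInjective K _ hJ (T0.reach_compl K p hH hd ha hJ)

end Pool.Agent.helper43.TF.SG
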