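import Pool.Agent.helper43.TF.IF5
import Pool.Agent.helper92.TF.Cert

/-! The surface is not rigid. -/

open Set Topology Filter

namespace Pool.Agent.helper43.TF.Final

open Pool.Agent.helper45.TF Pool.Agent.helper92.TF Pool.Agent.helper43.TF.IFT

/-- two pairs of vectors with the same Gram matrix -/
theorem exists_linearIsometry {e e' : Fin 2 → E3} (hli : LinearIndependent ℝ e)
    (h : ∀ i j, inner ℝ (e' i) (e' j) = inner ℝ (e i) (e j)) :
    ∃ T : E3 ≃ₗᵢ[ℝ] E3, ∀ i, T (e i) = e' i := by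
  set bas := Module.Basis.span hli with hbas
  set L : Submodule.span ℝ (range e) →ₗ[ℝ] E3 := bas.constr ℝ e' with hL
  have hLb : ∀ i, L (bas i) = e' i := fun i => by rw [hL, Module.Basis.constr_basis]
  have hb : ∀ i, ((bas i : Submodule.span ℝ (range e)) : E3) = e i := fun i => by
    rw [hbas, Module.Basis.span_apply]
  have hin : ∀ x y : Submodule.span ℝ (range e), inner ℝ (L x) (L y) = inner ℝ x y := by
    intro x y
    rw [← bas.sum_repr x, ← bas.sum_repr y]
    simp only [map_sum, map_smul, hLb, sum_inner, inner_sum, inner_smul_left, inner_smul_right, h]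
    refine Finset.sum_congr rfl fun i _ => ?_
    congr 1
    refine Finset.sum_congr rfl fun j _ => ?_
    rw [Submodule.coe_inner, hb, hb]
  let L' : Submodule.span ℝ (range e) →ₗᵢ[ℝ] E3 := L.isometryOfInner hin
  refine ⟨L'.extend.toLinearIsometryEquiv rfl, fun i => ?_⟩
  have h1 : L'.extend ((bas i : Submodule.span ℝ (range e)) : E3) = L' (bas i) :=
    LinearIsometry.extend_apply L' (bas i)
  rw [hb] at h1
  have h2 : L' (bas i) = e' i := hLb i
  rw [h2] at h1
  exact h1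

/-- congruent nondegenerate triangles -/
theorem exists_isometry {u v w u' v' w' : E3} (hli : LinearIndependent ℝ ![v - u, w - u])
    (h1 : dist u' v' = dist u v) (h2 : dist u' w' = dist u w) (h3 : dist v' w' = dist v w) :
    ∃ g : E3 ≃ᵃⁱ[ℝ] E3, g u = u' ∧ g v = v' ∧ g w = w' := by
  have n1 : ‖v' - u'‖ = ‖v - u‖ := by
    rw [← dist_eq_norm, ← dist_eq_norm, dist_comm v', dist_comm v, h1]
  have n2 : ‖w' - u'‖ = ‖w - u‖ := by
    rw [← dist_eq_norm, ← dist_eq_norm, dist_comm w', dist_comm w, h2]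
  have n3 : ‖(v' - u') - (w' - u')‖ = ‖(v - u) - (w - u)‖ := by
    rw [sub_sub_sub_cancel_right, sub_sub_sub_cancel_right, ← dist_eq_norm, ← dist_eq_norm, h3]
  have i3 : inner ℝ (v' - u') (w' - u') = inner ℝ (v - u) (w - u) := by
    rw [real_inner_eq_norm_mul_self_add_norm_mul_self_sub_norm_sub_mul_self_div_two,
      real_inner_eq_norm_mul_self_add_norm_mul_self_sub_norm_sub_mul_self_div_two, n1, n2, n3]
  obtain ⟨T, hT⟩ := exists_linearIsometry (e := ![v - u, w - u]) (e' := ![v' - u', w' - u']) hli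
    (by
      intro i j
      fin_cases i <;> fin_cases j
      · show inner ℝ (v' - u') (v' - u') = inner ℝ (v - u) (v - u)
        rw [real_inner_self_eq_norm_sq, real_inner_self_eq_norm_sq, n1]
      · exact i3
      · show inner ℝ (w' - u') (v' - u') = inner ℝ (w - u) (v - u)
        rw [real_inner_comm, i3, real_inner_comm]
      · show inner ℝ (w' - u') (w' - u') = inner ℝ (w - u) (w - u)
        rw [real_inner_self_eq_norm_sq, real_inner_self_eq_norm_sq, n2])
  refine ⟨((AffineIsometryEquiv.vaddConst ℝ u).symm.trans T.toAffineIsometryEquiv).trans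
    (AffineIsometryEquiv.vaddConst ℝ u'), ?_, ?_, ?_⟩
  · simp
  · have := hT 0
    simp only [Matrix.cons_val_zero] at this
    simp [this]
  · have := hT 1
    simp only [Matrix.cons_val_one, Matrix.cons_val_fin_one] at this
    simp [this]

theorem face_check : (faceL.all fun t =>
    decide ((P t.2.1 0 - P t.1 0) * (P t.2.2 1 - P t.1 1) -
      (P t.2.1 1 - P t.1 1) * (P t.2.2 0 - P t.1 0) ≠ 0)) = true := by
  decide +kernel

theorem face_li {t : Fin 29 × Fin 29 × Fin 29} (ht : t ∈ faceL) :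
    LinearIndependent ℝ ![p0 t.2.1 - p0 t.1, p0 t.2.2 - p0 t.1] := by
  have h := List.all_eq_true.1 face_check t ht
  have h' : (P t.2.1 0 - P t.1 0) * (P t.2.2 1 - P t.1 1) -
      (P t.2.1 1 - P t.1 1) * (P t.2.2 0 - P t.1 0) ≠ 0 := by simpa using h
  have hR : (p0 t.2.1 0 - p0 t.1 0) * (p0 t.2.2 1 - p0 t.1 1) -
      (p0 t.2.1 1 - p0 t.1 1) * (p0 t.2.2 0 - p0 t.1 0) ≠ 0 := by
    simp only [p0_apply]
    exact_mod_cast h'
  rw [LinearIndependent.pair_iff]
  intro a b hab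
  have e0 : a * (p0 t.2.1 0 - p0 t.1 0) + b * (p0 t.2.2 0 - p0 t.1 0) = 0 := by
    have := congrArg (fun w : E3 => w 0) hab
    simpa using this
  have e1 : a * (p0 t.2.1 1 - p0 t.1 1) + b * (p0 t.2.2 1 - p0 t.1 1) = 0 := by
    have := congrArg (fun w : E3 => w 1) hab
    simpa using this
  constructor
  · refine (mul_eq_zero.1 (?_ : a * ((p0 t.2.1 0 - p0 t.1 0) * (p0 t.2.2 1 - p0 t.1 1) -
      (p0 t.2.1 1 - p0 t.1 1) * (p0 t.2.2 0 - p0 t.1 0)) = 0)).resolve_right hR
    linear_combination (p0 t.2.2 1 - p0 t.1 1) * e0 - (p0 t.2.2 0 - p0 t.1 0) * e1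
  · refine (mul_eq_zero.1 (?_ : b * ((p0 t.2.1 0 - p0 t.1 0) * (p0 t.2.2 1 - p0 t.1 1) -
      (p0 t.2.1 1 - p0 t.1 1) * (p0 t.2.2 0 - p0 t.1 0)) = 0)).resolve_right hR
    linear_combination (p0 t.2.1 0 - p0 t.1 0) * e1 - (p0 t.2.1 1 - p0 t.1 1) * e0

/-- an isometry fixing the vertices 24, ..., 27 does not move any first coordinate -/
theorem fixed_coord (g : E3 ≃ᵃⁱ[ℝ] E3) (h24 : g (p0 24) = p0 24) (h25 : g (p0 25) = p0 25)
    (h26 : g (p0 26) = p0 26) (h27 : g (p0 27) = p0 27) (x : E3) : (g x) 0 = x 0 := by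
  have key : ∀ a : E3, g a = a → (g x 0 - a 0) ^ 2 + (g x 1 - a 1) ^ 2 + (g x 2 - a 2) ^ 2 =
      (x 0 - a 0) ^ 2 + (x 1 - a 1) ^ 2 + (x 2 - a 2) ^ 2 := by
    intro a ha
    have h1 : dist (g x) a = dist x a := by
      conv_lhs => rw [← ha]
      exact g.dist_map x a
    have h2 : dist (g x) a ^ 2 = dist x a ^ 2 := by rw [h1]
    rw [EuclideanSpace.dist_eq, EuclideanSpace.dist_eq,
      Real.sq_sqrt (Finset.sum_nonneg fun i _ => sq_nonneg _),
      Real.sq_sqrt (Finset.sum_nonneg fun i _ => sq_nonneg _)] at h2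
    simpa only [Fin.sum_univ_three, Real.dist_eq, sq_abs] using h2
  have k0 := key _ h24
  have k1 := key _ h25
  have k2 := key _ h26
  have k3 := key _ h27
  set z0 := g x 0 with hz0
  set z1 := g x 1 with hz1
  set z2 := g x 2 with hz2
  set A := p0 24 with hA
  set B := p0 25 with hB
  set C := p0 26 with hC
  set D := p0 27 with hD
  have e1 : (z0 - x 0) * (B 0 - A 0) + (z1 - x 1) * (B 1 - A 1) + (z2 - x 2) * (B 2 - A 2) = 0 := by
    linear_combination (k0 - k1) / 2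
  have e2 : (z0 - x 0) * (C 0 - A 0) + (z1 - x 1) * (C 1 - A 1) + (z2 - x 2) * (C 2 - A 2) = 0 := by
    linear_combination (k0 - k2) / 2
  have e3 : (z0 - x 0) * (D 0 - A 0) + (z1 - x 1) * (D 1 - A 1) + (z2 - x 2) * (D 2 - A 2) = 0 := by
    linear_combination (k0 - k3) / 2
  have hdet : ((B 0 - A 0) * ((C 1 - A 1) * (D 2 - A 2) - (C 2 - A 2) * (D 1 - A 1)) -
      (B 1 - A 1) * ((C 0 - A 0) * (D 2 - A 2) - (C 2 - A 2) * (D 0 - A 0)) +
      (B 2 - A 2) * ((C 0 - A 0) * (D 1 - A 1) - (C 1 - A 1) * (D 0 - A 0))) ≠ 0 := by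
    have hZ : ((P 25 0 - P 24 0) * ((P 26 1 - P 24 1) * (P 27 2 - P 24 2) -
        (P 26 2 - P 24 2) * (P 27 1 - P 24 1)) -
      (P 25 1 - P 24 1) * ((P 26 0 - P 24 0) * (P 27 2 - P 24 2) -
        (P 26 2 - P 24 2) * (P 27 0 - P 24 0)) +
      (P 25 2 - P 24 2) * ((P 26 0 - P 24 0) * (P 27 1 - P 24 1) -
        (P 26 1 - P 24 1) * (P 27 0 - P 24 0))) ≠ 0 := by decide +kernel
    simp only [hA, hB, hC, hD, p0_apply]
    exact_mod_cast hZ
  have hz : (z0 - x 0) * ((B 0 - A 0) * ((C 1 - A 1) * (D 2 - A 2) - (C 2 - A 2) * (D 1 - A 1)) -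
      (B 1 - A 1) * ((C 0 - A 0) * (D 2 - A 2) - (C 2 - A 2) * (D 0 - A 0)) +
      (B 2 - A 2) * ((C 0 - A 0) * (D 1 - A 1) - (C 1 - A 1) * (D 0 - A 0))) = 0 := by
    linear_combination ((C 1 - A 1) * (D 2 - A 2) - (C 2 - A 2) * (D 1 - A 1)) * e1 +
      ((D 1 - A 1) * (B 2 - A 2) - (D 2 - A 2) * (B 1 - A 1)) * e2 +
      ((B 1 - A 1) * (C 2 - A 2) - (B 2 - A 2) * (C 1 - A 1)) * e3
  have := (mul_eq_zero.1 hz).resolve_right hdet
  linarith

/-- **The surface is flexible.** -/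
theorem not_rigid : ¬ Rigid S0 p0 := by
  intro hR
  obtain ⟨ε, hε, q, hq0, hqc, hq⟩ := exists_flex
  -- immersions for small times
  have hev : ∀ᶠ t in 𝓝[Icc 0 ε] (0 : ℝ), IsPolyhedralImmersion S0 (q t) := by
    have h1 : ContinuousWithinAt q (Icc 0 ε) 0 := hqc 0 ⟨le_refl _, hε.le⟩
    have h2 : Tendsto q (𝓝[Icc 0 ε] 0) (𝓝 p0) := by
      have := h1.tendsto
      rwa [hq0] at this
    exact h2.eventually p0_open
  obtain ⟨δ, hδ, hball⟩ := Metric.mem_nhdsWithin_iff.1 hev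
  set η : ℝ := min (δ / 2) ε with hη
  have hη0 : 0 < η := lt_min (half_pos hδ) hε
  have hη1 : η < δ := lt_of_le_of_lt (min_le_left _ _) (half_lt_self hδ)
  have hη2 : η ≤ ε := min_le_right _ _
  have hmem : ∀ s : unitInterval, η * (s : ℝ) ∈ Icc 0 ε := fun s =>
    ⟨mul_nonneg hη0.le s.2.1, (mul_le_of_le_one_right hη0.le s.2.2).trans hη2⟩
  have key := hR (fun s => q (η * (s : ℝ))) (hqc.comp_continuous (by fun_prop) hmem)
    (by simpa using hq0) (fun s => hball ⟨by
      rw [Metric.mem_ball, Real.dist_eq, sub_zero, abs_of_nonneg (hmem s).1]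
      exact (mul_le_of_le_one_right hη0.le s.2.2).trans_lt hη1, hmem s⟩)
    (fun s f hf => by
      obtain ⟨t, ht, rfl⟩ := mem_faceSet.1 hf
      have hd := (hq _ (hmem s)).1 t ht
      have m1 : t.1 ∈ triSet t := by simp [triSet]
      have m2 : t.2.1 ∈ triSet t := by simp [triSet]
      have m3 : t.2.2 ∈ triSet t := by simp [triSet]
      obtain ⟨g, g1, g2, g3⟩ := exists_isometry (face_li ht) (hd _ m1 _ m2) (hd _ m1 _ m3)
        (hd _ m2 _ m3)
      refine ⟨g, fun v hv => ?_⟩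
      simp only [triSet, Finset.mem_insert, Finset.mem_singleton] at hv
      rcases hv with rfl | rfl | rfl
      · exact g1
      · exact g2
      · exact g3) 1
  obtain ⟨g, hg⟩ := key
  have h1 : (1 : unitInterval) = 1 := rfl
  have ht := hq _ (hmem 1)
  have hfix : ∀ v : Fin 29, 24 ≤ v.1 → g (p0 v) = p0 v := by
    intro v hv
    rw [hg v]
    exact ht.2.1 v (by omega)
  have hx := fixed_coord g (hfix 24 (by decide)) (hfix 25 (by decide)) (hfix 26 (by decide))
    (hfix 27 (by decide)) (p0 3)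
  rw [hg 3] at hx
  have h3 := ht.2.2
  rw [hx] at h3
  have h4 : η * ((1 : unitInterval) : ℝ) = η := by simp
  rw [h4] at h3
  linarith

/-- **Kalai's question has a negative answer in genus 3.** -/
theorem tight_flexible : ∃ (S : ClosedSurface (Fin 29)) (p : Fin 29 → E3),
    IsPolyhedralImmersion S p ∧ Tight S p ∧ ¬ Rigid S p ∧ S.Orientable ∧ S.faces.card = 66 :=
  ⟨S0, p0, p0_immersion, p0_tight, not_rigid, S0_orientable, S0_card⟩

end Pool.Agent.helper43.TF.Final
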