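import Mathlib

/-! Curves in the zero set of integer polynomial systems: deep embedding of polynomials,
derivatives, certificate of invertibility mod 19, inverse function theorem. -/

open Set Topology Filter

namespace Pool.Agent.helper43.TF.IFT

/-- the inverse function theorem as a curve lifting lemma -/
theorem local_curve {E : Type} [NormedAddCommGroup E] [NormedSpace ℝ E] [CompleteSpace E]
    {Φ : E → E} {Φ' : E ≃L[ℝ] E} {a : E} (h : HasStrictFDerivAt Φ (Φ' : E →L[ℝ] E) a) (e : E) :
    ∃ ε > 0, ∃ c : ℝ → E, c 0 = a ∧ ContinuousOn c (Icc 0 ε) ∧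
      ∀ t ∈ Icc 0 ε, Φ (c t) = Φ a + t • e := by
  set g := h.localInverse Φ Φ' a with hg
  have h1 : ∀ᶠ y in 𝓝 (Φ a), Φ (g y) = y := h.eventually_right_inverse
  have h2 : g (Φ a) = a := h.localInverse_apply_image
  obtain ⟨K, s, hs, hL⟩ := h.to_localInverse.exists_lipschitzOnWith
  set l : ℝ → E := fun t => Φ a + t • e with hl
  have hlc : Continuous l := by fun_prop
  have hl0 : l 0 = Φ a := by simp [hl]
  have h3 : ∀ᶠ t in 𝓝 (0 : ℝ), Φ (g (l t)) = l t ∧ l t ∈ s := by
    have := hlc.continuousAt.tendsto (x := (0 : ℝ))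
    rw [hl0] at this
    exact this.eventually (h1.and hs)
  obtain ⟨ε, hε, hball⟩ := Metric.eventually_nhds_iff.1 h3
  refine ⟨ε / 2, half_pos hε, fun t => g (l t), ?_, ?_, ?_⟩
  · show g (l 0) = a
    rw [hl0, h2]
  · refine hL.continuousOn.comp hlc.continuousOn fun t ht => ?_
    refine (hball ?_).2
    rw [Real.dist_eq, sub_zero, abs_of_nonneg ht.1]
    linarith [ht.2]
  · intro t ht
    refine (hball ?_).1
    rw [Real.dist_eq, sub_zero, abs_of_nonneg ht.1]
    linarith [ht.2]

/-- polynomial expressions with integer coefficients -/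
inductive Ex : Type
  | v : ℕ → Ex
  | c : ℤ → Ex
  | add : Ex → Ex → Ex
  | sub : Ex → Ex → Ex
  | mul : Ex → Ex → Ex

namespace Ex

/-- value -/
def ev {R : Type} [CommRing R] (x : ℕ → R) : Ex → R
  | v i => x i
  | c z => (z : R)
  | add e f => ev x e + ev x f
  | sub e f => ev x e - ev x f
  | mul e f => ev x e * ev x f

/-- partial derivative -/
def dv {R : Type} [CommRing R] (x : ℕ → R) (j : ℕ) : Ex → R
  | v i => if i = j then 1 else 0
  | c _ => 0
  | add e f => dv x j e + dv x j f
  | sub e f => dv x j e - dv x j f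
  | mul e f => ev x e * dv x j f + ev x f * dv x j e

theorem ev_map {R S : Type} [CommRing R] [CommRing S] (φ : R →+* S) (x : ℕ → R) (e : Ex) :
    φ (ev x e) = ev (fun i => φ (x i)) e := by
  induction e with
  | v i => rfl
  | c z => simp [ev]
  | add e f he hf => simp [ev, he, hf]
  | sub e f he hf => simp [ev, he, hf]
  | mul e f he hf => simp [ev, he, hf]

theorem dv_map {R S : Type} [CommRing R] [CommRing S] (φ : R →+* S) (x : ℕ → R) (j : ℕ) (e : Ex) :
    φ (dv x j e) = dv (fun i => φ (x i)) j e := by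
  induction e with
  | v i => simp only [dv]; split_ifs <;> simp
  | c z => simp [dv]
  | add e f he hf => simp [dv, he, hf]
  | sub e f he hf => simp [dv, he, hf]
  | mul e f he hf => simp [dv, he, hf, ev_map]

/-- value mod 19, as a natural number -/
def evN (x : ℕ → ℕ) : Ex → ℕ
  | v i => x i
  | c z => (z % 19).toNat
  | add e f => (evN x e + evN x f) % 19
  | sub e f => (evN x e + 18 * evN x f) % 19
  | mul e f => (evN x e * evN x f) % 19

/-- partial derivative mod 19, as a natural number -/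
def dvN (x : ℕ → ℕ) (j : ℕ) : Ex → ℕ
  | v i => if i = j then 1 else 0
  | c _ => 0
  | add e f => (dvN x j e + dvN x j f) % 19
  | sub e f => (dvN x j e + 18 * dvN x j f) % 19
  | mul e f => (evN x e * dvN x j f + evN x f * dvN x j e) % 19

theorem eighteen : (18 : ZMod 19) = -1 := by decide

theorem evN_cast (x : ℕ → ℕ) (e : Ex) :
    ((evN x e : ℕ) : ZMod 19) = ev (fun i => ((x i : ℕ) : ZMod 19)) e := by
  induction e with
  | v i => rfl
  | c z =>
    simp only [evN, ev]
    have h : ((z % 19).toNat : ℤ) = z % 19 := Int.toNat_of_nonneg (Int.emod_nonneg _ (by norm_num))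
    have h2 : (((z % 19).toNat : ℕ) : ZMod 19) = (((z % 19).toNat : ℤ) : ZMod 19) :=
      (Int.cast_natCast _).symm
    rw [h2, h]
    exact_mod_cast ZMod.intCast_mod z 19
  | add e f he hf => simp [evN, ev, he, hf]
  | sub e f he hf => simp [evN, ev, he, hf, eighteen, sub_eq_add_neg]
  | mul e f he hf => simp [evN, ev, he, hf]

theorem dvN_cast (x : ℕ → ℕ) (j : ℕ) (e : Ex) :
    ((dvN x j e : ℕ) : ZMod 19) = dv (fun i => ((x i : ℕ) : ZMod 19)) j e := by
  induction e with
  | v i => simp only [dvN, dv]; split_ifs <;> simp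
  | c z => simp [dvN, dv]
  | add e f he hf => simp [dvN, dv, he, hf]
  | sub e f he hf => simp [dvN, dv, he, hf, eighteen, sub_eq_add_neg]
  | mul e f he hf => simp [dvN, dv, he, hf, evN_cast]

end Ex

variable {n : ℕ}

/-- extension of a vector by zero -/
def ext (x : Fin n → ℝ) : ℕ → ℝ := fun j => if h : j < n then x ⟨j, h⟩ else 0

/-- the gradient as a continuous linear map -/
noncomputable def grad (x : ℕ → ℝ) (e : Ex) : (Fin n → ℝ) →L[ℝ] ℝ :=
  ∑ j : Fin n, (Ex.dv x j e) • ContinuousLinearMap.proj (R := ℝ) (φ := fun _ : Fin n => ℝ) j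

theorem grad_apply (x : ℕ → ℝ) (e : Ex) (w : Fin n → ℝ) :
    grad x e w = ∑ j : Fin n, Ex.dv x j e * w j := by
  simp [grad]

theorem hasStrictFDerivAt_ev (a : Fin n → ℝ) (e : Ex) :
    HasStrictFDerivAt (fun x : Fin n → ℝ => Ex.ev (ext x) e) (grad (ext a) e) a := by
  induction e with
  | v i =>
    by_cases h : i < n
    · have h1 : (fun x : Fin n → ℝ => Ex.ev (ext x) (Ex.v i)) =
          ContinuousLinearMap.proj (R := ℝ) (φ := fun _ : Fin n => ℝ) ⟨i, h⟩ := by
        funext x; simp [Ex.ev, ext, h]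
      have h2 : grad (ext a) (Ex.v i) =
          ContinuousLinearMap.proj (R := ℝ) (φ := fun _ : Fin n => ℝ) ⟨i, h⟩ := by
        ext w
        rw [grad_apply]
        simp only [Ex.dv]
        rw [Finset.sum_eq_single ⟨i, h⟩]
        · simp
        · intro b _ hb
          rw [if_neg, zero_mul]
          intro hib
          exact hb (Fin.ext hib.symm)
        · simp
      rw [h1, h2]
      exact ContinuousLinearMap.hasStrictFDerivAt _
    · have h1 : (fun x : Fin n → ℝ => Ex.ev (ext x) (Ex.v i)) = fun _ => 0 := by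
        funext x; simp [Ex.ev, ext, h]
      have h2 : grad (ext a) (Ex.v i) = (0 : (Fin n → ℝ) →L[ℝ] ℝ) := by
        ext w
        rw [grad_apply]
        simp only [Ex.dv]
        refine Finset.sum_eq_zero fun j _ => ?_
        rw [if_neg, zero_mul]
        intro hij
        exact h (hij ▸ j.2)
      rw [h1, h2]
      exact hasStrictFDerivAt_const _ _
  | c z =>
    have h2 : grad (ext a) (Ex.c z) = (0 : (Fin n → ℝ) →L[ℝ] ℝ) := by
      ext w; rw [grad_apply]; simp [Ex.dv]
    rw [h2]
    exact hasStrictFDerivAt_const _ _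
  | add e f he hf =>
    have h2 : grad (ext a) (Ex.add e f) = grad (ext a) e + (grad (ext a) f : (Fin n → ℝ) →L[ℝ] ℝ) := by
      ext w
      rw [add_apply, grad_apply, grad_apply, grad_apply]
      simp [Ex.dv, add_mul, Finset.sum_add_distrib]
    rw [h2]
    exact he.add hf
  | sub e f he hf =>
    have h2 : grad (ext a) (Ex.sub e f) = grad (ext a) e - (grad (ext a) f : (Fin n → ℝ) →L[ℝ] ℝ) := by
      ext w
      rw [sub_apply, grad_apply, grad_apply, grad_apply]
      simp [Ex.dv, sub_mul, Finset.sum_sub_distrib]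
    rw [h2]
    exact he.sub hf
  | mul e f he hf =>
    have h2 : grad (ext a) (Ex.mul e f) = (Ex.ev (ext a) e) • grad (ext a) f +
        (Ex.ev (ext a) f) • (grad (ext a) e : (Fin n → ℝ) →L[ℝ] ℝ) := by
      ext w
      rw [add_apply, smul_apply,
        smul_apply, grad_apply, grad_apply, grad_apply]
      simp only [Ex.dv, add_mul, Finset.sum_add_distrib, smul_eq_mul, Finset.mul_sum, mul_assoc]
    rw [h2]
    exact he.mul hf

/-- **Curves in zero sets.** `eqs` are `n` polynomials in `n` variables, `a` an integer point, `a19`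
its reduction mod 19 and `B` an inverse mod 19 of the Jacobian. Then there is a curve through `a`
along which the `i`-th polynomial is `(value at a) + t e_i`. -/
theorem curve_of_cert (eqs : Fin n → Ex) (a : ℕ → ℤ) (ha : ∀ j, n ≤ j → a j = 0) (aN : ℕ → ℕ)
    (haN : ∀ j, ((aN j : ℕ) : ZMod 19) = ((a j : ℤ) : ZMod 19)) (B : Fin n → Fin n → ℕ)
    (hB : ∀ i k : Fin n, ((∑ j : Fin n, Ex.dvN aN j (eqs i) * B j k : ℕ) : ZMod 19) =
      if i = k then 1 else 0) (e : Fin n → ℝ) :
    ∃ ε > 0, ∃ c : ℝ → (Fin n → ℝ), (c 0 = fun j : Fin n => ((a (j : ℕ) : ℤ) : ℝ)) ∧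
      ContinuousOn c (Icc 0 ε) ∧
      ∀ t ∈ Icc 0 ε, ∀ i, Ex.ev (ext (c t)) (eqs i) = ((Ex.ev a (eqs i) : ℤ) : ℝ) + t * e i := by
  set aR : Fin n → ℝ := fun j => ((a (j : ℕ) : ℤ) : ℝ) with haR
  have hext : ext aR = fun j => ((a j : ℤ) : ℝ) := by
    funext j
    unfold ext
    split_ifs with h
    · rfl
    · rw [ha j (not_lt.1 h)]; simp
  -- integer Jacobian
  set M : Matrix (Fin n) (Fin n) ℤ := fun i j => Ex.dv a j (eqs i) with hM
  have hdet : M.det ≠ 0 := by
    have h1 : (M.map (Int.castRingHom (ZMod 19))) *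
        (Matrix.of fun j k => ((B j k : ℕ) : ZMod 19)) = 1 := by
      ext i k
      rw [Matrix.mul_apply, Matrix.one_apply, ← hB i k]
      push_cast
      refine Finset.sum_congr rfl fun j _ => ?_
      rw [Matrix.map_apply, Matrix.of_apply, hM, Ex.dvN_cast]
      congr 1
      rw [Ex.dv_map]
      congr 1
      funext i
      rw [haN]; rfl
    have h2 : (M.map (Int.castRingHom (ZMod 19))).det ≠ 0 := by
      intro h0
      have := congrArg Matrix.det h1
      rw [Matrix.det_mul, h0, zero_mul, Matrix.det_one] at this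
      exact absurd this (by decide)
    intro h0
    apply h2
    have := RingHom.map_det (Int.castRingHom (ZMod 19)) M
    rw [h0, map_zero] at this
    exact this.symm
  set MR : Matrix (Fin n) (Fin n) ℝ := M.map (Int.castRingHom ℝ) with hMR
  have hdetR : IsUnit MR.det := by
    have := RingHom.map_det (Int.castRingHom ℝ) M
    rw [isUnit_iff_ne_zero]
    intro h0
    apply hdet
    have h3 : ((M.det : ℤ) : ℝ) = 0 := by
      show (Int.castRingHom ℝ) M.det = 0
      rw [this]; exact h0
    exact Int.cast_eq_zero.1 h3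
  have hder : HasStrictFDerivAt (fun x : Fin n → ℝ => fun i => Ex.ev (ext x) (eqs i))
      (ContinuousLinearMap.pi fun i => grad (ext aR) (eqs i)) aR :=
    hasStrictFDerivAt_pi.2 fun i => hasStrictFDerivAt_ev aR (eqs i)
  have hlin : ∀ w, (ContinuousLinearMap.pi fun i => grad (ext aR) (eqs i) :
      (Fin n → ℝ) →L[ℝ] (Fin n → ℝ)) w = MR.mulVec w := by
    intro w
    funext i
    rw [ContinuousLinearMap.pi_apply, grad_apply, Matrix.mulVec, dotProduct]
    refine Finset.sum_congr rfl fun j _ => ?_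
    rw [hMR, Matrix.map_apply, hM, Ex.dv_map, hext]
    rfl
  obtain ⟨Φ', hΦ'⟩ : ∃ Φ' : (Fin n → ℝ) ≃L[ℝ] (Fin n → ℝ), (Φ' : (Fin n → ℝ) →L[ℝ] (Fin n → ℝ)) =
      ContinuousLinearMap.pi fun i => grad (ext aR) (eqs i) := by
    have hU : IsUnit MR := (Matrix.isUnit_iff_isUnit_det _).2 hdetR
    let L : (Fin n → ℝ) ≃ₗ[ℝ] (Fin n → ℝ) := Matrix.toLin'OfInv
      (Matrix.nonsing_inv_mul MR hdetR) (Matrix.mul_nonsing_inv MR hdetR)
    refine ⟨L.toContinuousLinearEquiv, ?_⟩
    ext1 w
    rw [hlin]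
    exact Matrix.toLin'_apply MR w
  rw [← hΦ'] at hder
  obtain ⟨ε, hε, c, hc0, hcc, hct⟩ := local_curve hder e
  refine ⟨ε, hε, c, hc0, hcc, fun t ht i => ?_⟩
  have := congrFun (hct t ht) i
  rw [this]
  show Ex.ev (ext aR) (eqs i) + t * e i = _
  rw [hext]
  congr 1
  have := Ex.ev_map (Int.castRingHom ℝ) a (eqs i)
  exact this.symm

end Pool.Agent.helper43.TF.IFT
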