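import Pool.Agent.helper43.TF.IF1

/-! The chain of Bricard octahedra as a polynomial system: the equations imply that all bars keep
their lengths. -/

namespace Pool.Agent.helper43.TF.IFT

/-- squared distance of two points -/
def S (u v : ℕ → ℝ) : ℝ := (u 0 - v 0) ^ 2 + (u 1 - v 1) ^ 2 + (u 2 - v 2) ^ 2

theorem S_comm (u v : ℕ → ℝ) : S u v = S v u := by unfold S; ring

theorem S_self (u : ℕ → ℝ) : S u u = 0 := by unfold S; ring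

/-- plane-symmetric octahedron: the reflection swaps `xa, yb` and `xb, yc`, fixes `xc, ya` -/
theorem plane_sem {xa xb xc ya yb yc d : ℕ → ℝ} {m1 m2 : ℝ}
    (e0 : yb 0 - xa 0 + m1 * d 0 = 0) (e1 : yb 1 - xa 1 + m1 * d 1 = 0)
    (e2 : yb 2 - xa 2 + m1 * d 2 = 0)
    (f0 : yc 0 - xb 0 + m2 * d 0 = 0) (f1 : yc 1 - xb 1 + m2 * d 1 = 0)
    (f2 : yc 2 - xb 2 + m2 * d 2 = 0)
    (e7 : d 0 * (xa 0 + yb 0 - (xc 0 + xc 0)) + d 1 * (xa 1 + yb 1 - (xc 1 + xc 1)) +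
      d 2 * (xa 2 + yb 2 - (xc 2 + xc 2)) = 0)
    (e8 : d 0 * (xb 0 + yc 0 - (xc 0 + xc 0)) + d 1 * (xb 1 + yc 1 - (xc 1 + xc 1)) +
      d 2 * (xb 2 + yc 2 - (xc 2 + xc 2)) = 0)
    (e9 : d 0 * (ya 0 - xc 0) + d 1 * (ya 1 - xc 1) + d 2 * (ya 2 - xc 2) = 0) :
    S xc yb = S xc xa ∧ S xc yc = S xc xb ∧ S xb yb = S xa yc ∧ S yb yc = S xa xb ∧
      S ya yb = S xa ya ∧ S ya yc = S xb ya := by
  unfold S
  refine ⟨?_, ?_, ?_, ?_, ?_, ?_⟩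
  · linear_combination (yb 0 + xa 0 - 2 * xc 0) * e0 + (yb 1 + xa 1 - 2 * xc 1) * e1 +
      (yb 2 + xa 2 - 2 * xc 2) * e2 - m1 * e7
  · linear_combination (yc 0 + xb 0 - 2 * xc 0) * f0 + (yc 1 + xb 1 - 2 * xc 1) * f1 +
      (yc 2 + xb 2 - 2 * xc 2) * f2 - m2 * e8
  · linear_combination (m1 + m2) * (e8 - e7) - (xb 0 + yc 0 - xa 0 - yb 0) * (e0 + f0) -
      (xb 1 + yc 1 - xa 1 - yb 1) * (e1 + f1) - (xb 2 + yc 2 - xa 2 - yb 2) * (e2 + f2)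
  · linear_combination -(m1 - m2) * (e7 - e8) + (xa 0 + yb 0 - xb 0 - yc 0) * (e0 - f0) +
      (xa 1 + yb 1 - xb 1 - yc 1) * (e1 - f1) + (xa 2 + yb 2 - xb 2 - yc 2) * (e2 - f2)
  · linear_combination (yb 0 + xa 0 - 2 * ya 0) * e0 + (yb 1 + xa 1 - 2 * ya 1) * e1 +
      (yb 2 + xa 2 - 2 * ya 2) * e2 - m1 * (e7 - 2 * e9)
  · linear_combination (yc 0 + xb 0 - 2 * ya 0) * f0 + (yc 1 + xb 1 - 2 * ya 1) * f1 +
      (yc 2 + xb 2 - 2 * ya 2) * f2 - m2 * (e8 - 2 * e9)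

/-- line-symmetric octahedron: the half turn swaps `x0, y1`, `x1, y2` and `x2, y0` -/
theorem line_sem {x0 x1 x2 y0 y1 y2 d : ℕ → ℝ} {n1 n2 : ℝ}
    (f0 : x1 0 + y2 0 - (x0 0 + y1 0) - n1 * d 0 = 0)
    (f1 : x1 1 + y2 1 - (x0 1 + y1 1) - n1 * d 1 = 0)
    (f2 : x1 2 + y2 2 - (x0 2 + y1 2) - n1 * d 2 = 0)
    (g0 : x2 0 + y0 0 - (x0 0 + y1 0) - n2 * d 0 = 0)
    (g1 : x2 1 + y0 1 - (x0 1 + y1 1) - n2 * d 1 = 0)
    (g2 : x2 2 + y0 2 - (x0 2 + y1 2) - n2 * d 2 = 0)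
    (h0 : d 0 * (x0 0 - y1 0) + d 1 * (x0 1 - y1 1) + d 2 * (x0 2 - y1 2) = 0)
    (h1 : d 0 * (x1 0 - y2 0) + d 1 * (x1 1 - y2 1) + d 2 * (x1 2 - y2 2) = 0)
    (h2 : d 0 * (x2 0 - y0 0) + d 1 * (x2 1 - y0 1) + d 2 * (x2 2 - y0 2) = 0) :
    S x1 y1 = S x0 y2 ∧ S x2 y1 = S x0 y0 ∧ S x2 y2 = S x1 y0 ∧ S y1 y2 = S x0 x1 ∧
      S y1 y0 = S x0 x2 ∧ S y2 y0 = S x1 x2 := by
  unfold S
  refine ⟨?_, ?_, ?_, ?_, ?_, ?_⟩
  · linear_combination (x1 0 - y1 0 + x0 0 - y2 0) * f0 + (x1 1 - y1 1 + x0 1 - y2 1) * f1 +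
      (x1 2 - y1 2 + x0 2 - y2 2) * f2 + n1 * (h0 + h1)
  · linear_combination (x2 0 - y1 0 + x0 0 - y0 0) * g0 + (x2 1 - y1 1 + x0 1 - y0 1) * g1 +
      (x2 2 - y1 2 + x0 2 - y0 2) * g2 + n2 * (h0 + h2)
  · linear_combination (x2 0 - y2 0 + x1 0 - y0 0) * (g0 - f0) +
      (x2 1 - y2 1 + x1 1 - y0 1) * (g1 - f1) +
      (x2 2 - y2 2 + x1 2 - y0 2) * (g2 - f2) + (n2 - n1) * (h1 + h2)
  · linear_combination (x0 0 - y1 0 - x1 0 + y2 0) * f0 + (x0 1 - y1 1 - x1 1 + y2 1) * f1 +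
      (x0 2 - y1 2 - x1 2 + y2 2) * f2 + n1 * (h0 - h1)
  · linear_combination (x0 0 - y1 0 - x2 0 + y0 0) * g0 + (x0 1 - y1 1 - x2 1 + y0 1) * g1 +
      (x0 2 - y1 2 - x2 2 + y0 2) * g2 + n2 * (h0 - h2)
  · linear_combination (x1 0 - y2 0 - x2 0 + y0 0) * (g0 - f0) +
      (x1 1 - y2 1 - x2 1 + y0 1) * (g1 - f1) +
      (x1 2 - y2 2 - x2 2 + y0 2) * (g2 - f2) + (n2 - n1) * (h1 - h2)

open Ex

/-- expression for coordinate `c` of vertex `i` of the triangle `t_k` -/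
def pos (P : ℕ → ℕ → ℤ) (k i c : ℕ) : Ex :=
  if k = 0 ∨ k = 7 then Ex.c (P (3 * k + i) c) else Ex.v (9 * (k - 1) + 3 * i + c)

/-- direction of the axis or normal of the plane of the `k`-th octahedron -/
def dir (D : ℕ → ℤ) (k c : ℕ) : Ex := if c = 2 then Ex.c (D k) else Ex.v (54 + 4 * k + c)

def dot3 (u v : ℕ → Ex) : Ex :=
  add (add (mul (u 0) (v 0)) (mul (u 1) (v 1))) (mul (u 2) (v 2))

def sq3 (u v : ℕ → Ex) : Ex := dot3 (fun c => sub (u c) (v c)) (fun c => sub (u c) (v c))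

/-- the nine incidence equations of a plane-symmetric octahedron -/
def planeE (P : ℕ → ℕ → ℤ) (D : ℕ → ℤ) (k a b c : ℕ) : List Ex :=
  [add (sub (pos P (k + 1) b 0) (pos P k a 0)) (mul (v (56 + 4 * k)) (dir D k 0)),
   add (sub (pos P (k + 1) b 1) (pos P k a 1)) (mul (v (56 + 4 * k)) (dir D k 1)),
   add (sub (pos P (k + 1) b 2) (pos P k a 2)) (mul (v (56 + 4 * k)) (dir D k 2)),
   add (sub (pos P (k + 1) c 0) (pos P k b 0)) (mul (v (57 + 4 * k)) (dir D k 0)),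
   add (sub (pos P (k + 1) c 1) (pos P k b 1)) (mul (v (57 + 4 * k)) (dir D k 1)),
   add (sub (pos P (k + 1) c 2) (pos P k b 2)) (mul (v (57 + 4 * k)) (dir D k 2)),
   dot3 (dir D k) (fun i => sub (add (pos P k a i) (pos P (k + 1) b i))
     (add (pos P k c i) (pos P k c i))),
   dot3 (dir D k) (fun i => sub (add (pos P k b i) (pos P (k + 1) c i))
     (add (pos P k c i) (pos P k c i))),
   dot3 (dir D k) (fun i => sub (pos P (k + 1) a i) (pos P k c i))]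

/-- the nine incidence equations of a line-symmetric octahedron -/
def lineE (P : ℕ → ℕ → ℤ) (D : ℕ → ℤ) (k : ℕ) : List Ex :=
  [sub (sub (add (pos P k 1 0) (pos P (k + 1) 2 0)) (add (pos P k 0 0) (pos P (k + 1) 1 0)))
     (mul (v (56 + 4 * k)) (dir D k 0)),
   sub (sub (add (pos P k 1 1) (pos P (k + 1) 2 1)) (add (pos P k 0 1) (pos P (k + 1) 1 1)))
     (mul (v (56 + 4 * k)) (dir D k 1)),
   sub (sub (add (pos P k 1 2) (pos P (k + 1) 2 2)) (add (pos P k 0 2) (pos P (k + 1) 1 2)))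
     (mul (v (56 + 4 * k)) (dir D k 2)),
   sub (sub (add (pos P k 2 0) (pos P (k + 1) 0 0)) (add (pos P k 0 0) (pos P (k + 1) 1 0)))
     (mul (v (57 + 4 * k)) (dir D k 0)),
   sub (sub (add (pos P k 2 1) (pos P (k + 1) 0 1)) (add (pos P k 0 1) (pos P (k + 1) 1 1)))
     (mul (v (57 + 4 * k)) (dir D k 1)),
   sub (sub (add (pos P k 2 2) (pos P (k + 1) 0 2)) (add (pos P k 0 2) (pos P (k + 1) 1 2)))
     (mul (v (57 + 4 * k)) (dir D k 2)),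
   dot3 (dir D k) (fun i => sub (pos P k 0 i) (pos P (k + 1) 1 i)),
   dot3 (dir D k) (fun i => sub (pos P k 1 i) (pos P (k + 1) 2 i)),
   dot3 (dir D k) (fun i => sub (pos P k 2 i) (pos P (k + 1) 0 i))]

/-- the incidence equations of the whole chain (they vanish) -/
def incE (P : ℕ → ℕ → ℤ) (D : ℕ → ℤ) : List Ex :=
  planeE P D 0 2 0 1 ++ (planeE P D 1 1 2 0 ++ (planeE P D 2 1 2 0 ++ (lineE P D 3 ++
    (planeE P D 4 0 1 2 ++ (planeE P D 5 2 0 1 ++ planeE P D 6 2 0 1)))))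

/-- squared length of the bar between vertex `i` of `t_k` and vertex `j` of `t_l` -/
def bar (P : ℕ → ℕ → ℤ) (k i l j : ℕ) : Ex := sq3 (pos P k i) (pos P l j)

/-- the bars whose lengths are prescribed -/
def lenE (P : ℕ → ℕ → ℤ) : List Ex :=
  [bar P 0 2 1 1, bar P 0 2 1 2, bar P 0 0 1 2,
   bar P 1 1 2 0, bar P 1 1 2 1, bar P 1 2 2 1,
   bar P 2 1 3 0, bar P 2 1 3 1, bar P 2 2 3 1,
   bar P 3 0 4 2, bar P 3 0 4 0, bar P 3 1 4 0,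
   bar P 4 0 5 2, bar P 4 0 5 0, bar P 4 1 5 0,
   bar P 5 2 6 1, bar P 5 0 6 2,
   bar P 6 2 7 1]

/-- value of the squared length of the bar -/
noncomputable def bl (P : ℕ → ℕ → ℤ) (x : ℕ → ℝ) (k i l j : ℕ) : ℝ := ev x (bar P k i l j)

theorem bl_eq (P : ℕ → ℕ → ℤ) (x : ℕ → ℝ) (k i l j : ℕ) :
    bl P x k i l j = S (fun c => ev x (pos P k i c)) (fun c => ev x (pos P l j c)) := by
  simp only [bl, bar, sq3, dot3, ev, S]
  ring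

theorem bl_comm (P : ℕ → ℕ → ℤ) (x : ℕ → ℝ) (k i l j : ℕ) : bl P x k i l j = bl P x l j k i := by
  rw [bl_eq, bl_eq, S_comm]

theorem bl_self (P : ℕ → ℕ → ℤ) (x : ℕ → ℝ) (k i : ℕ) : bl P x k i k i = 0 := by
  rw [bl_eq, S_self]

theorem planeE_sem {P : ℕ → ℕ → ℤ} {D : ℕ → ℤ} {x : ℕ → ℝ} {k a b c : ℕ}
    (h : ∀ e ∈ planeE P D k a b c, ev x e = 0) :
    bl P x k c (k + 1) b = bl P x k c k a ∧ bl P x k c (k + 1) c = bl P x k c k b ∧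
    bl P x k b (k + 1) b = bl P x k a (k + 1) c ∧
    bl P x (k + 1) b (k + 1) c = bl P x k a k b ∧
    bl P x (k + 1) a (k + 1) b = bl P x k a (k + 1) a ∧
    bl P x (k + 1) a (k + 1) c = bl P x k b (k + 1) a := by
  simp only [planeE, List.forall_mem_cons, List.not_mem_nil, false_imp_iff, implies_true, and_true,
    dot3, ev] at h
  obtain ⟨e0, e1, e2, f0, f1, f2, e7, e8, e9⟩ := h
  simp only [bl_eq]
  exact plane_sem (d := fun c => ev x (dir D k c)) e0 e1 e2 f0 f1 f2 e7 e8 e9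

theorem lineE_sem {P : ℕ → ℕ → ℤ} {D : ℕ → ℤ} {x : ℕ → ℝ} {k : ℕ}
    (h : ∀ e ∈ lineE P D k, ev x e = 0) :
    bl P x k 1 (k + 1) 1 = bl P x k 0 (k + 1) 2 ∧ bl P x k 2 (k + 1) 1 = bl P x k 0 (k + 1) 0 ∧
    bl P x k 2 (k + 1) 2 = bl P x k 1 (k + 1) 0 ∧
    bl P x (k + 1) 1 (k + 1) 2 = bl P x k 0 k 1 ∧
    bl P x (k + 1) 1 (k + 1) 0 = bl P x k 0 k 2 ∧
    bl P x (k + 1) 2 (k + 1) 0 = bl P x k 1 k 2 := by
  simp only [lineE, List.forall_mem_cons, List.not_mem_nil, false_imp_iff, implies_true, and_true,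
    dot3, ev] at h
  obtain ⟨e0, e1, e2, f0, f1, f2, e7, e8, e9⟩ := h
  simp only [bl_eq]
  exact line_sem (d := fun c => ev x (dir D k c)) e0 e1 e2 f0 f1 f2 e7 e8 e9

end Pool.Agent.helper43.TF.IFT
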