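import Pool.Agent.helper43.TF.IF2

/-! All bars of the chain keep their lengths. -/

namespace Pool.Agent.helper43.TF.IFT

open Ex

variable (P : ℕ → ℕ → ℤ) (x y : ℕ → ℝ)

/-- the bar has the same length in the two configurations -/
def Q (k i l j : ℕ) : Prop := bl P x k i l j = bl P y k i l j

variable {P x y}

theorem Q.symm {k i l j : ℕ} (h : Q P x y k i l j) : Q P x y l j k i := by
  unfold Q at *
  rw [bl_comm P x, bl_comm P y, h]

theorem Q_self (k i : ℕ) : Q P x y k i k i := by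
  unfold Q; rw [bl_self, bl_self]

theorem Q_const {k : ℕ} (hk : k = 0 ∨ k = 7) (i j : ℕ) : Q P x y k i k j := by
  unfold Q
  rw [bl_eq, bl_eq]
  simp [pos, hk, ev]

theorem plane_Q {D : ℕ → ℤ} {k a b c : ℕ} (hx : ∀ e ∈ planeE P D k a b c, ev x e = 0)
    (hy : ∀ e ∈ planeE P D k a b c, ev y e = 0)
    (t1 : Q P x y k c k a) (t2 : Q P x y k c k b) (t3 : Q P x y k a k b)
    (l1 : Q P x y k a (k + 1) c) (l2 : Q P x y k a (k + 1) a) (l3 : Q P x y k b (k + 1) a) :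
    Q P x y k c (k + 1) b ∧ Q P x y k c (k + 1) c ∧ Q P x y k b (k + 1) b ∧
      Q P x y (k + 1) b (k + 1) c ∧ Q P x y (k + 1) a (k + 1) b ∧ Q P x y (k + 1) a (k + 1) c := by
  obtain ⟨x1, x2, x3, x4, x5, x6⟩ := planeE_sem hx
  obtain ⟨y1, y2, y3, y4, y5, y6⟩ := planeE_sem hy
  unfold Q at *
  exact ⟨by rw [x1, y1, t1], by rw [x2, y2, t2], by rw [x3, y3, l1], by rw [x4, y4, t3],
    by rw [x5, y5, l2], by rw [x6, y6, l3]⟩

theorem line_Q {D : ℕ → ℤ} {k : ℕ} (hx : ∀ e ∈ lineE P D k, ev x e = 0)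
    (hy : ∀ e ∈ lineE P D k, ev y e = 0)
    (t1 : Q P x y k 0 k 1) (t2 : Q P x y k 0 k 2) (t3 : Q P x y k 1 k 2)
    (l1 : Q P x y k 0 (k + 1) 2) (l2 : Q P x y k 0 (k + 1) 0) (l3 : Q P x y k 1 (k + 1) 0) :
    Q P x y k 1 (k + 1) 1 ∧ Q P x y k 2 (k + 1) 1 ∧ Q P x y k 2 (k + 1) 2 ∧
      Q P x y (k + 1) 1 (k + 1) 2 ∧ Q P x y (k + 1) 1 (k + 1) 0 ∧ Q P x y (k + 1) 2 (k + 1) 0 := by
  obtain ⟨x1, x2, x3, x4, x5, x6⟩ := lineE_sem hx
  obtain ⟨y1, y2, y3, y4, y5, y6⟩ := lineE_sem hy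
  unfold Q at *
  exact ⟨by rw [x1, y1, l1], by rw [x2, y2, l2], by rw [x3, y3, l3], by rw [x4, y4, t1],
    by rw [x5, y5, t2], by rw [x6, y6, t3]⟩

/-- the edges of the triangle `t_k` and the bars between `t_k` and `t_{k+1}` -/
theorem bars_const {D : ℕ → ℤ} (hx : ∀ e ∈ incE P D, ev x e = 0) (hy : ∀ e ∈ incE P D, ev y e = 0)
    (hl : ∀ e ∈ lenE P, ev x e = ev y e) :
    (∀ k < 8, ∀ i < 3, ∀ j < 3, Q P x y k i k j) ∧
      ∀ k < 7, ∀ i < 3, ∀ j < 3, j ≠ (i + 1) % 3 → Q P x y k i (k + 1) j := by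
  simp only [incE, List.forall_mem_append] at hx hy
  obtain ⟨hx0, hx1, hx2, hx3, hx4, hx5, hx6⟩ := hx
  obtain ⟨hy0, hy1, hy2, hy3, hy4, hy5, hy6⟩ := hy
  simp only [lenE, List.forall_mem_cons, List.not_mem_nil, false_imp_iff, implies_true,
    and_true] at hl
  obtain ⟨l01, l02, l03, l11, l12, l13, l21, l22, l23, l31, l32, l33, l41, l42, l43, l51, l53,
    l61⟩ := hl
  -- `t_0`
  have T0 : ∀ i j, Q P x y 0 i 0 j := Q_const (Or.inl rfl)
  have T7 : ∀ i j, Q P x y 7 i 7 j := Q_const (Or.inr rfl)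
  obtain ⟨a1, a2, a3, a4, a5, a6⟩ := plane_Q hx0 hy0 (T0 1 2) (T0 1 0) (T0 2 0) l01 l02 l03
  obtain ⟨b1, b2, b3, b4, b5, b6⟩ := plane_Q hx1 hy1 a4 a5.symm a6.symm l11 l12 l13
  obtain ⟨c1, c2, c3, c4, c5, c6⟩ := plane_Q hx2 hy2 b6.symm b4.symm b5 l21 l22 l23
  obtain ⟨d1, d2, d3, d4, d5, d6⟩ := line_Q hx3 hy3 c6.symm c4.symm c5 l31 l32 l33
  obtain ⟨e1, e2, e3, e4, e5, e6⟩ := plane_Q hx4 hy4 d6 d4.symm d5.symm l41 l42 l43
  -- last two octahedra
  obtain ⟨x1, x2, x3, x4, x5, x6⟩ := planeE_sem hx5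
  obtain ⟨y1, y2, y3, y4, y5, y6⟩ := planeE_sem hy5
  obtain ⟨u1, u2, u3, u4, u5, u6⟩ := planeE_sem hx6
  obtain ⟨w1, w2, w3, w4, w5, w6⟩ := planeE_sem hy6
  have t620 : Q P x y 6 2 6 0 := by
    have := T7 0 1; unfold Q at *; rw [← u4, ← w4, this]
  have g1 : Q P x y 6 2 7 2 := by
    have := T7 2 0; unfold Q at *; rw [← u5, ← w5, this]
  have g2 : Q P x y 6 0 7 2 := by
    have := T7 2 1; unfold Q at *; rw [← u6, ← w6, this]
  have g3 : Q P x y 6 0 7 0 := by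
    unfold Q; rw [u3, w3]; exact l61
  have f1 : Q P x y 5 1 6 0 := by
    have := e4; unfold Q at *; rw [x1, y1, this]
  have f2 : Q P x y 5 1 6 1 := by
    have := e5.symm; unfold Q at *; rw [x2, y2, this]
  have f3 : Q P x y 5 0 6 0 := by
    unfold Q; rw [x3, y3]; exact l51
  have f4 : Q P x y 6 0 6 1 := by
    have := e6.symm; unfold Q at *; rw [x4, y4, this]
  have f5 : Q P x y 5 2 6 2 := by
    have := t620; unfold Q at *; rw [← x5, ← y5, this]
  have f6 : Q P x y 6 2 6 1 := by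
    unfold Q; rw [x6, y6]; exact l53
  have g4 : Q P x y 6 1 7 0 := by
    have := f6.symm; unfold Q at *; rw [u1, w1, this]
  have g5 : Q P x y 6 1 7 1 := by
    have := f4.symm; unfold Q at *; rw [u2, w2, this]
  constructor
  · intro k hk i hi j hj
    by_cases hij : i = j
    · subst hij; exact Q_self k i
    interval_cases k <;> interval_cases i <;> interval_cases j <;>
      first
      | exact absurd rfl hij
      | exact T0 _ _
      | exact T7 _ _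
      | assumption
      | (apply Q.symm; assumption)
  · intro k hk i hi j hj hne
    interval_cases k <;> interval_cases i <;> interval_cases j <;>
      first
      | exact absurd rfl hne
      | assumption

end Pool.Agent.helper43.TF.IFT
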