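import Pool.Agent.helper43.TF.IF4

/-! The flex: a curve of positions along which all edges of the triangles keep their lengths. -/

open Set Topology Filter

namespace Pool.Agent.helper43.TF.IFT

open Ex Pool.Agent.helper45.TF Pool.Agent.helper92.TF

theorem coef_sum {n : ℕ} (f : ℕ → ℕ) (l : List (ℕ × ℕ)) (h : ∀ q ∈ l, q.1 < n) :
    ∑ j : Fin n, coef l j * f j = (l.map fun q => q.2 * f q.1).sum := by
  induction l with
  | nil => simp [coef]
  | cons p l ih =>
    have h1 : ∀ j : ℕ, coef (p :: l) j = (if p.1 = j then p.2 else 0) + coef l j := by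
      intro j; simp [coef]
    have h2 := ih fun q hq => h q (List.mem_cons_of_mem _ hq)
    have hp : p.1 < n := h p List.mem_cons_self
    rw [List.map_cons, List.sum_cons, ← h2]
    simp only [h1, add_mul, Finset.sum_add_distrib]
    congr 1
    rw [Finset.sum_eq_single ⟨p.1, hp⟩]
    · simp
    · intro b _ hb
      rw [if_neg, zero_mul]
      intro hpb
      exact hb (Fin.ext hpb.symm)
    · simp

theorem aN_eq (j : ℕ) : ((aN j : ℕ) : ZMod 19) = ((aZ j : ℤ) : ZMod 19) := by
  by_cases hj : j < 82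
  · have h := List.all_eq_true.1 aN_check j (List.mem_range.2 hj)
    have h1 : aN j = (aZ j % 19).toNat := by simpa using h
    rw [h1]
    have h : ((aZ j % 19).toNat : ℤ) = aZ j % 19 :=
      Int.toNat_of_nonneg (Int.emod_nonneg _ (by norm_num))
    have h2 : (((aZ j % 19).toNat : ℕ) : ZMod 19) = (((aZ j % 19).toNat : ℤ) : ZMod 19) :=
      (Int.cast_natCast _).symm
    rw [h2, h]
    exact_mod_cast ZMod.intCast_mod (aZ j) 19
  · have h1 : aZ j = 0 := by
      unfold aZ
      rw [if_neg (by omega)]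
      apply List.getD_eq_default
      have : parL.length = 28 := rfl
      omega
    have h2 : aN j = 0 := by
      unfold aN
      rw [Nat.shiftRight_eq_div_pow]
      have h3 : AN < 2 ^ 410 := by decide +kernel
      have h4 : (2 : ℕ) ^ 410 ≤ 2 ^ (5 * j) := Nat.pow_le_pow_right (by norm_num) (by omega)
      rw [Nat.div_eq_of_lt (lt_of_lt_of_le h3 h4)]
    rw [h1, h2]; simp

def eqs (i : Fin 82) : Ex := sysL[i.1]'(by rw [length_sysL]; exact i.2)

theorem cert (i k : Fin 82) : ((∑ j : Fin 82, Ex.dvN aN j (eqs i) * bN j k : ℕ) : ZMod 19) =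
    if i = k then 1 else 0 := by
  have hi : i.1 < SA.length := by rw [length_SA]; exact i.2
  have hi' : i.1 < sysL.length := by rw [length_sysL]; exact i.2
  have hz : (sysL[i.1]'hi', SA[i.1]'hi) ∈ List.zip sysL SA := by
    have hzl : i.1 < (List.zip sysL SA).length := by
      rw [List.length_zip, length_sysL, length_SA]; exact i.2
    have := List.getElem_mem hzl
    rwa [List.getElem_zip] at this
  have h1 : ∀ j : Fin 82, Ex.dvN aN j (eqs i) = coef (SA[i.1]'hi) j := by
    intro j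
    have h := List.all_eq_true.1 check1 _ hz
    have h' := List.all_eq_true.1 h j.1 (List.mem_range.2 j.2)
    simpa [eqs] using h'
  have hz2 : (i.1, SA[i.1]'hi) ∈ List.zip (List.range 82) SA := by
    have hzl : i.1 < (List.zip (List.range 82) SA).length := by
      rw [List.length_zip, List.length_range, length_SA]; exact i.2
    have := List.getElem_mem hzl
    rwa [List.getElem_zip, List.getElem_range] at this
  have h2 : ((SA[i.1]'hi).map fun q => q.2 * bN q.1 k).sum % 19 = if i.1 = k.1 then 1 else 0 := by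
    have h := List.all_eq_true.1 check2 _ hz2
    have h' := List.all_eq_true.1 h k.1 (List.mem_range.2 k.2)
    simpa using h'
  have h3 : ∀ q ∈ (SA[i.1]'hi), q.1 < 82 := by
    intro q hq
    have h := List.all_eq_true.1 check3 _ (List.getElem_mem hi)
    have h' := List.all_eq_true.1 h q hq
    simpa using h'
  rw [Finset.sum_congr rfl fun j _ => by rw [h1 j], coef_sum (fun j => bN j k) _ h3,
    ← ZMod.natCast_mod, h2]
  by_cases h : i = k
  · simp [h]
  · rw [if_neg h, if_neg (fun h' => h (Fin.ext h'))]; simp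

theorem exists_curve : ∃ ε > 0, ∃ c : ℝ → (Fin 82 → ℝ),
    (c 0 = fun j : Fin 82 => ((aZ (j : ℕ) : ℤ) : ℝ)) ∧ ContinuousOn c (Icc 0 ε) ∧
      ∀ t ∈ Icc 0 ε, (∀ e ∈ incE PN DN, ev (ext (c t)) e = 0) ∧
        (∀ e ∈ lenE PN, ev (ext (c t)) e = ev (ext (c 0)) e) ∧
        c t 0 = c 0 0 + t := by
  obtain ⟨ε, hε, c, hc0, hcc, hct⟩ := curve_of_cert eqs aZ (fun j hj => by
      unfold aZ
      rw [if_neg (by omega)]
      apply List.getD_eq_default
      have : parL.length = 28 := rfl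
      omega) aN aN_eq (fun j k => bN j k) cert (Pi.single 81 1)
  have hlen1 : (incE PN DN).length = 63 := by decide +kernel
  have hlen2 : (lenE PN).length = 18 := by decide +kernel
  have hinc : ∀ e ∈ incE PN DN, ∃ i : Fin 82, i ≠ 81 ∧ eqs i = e := by
    intro e he
    obtain ⟨i, hi, hie⟩ := List.getElem_of_mem he
    rw [hlen1] at hi
    refine ⟨⟨i, by omega⟩, ?_, ?_⟩
    · intro h; rw [Fin.ext_iff] at h; simp at h; omega
    · unfold eqs sysL
      rw [← hie]
      exact List.getElem_append_left _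
  have hlen : ∀ e ∈ lenE PN, ∃ i : Fin 82, i ≠ 81 ∧ eqs i = e := by
    intro e he
    obtain ⟨i, hi, hie⟩ := List.getElem_of_mem he
    rw [hlen2] at hi
    refine ⟨⟨63 + i, by omega⟩, ?_, ?_⟩
    · intro h; rw [Fin.ext_iff] at h; simp at h; omega
    · unfold eqs sysL
      rw [← hie]
      simp only
      rw [List.getElem_append_right (by rw [hlen1]; omega)]
      simp only [hlen1, Nat.add_sub_cancel_left]
      exact List.getElem_append_left _
  have hlast : eqs 81 = Ex.v 0 := by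
    unfold eqs sysL
    have e81 : ((81 : Fin 82) : ℕ) = 81 := rfl
    simp only [e81]
    rw [List.getElem_append_right (by rw [hlen1]; omega),
      List.getElem_append_right (by rw [hlen1, hlen2])]
    simp only [hlen1, hlen2]
    rfl
  have h0 := hct 0 ⟨le_refl _, hε.le⟩
  refine ⟨ε, hε, c, hc0, hcc, fun t ht => ⟨fun e he => ?_, fun e he => ?_, ?_⟩⟩
  · obtain ⟨i, hi, rfl⟩ := hinc e he
    rw [hct t ht i, Pi.single_eq_of_ne hi, mul_zero, add_zero]
    have h := List.all_eq_true.1 incE_zero _ he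
    have h' : ev aZ (eqs i) = 0 := by simpa using h
    rw [h']; simp
  · obtain ⟨i, hi, rfl⟩ := hlen e he
    rw [hct t ht i, h0 i, Pi.single_eq_of_ne hi, mul_zero, mul_zero]
  · have h1 := hct t ht 81
    have h2 := h0 81
    rw [hlast] at h1 h2
    rw [Pi.single_eq_same, zero_mul, add_zero] at h2
    rw [Pi.single_eq_same, mul_one] at h1
    simp only [ev, ext] at h1 h2
    rw [dif_pos (by norm_num)] at h1 h2
    have e0 : (⟨0, by norm_num⟩ : Fin 82) = 0 := rfl
    rw [e0] at h1 h2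
    rw [h1, ← h2]

/-- positions of the vertices -/
noncomputable def posE (x : ℕ → ℝ) (w : Fin 29) : E3 :=
  WithLp.toLp 2 fun c : Fin 3 =>
    if w.1 < 24 then ev x (pos PN (w.1 / 3) (w.1 % 3) c.1) else ((P w c : ℤ) : ℝ)

theorem PN_eq (w : Fin 29) (c : Fin 3) : PN w.1 c.1 = P w c := by
  revert w c; decide +kernel

theorem ext_c0 {c : ℝ → (Fin 82 → ℝ)} (hc : c 0 = fun j : Fin 82 => ((aZ (j : ℕ) : ℤ) : ℝ)) :
    ext (c 0) = fun j => ((aZ j : ℤ) : ℝ) := by
  funext j
  unfold ext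
  rw [hc]
  split_ifs with h
  · rfl
  · have : aZ j = 0 := by
      unfold aZ
      rw [if_neg (by omega)]
      apply List.getD_eq_default
      have : parL.length = 28 := rfl
      omega
    rw [this]; simp

theorem posE_zero : posE (fun j => ((aZ j : ℤ) : ℝ)) = p0 := by
  funext w
  ext c
  show (if w.1 < 24 then ev (fun j => ((aZ j : ℤ) : ℝ)) (pos PN (w.1 / 3) (w.1 % 3) c.1)
    else ((P w c : ℤ) : ℝ)) = ((P w c : ℤ) : ℝ)
  split_ifs with h
  · have h1 : ev aZ (pos PN (w.1 / 3) (w.1 % 3) c.1) = P w c := by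
      have : ∀ w : Fin 29, ∀ c : Fin 3, w.1 < 24 →
          ev aZ (pos PN (w.1 / 3) (w.1 % 3) c.1) = P w c := by decide +kernel
      exact this w c h
    rw [← h1]
    exact (Ex.ev_map (Int.castRingHom ℝ) aZ _).symm
  · rfl

/-- the pairs of vertices whose distance is constant -/
def okPair (v w : Fin 29) : Bool :=
  ((v.1 / 3 == 0 || v.1 / 3 == 7 || decide (24 ≤ v.1)) &&
    (w.1 / 3 == 0 || w.1 / 3 == 7 || decide (24 ≤ w.1))) ||
  (decide (v.1 < 24) && decide (w.1 < 24) &&
    (v.1 / 3 == w.1 / 3 ||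
      (w.1 / 3 == v.1 / 3 + 1 && w.1 % 3 != (v.1 % 3 + 1) % 3) ||
      (v.1 / 3 == w.1 / 3 + 1 && v.1 % 3 != (w.1 % 3 + 1) % 3)))

theorem okPair_check : (faceL.all fun t =>
    (okPair t.1 t.1 && okPair t.1 t.2.1 && okPair t.1 t.2.2) &&
    (okPair t.2.1 t.1 && okPair t.2.1 t.2.1 && okPair t.2.1 t.2.2) &&
    (okPair t.2.2 t.1 && okPair t.2.2 t.2.1 && okPair t.2.2 t.2.2)) = true := by
  decide +kernel

theorem okPair_faces : ∀ t ∈ faceL, ∀ v ∈ triSet t, ∀ w ∈ triSet t, okPair v w = true := by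
  intro t ht v hv w hw
  have h := List.all_eq_true.1 okPair_check t ht
  simp only [Bool.and_eq_true] at h
  simp only [triSet, Finset.mem_insert, Finset.mem_singleton] at hv hw
  obtain ⟨⟨⟨⟨h1, h2⟩, h3⟩, ⟨⟨h4, h5⟩, h6⟩⟩, ⟨⟨h7, h8⟩, h9⟩⟩ := h
  rcases hv with rfl | rfl | rfl <;> rcases hw with rfl | rfl | rfl <;> assumption

theorem dist_sq (x : ℕ → ℝ) {v w : Fin 29} (hv : v.1 < 24) (hw : w.1 < 24) :
    dist (posE x v) (posE x w) ^ 2 = bl PN x (v.1 / 3) (v.1 % 3) (w.1 / 3) (w.1 % 3) := by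
  rw [EuclideanSpace.dist_eq, Real.sq_sqrt (Finset.sum_nonneg fun i _ => sq_nonneg _), bl_eq]
  simp only [posE, hv, hw, if_true, Fin.sum_univ_three, Real.dist_eq, sq_abs, S]
  rfl

theorem posE_fixed (x y : ℕ → ℝ) {v : Fin 29} (h : v.1 / 3 = 0 ∨ v.1 / 3 = 7 ∨ 24 ≤ v.1) :
    posE x v = posE y v := by
  ext c
  show (if v.1 < 24 then ev x (pos PN (v.1 / 3) (v.1 % 3) c.1) else ((P v c : ℤ) : ℝ)) =
    (if v.1 < 24 then ev y (pos PN (v.1 / 3) (v.1 % 3) c.1) else ((P v c : ℤ) : ℝ))
  split_ifs with h'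
  · have h2 : v.1 / 3 = 0 ∨ v.1 / 3 = 7 := by
      rcases h with h | h | h
      · exact Or.inl h
      · exact Or.inr h
      · omega
    simp only [pos, if_pos h2, ev]
  · rfl

/-- equality of distances -/
theorem dist_eq {x y : ℕ → ℝ} (hx : ∀ e ∈ incE PN DN, ev x e = 0)
    (hy : ∀ e ∈ incE PN DN, ev y e = 0) (hl : ∀ e ∈ lenE PN, ev x e = ev y e) {v w : Fin 29}
    (hvw : okPair v w = true) : dist (posE x v) (posE x w) = dist (posE y v) (posE y w) := by
  obtain ⟨h1, h2⟩ := bars_const hx hy hl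
  simp only [okPair, Bool.or_eq_true, Bool.and_eq_true, beq_iff_eq, decide_eq_true_eq, bne_iff_ne,
    ne_eq] at hvw
  rcases hvw with ⟨hv, hw⟩ | ⟨⟨hv, hw⟩, hc⟩
  · rw [posE_fixed x y (by tauto), posE_fixed x y (v := w) (by tauto)]
  · have hkey : bl PN x (v.1 / 3) (v.1 % 3) (w.1 / 3) (w.1 % 3) =
        bl PN y (v.1 / 3) (v.1 % 3) (w.1 / 3) (w.1 % 3) := by
      have m1 := Nat.mod_lt v.1 (show 3 > 0 by norm_num)
      have m2 := Nat.mod_lt w.1 (show 3 > 0 by norm_num)
      rcases hc with (hc | ⟨hc, hc'⟩) | ⟨hc, hc'⟩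
      · rw [← hc]
        exact h1 _ (by omega) _ m1 _ m2
      · rw [hc]
        exact h2 _ (by omega) _ m1 _ m2 hc'
      · rw [hc, bl_comm PN x, bl_comm PN y]
        exact h2 _ (by omega) _ m2 _ m1 hc'
    rw [← dist_sq x hv hw, ← dist_sq y hv hw] at hkey
    exact (pow_left_inj₀ dist_nonneg dist_nonneg (by norm_num)).1 hkey

/-- **The flex.** -/
theorem exists_flex : ∃ ε > 0, ∃ q : ℝ → Fin 29 → E3, q 0 = p0 ∧ ContinuousOn q (Icc 0 ε) ∧
    ∀ t ∈ Icc 0 ε, (∀ s ∈ faceL, ∀ v ∈ triSet s, ∀ w ∈ triSet s,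
        dist (q t v) (q t w) = dist (p0 v) (p0 w)) ∧
      (∀ v : Fin 29, v.1 < 3 ∨ 21 ≤ v.1 → q t v = p0 v) ∧
      q t 3 0 = p0 3 0 + t := by
  obtain ⟨ε, hε, c, hc0, hcc, hct⟩ := exists_curve
  have hq0 : posE (ext (c 0)) = p0 := by rw [ext_c0 hc0]; exact posE_zero
  refine ⟨ε, hε, fun t => posE (ext (c t)), hq0, ?_, fun t ht => ⟨?_, ?_, ?_⟩⟩
  · refine continuousOn_pi.2 fun w => ?_
    have : ContinuousOn (fun t => (fun k : Fin 3 =>
        if w.1 < 24 then ev (ext (c t)) (pos PN (w.1 / 3) (w.1 % 3) k.1)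
        else ((P w k : ℤ) : ℝ))) (Icc 0 ε) := by
      refine continuousOn_pi.2 fun k => ?_
      by_cases h : w.1 < 24
      · simp only [h, if_true]
        unfold pos
        by_cases h2 : w.1 / 3 = 0 ∨ w.1 / 3 = 7
        · simp only [h2, if_true, ev]
          exact continuousOn_const
        · simp only [h2, if_false, ev, ext]
          by_cases h3 : 9 * (w.1 / 3 - 1) + 3 * (w.1 % 3) + k.1 < 82
          · simp only [h3, dif_pos]
            exact (continuousOn_pi.1 hcc) _
          · simp only [h3, dif_neg, not_false_eq_true]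
            exact continuousOn_const
      · simp only [h, if_false]
        exact continuousOn_const
    exact (PiLp.continuous_toLp 2 _).comp_continuousOn this
  · intro s hs v hv w hw
    rw [← hq0]
    exact dist_eq (hct t ht).1 (hct 0 ⟨le_refl _, hε.le⟩).1 (hct t ht).2.1
      (okPair_faces s hs v hv w hw)
  · intro v hv
    rw [← hq0]
    exact posE_fixed _ _ (by omega)
  · have h1 : ∀ x : Fin 82 → ℝ, posE (ext x) 3 0 = x 0 := by
      intro x
      show (if (3 : ℕ) < 24 then ev (ext x) (pos PN (3 / 3) (3 % 3) 0) else ((P 3 0 : ℤ) : ℝ)) = x 0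
      rw [if_pos (by norm_num)]
      simp [pos, ev, ext]
    rw [← hq0, h1, h1]
    exact (hct t ht).2.2

end Pool.Agent.helper43.TF.IFT
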