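import Pool.Agent.helper43.TF.T0

/-! Polyhedral immersions from finitely many strict inequalities; openness. -/

open Set Topology Filter

namespace Pool.Agent.helper43.TF.IM

open Pool.Agent.helper45.TF

/-- the oriented volume of three vectors -/
def vol (x y z : E3) : ℝ :=
  x 0 * (y 1 * z 2 - y 2 * z 1) - x 1 * (y 0 * z 2 - y 2 * z 0) + x 2 * (y 0 * z 1 - y 1 * z 0)

theorem vol_ne {x y z : E3} (h : vol x y z ≠ 0) {a b c : ℝ} (h0 : a • x + b • y + c • z = 0) :
    a = 0 ∧ b = 0 ∧ c = 0 := by
  have e : ∀ i, a * x i + b * y i + c * z i = 0 := by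
    intro i
    have := congrArg (fun w : E3 => w i) h0
    simpa using this
  have e0 := e 0
  have e1 := e 1
  have e2 := e 2
  refine ⟨?_, ?_, ?_⟩
  · have : a * vol x y z = 0 := by
      unfold vol
      linear_combination (y 1 * z 2 - y 2 * z 1) * e0 - (y 0 * z 2 - y 2 * z 0) * e1 +
        (y 0 * z 1 - y 1 * z 0) * e2
    exact (mul_eq_zero.1 this).resolve_right h
  · have : b * vol x y z = 0 := by
      unfold vol
      linear_combination (z 1 * x 2 - z 2 * x 1) * e0 - (z 0 * x 2 - z 2 * x 0) * e1 +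
        (z 0 * x 1 - z 1 * x 0) * e2
    exact (mul_eq_zero.1 this).resolve_right h
  · have : c * vol x y z = 0 := by
      unfold vol
      linear_combination (x 1 * y 2 - x 2 * y 1) * e0 - (x 0 * y 2 - x 2 * y 0) * e1 +
        (x 0 * y 1 - x 1 * y 0) * e2
    exact (mul_eq_zero.1 this).resolve_right h

variable {V : Type} [Fintype V] [DecidableEq V] (K : ClosedSurface V)

/-- the points of `s ∪ t` are affinely independent -/
def Gen (q : V → E3) (s t : Finset V) : Prop :=
  ∀ α : V → ℝ, (∀ w, w ∉ s → w ∉ t → α w = 0) → ∑ w, α w = 0 → ∑ w, α w • q w = 0 → α = 0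

theorem gen_of_vol {q : V → E3} {s t : Finset V} {v a b c : V} (hs : s = {v, a, b})
    (ht : t = {v, a, c}) (hva : v ≠ a) (hvb : v ≠ b) (hvc : v ≠ c) (hab : a ≠ b) (hac : a ≠ c)
    (hbc : b ≠ c) (h : vol (q a - q v) (q b - q v) (q c - q v) ≠ 0) : Gen q s t := by
  intro α hα h1 h2
  have hsup : ∀ w, w ∉ ({v, a, b, c} : Finset V) → α w = 0 := by
    intro w hw
    simp only [Finset.mem_insert, Finset.mem_singleton, not_or] at hw
    apply hα
    · rw [hs]; simp [hw.1, hw.2.1, hw.2.2.1]
    · rw [ht]; simp [hw.1, hw.2.1, hw.2.2.2]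
  have s1 : ∑ w, α w = α v + (α a + (α b + α c)) := by
    rw [← Finset.sum_subset (Finset.subset_univ ({v, a, b, c} : Finset V))
      (fun w _ hw => hsup w hw), Finset.sum_insert (by simp [hva, hvb, hvc]),
      Finset.sum_insert (by simp [hab, hac]), Finset.sum_insert (by simp [hbc]),
      Finset.sum_singleton]
  have s2 : ∑ w, α w • q w = α v • q v + (α a • q a + (α b • q b + α c • q c)) := by
    rw [← Finset.sum_subset (Finset.subset_univ ({v, a, b, c} : Finset V))
      (fun w _ hw => by rw [hsup w hw, zero_smul]), Finset.sum_insert (by simp [hva, hvb, hvc]),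
      Finset.sum_insert (by simp [hab, hac]), Finset.sum_insert (by simp [hbc]),
      Finset.sum_singleton]
  rw [s1] at h1
  rw [s2] at h2
  have hv : α v = -(α a + α b + α c) := by linarith
  have h3 : α a • (q a - q v) + α b • (q b - q v) + α c • (q c - q v) = 0 := by
    rw [← h2, hv]
    module
  obtain ⟨ha, hb, hc⟩ := vol_ne h h3
  funext w
  by_cases hw : w ∈ ({v, a, b, c} : Finset V)
  · simp only [Finset.mem_insert, Finset.mem_singleton] at hw
    rcases hw with rfl | rfl | rfl | rfl
    · rw [hv, ha, hb, hc]; simp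
    · exact ha
    · exact hb
    · exact hc
  · exact hsup w hw

/-- two faces meeting only in `v` are separated by the plane through `q v` orthogonal to `m` -/
def Sep (q : V → E3) (s t : Finset V) (v : V) (m : E3) : Prop :=
  (∀ w ∈ s.erase v, 0 < inner ℝ m (q w - q v)) ∧ ∀ w ∈ t.erase v, inner ℝ m (q w - q v) < 0

omit [DecidableEq V] in
theorem inj_gen {q : V → E3} {s t : Finset V} (h : Gen q s t) {y z : V → ℝ} (hy : y ∈ cell s)
    (hz : z ∈ cell t) (hyz : polyMap q y = polyMap q z) : y = z := by
  have := h (fun w => y w - z w) (fun w hs ht => by rw [hy.2.2 w hs, hz.2.2 w ht, sub_zero])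
    (by rw [Finset.sum_sub_distrib, hy.2.1, hz.2.1, sub_self])
    (by
      simp only [sub_smul, Finset.sum_sub_distrib]
      unfold polyMap at hyz
      rw [hyz, sub_self])
  funext w
  have := congrFun this w
  simpa [sub_eq_zero] using this

omit [DecidableEq V] in
theorem polyMap_sub {q : V → E3} {y : V → ℝ} (hy : ∑ w, y w = 1) (v : V) :
    polyMap q y - q v = ∑ w, y w • (q w - q v) := by
  simp only [smul_sub, Finset.sum_sub_distrib, ← Finset.sum_smul, hy, one_smul]
  rfl

theorem inj_sep {q : V → E3} {s t : Finset V} {v : V} {m : E3}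
    (h : Sep q s t v m) {y z : V → ℝ} (hy : y ∈ cell s) (hz : z ∈ cell t)
    (hyz : polyMap q y = polyMap q z) : y = z := by
  have e1 : inner ℝ m (polyMap q y - q v) = ∑ w, y w * inner ℝ m (q w - q v) := by
    rw [polyMap_sub hy.2.1, inner_sum]; simp [inner_smul_right]
  have e2 : inner ℝ m (polyMap q z - q v) = ∑ w, z w * inner ℝ m (q w - q v) := by
    rw [polyMap_sub hz.2.1, inner_sum]; simp [inner_smul_right]
  have k1 : ∀ w, 0 ≤ y w * inner ℝ m (q w - q v) := by
    intro w
    by_cases hw : w ∈ s.erase v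
    · exact mul_nonneg (hy.1 w) (h.1 w hw).le
    · by_cases hwv : w = v
      · rw [hwv]; simp
      · have : w ∉ s := fun h' => hw (Finset.mem_erase.2 ⟨hwv, h'⟩)
        rw [hy.2.2 w this, zero_mul]
  have k2 : ∀ w, z w * inner ℝ m (q w - q v) ≤ 0 := by
    intro w
    by_cases hw : w ∈ t.erase v
    · exact mul_nonpos_of_nonneg_of_nonpos (hz.1 w) (h.2 w hw).le
    · by_cases hwv : w = v
      · rw [hwv]; simp
      · have : w ∉ t := fun h' => hw (Finset.mem_erase.2 ⟨hwv, h'⟩)
        rw [hz.2.2 w this, zero_mul]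
  have s1 : 0 ≤ ∑ w, y w * inner ℝ m (q w - q v) := Finset.sum_nonneg fun w _ => k1 w
  have s2 : ∑ w, z w * inner ℝ m (q w - q v) ≤ 0 := Finset.sum_nonpos fun w _ => k2 w
  rw [← e1, hyz, e2] at s1
  have hz0 := le_antisymm s2 s1
  have hy0 : ∑ w, y w * inner ℝ m (q w - q v) = 0 := by rw [← e1, hyz, e2, hz0]
  have y0 : ∀ w, w ≠ v → y w = 0 := by
    intro w hwv
    by_cases hw : w ∈ s
    · have := (Finset.sum_eq_zero_iff_of_nonneg fun w _ => k1 w).1 hy0 w (Finset.mem_univ w)
      exact (mul_eq_zero.1 this).resolve_right (h.1 w (Finset.mem_erase.2 ⟨hwv, hw⟩)).ne'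
    · exact hy.2.2 w hw
  have z0 : ∀ w, w ≠ v → z w = 0 := by
    intro w hwv
    by_cases hw : w ∈ t
    · have := (Finset.sum_eq_zero_iff_of_nonpos fun w _ => k2 w).1 hz0 w (Finset.mem_univ w)
      exact (mul_eq_zero.1 this).resolve_right (h.2 w (Finset.mem_erase.2 ⟨hwv, hw⟩)).ne
    · exact hz.2.2 w hw
  funext w
  by_cases hwv : w = v
  · subst hwv
    have a1 := hy.2.1
    have a2 := hz.2.1
    rw [Finset.sum_eq_single w (fun b _ hb => y0 b hb) (by simp)] at a1
    rw [Finset.sum_eq_single w (fun b _ hb => z0 b hb) (by simp)] at a2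
    rw [a1, a2]
  · rw [y0 w hwv, z0 w hwv]

/-- **Criterion for a polyhedral immersion.** -/
theorem immersion_of {q : V → E3}
    (h1 : ∀ s ∈ K.faces, ∀ t ∈ K.faces, (s ∩ t).card = 2 → Gen q s t)
    (h2 : ∀ s ∈ K.faces, ∀ t ∈ K.faces, ∀ v, v ∈ s → v ∈ t → (s ∩ t).card = 1 →
      ∃ m, Sep q s t v m) : IsPolyhedralImmersion K q := by
  have hface : ∀ s ∈ K.faces, Gen q s s := by
    intro s hs
    -- a neighbour of `s`
    obtain ⟨u, v, huv, hus, hvs⟩ : ∃ u v, u ≠ v ∧ u ∈ s ∧ v ∈ s := by
      obtain ⟨u, v, w, huv, _, _, h⟩ := Finset.card_eq_three.1 (K.card_eq s hs)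
      exact ⟨u, v, huv, by rw [h]; simp, by rw [h]; simp⟩
    have hc := K.edge_two u v huv ⟨s, hs, hus, hvs⟩
    obtain ⟨t, ht, hts⟩ : ∃ t ∈ K.faces.filter (fun s => u ∈ s ∧ v ∈ s), t ≠ s := by
      by_contra hcon
      push Not at hcon
      have : K.faces.filter (fun s => u ∈ s ∧ v ∈ s) ⊆ {s} := fun t ht =>
        Finset.mem_singleton.2 (hcon t ht)
      have := Finset.card_le_card this
      rw [hc, Finset.card_singleton] at this
      omega
    obtain ⟨htf, hut, hvt⟩ := Finset.mem_filter.1 ht
    have hle : (s ∩ t).card ≤ 2 := by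
      by_contra hcon
      have h3 : 3 ≤ (s ∩ t).card := by omega
      have e1 : s ∩ t = s := Finset.eq_of_subset_of_card_le Finset.inter_subset_left
        (by rw [K.card_eq s hs]; exact h3)
      have e2 : s ∩ t = t := Finset.eq_of_subset_of_card_le Finset.inter_subset_right
        (by rw [K.card_eq t htf]; exact h3)
      exact hts (by rw [← e2, e1])
    have hge : 2 ≤ (s ∩ t).card := by
      have : ({u, v} : Finset V) ⊆ s ∩ t := by
        intro w hw
        rcases Finset.mem_insert.1 hw with rfl | hw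
        · exact Finset.mem_inter.2 ⟨hus, hut⟩
        · rw [Finset.mem_singleton.1 hw]; exact Finset.mem_inter.2 ⟨hvs, hvt⟩
      have := Finset.card_le_card this
      rwa [Finset.card_pair huv] at this
    have hg := h1 s hs t htf (le_antisymm hle hge)
    exact fun α hα => hg α fun w hw _ => hα w hw hw
  have hinj : ∀ v, ∀ s ∈ K.faces, ∀ t ∈ K.faces, v ∈ s → v ∈ t → ∀ y ∈ cell s, ∀ z ∈ cell t,
      polyMap q y = polyMap q z → y = z := by
    intro v s hs t ht hvs hvt y hy z hz hyz
    have hpos : 0 < (s ∩ t).card := Finset.card_pos.2 ⟨v, Finset.mem_inter.2 ⟨hvs, hvt⟩⟩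
    have hle : (s ∩ t).card ≤ 3 := by
      rw [← K.card_eq s hs]; exact Finset.card_le_card Finset.inter_subset_left
    have hcase : (s ∩ t).card = 1 ∨ (s ∩ t).card = 2 ∨ (s ∩ t).card = 3 := by omega
    rcases hcase with hc | hc | hc
    · obtain ⟨m, hm⟩ := h2 s hs t ht v hvs hvt hc
      exact inj_sep hm hy hz hyz
    · exact inj_gen (h1 s hs t ht hc) hy hz hyz
    · have e1 : s ∩ t = s := Finset.eq_of_subset_of_card_le Finset.inter_subset_left
        (by rw [K.card_eq s hs, hc])
      have e2 : s ∩ t = t := Finset.eq_of_subset_of_card_le Finset.inter_subset_right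
        (by rw [K.card_eq t ht, hc])
      have hst : s = t := by rw [← e1, e2]
      subst hst
      exact inj_gen (hface s hs) hy hz hyz
  refine ⟨fun s hs y hy z hz hyz => ?_, fun x hx => ?_⟩
  · obtain ⟨v, hv⟩ : s.Nonempty := Finset.card_pos.1 (by rw [K.card_eq s hs]; omega)
    exact hinj v s hs s hs hv hv y hy z hz hyz
  · obtain ⟨s, hs, hxs⟩ := hx
    obtain ⟨v, hvs, hv0, -⟩ := T0.exists_low_vertex (val := fun _ => 0) hxs
    refine ⟨{y | y v ≠ 0}, (isOpen_ne_fun (continuous_apply v) continuous_const).mem_nhds hv0, ?_⟩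
    rintro y ⟨hyv, a, ha, hya⟩ z ⟨hzv, b, hb, hzb⟩ hyz
    have hva : v ∈ a := by
      by_contra h; exact hyv (hya.2.2 v h)
    have hvb : v ∈ b := by
      by_contra h; exact hzv (hzb.2.2 v h)
    exact hinj v a ha b hb hva hvb y hya z hzb hyz

/-- **Openness.** Finitely many strict conditions at `p` give polyhedral immersions near `p`. -/
theorem eventually_immersion {p : V → E3}
    (h1 : ∀ s ∈ K.faces, ∀ t ∈ K.faces, (s ∩ t).card = 2 → ∃ v a b c : V,
      s = {v, a, b} ∧ t = {v, a, c} ∧ vol (p a - p v) (p b - p v) (p c - p v) ≠ 0)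
    (h2 : ∀ s ∈ K.faces, ∀ t ∈ K.faces, ∀ v, v ∈ s → v ∈ t → (s ∩ t).card = 1 →
      ∃ m, Sep p s t v m) : ∀ᶠ q in 𝓝 p, IsPolyhedralImmersion K q := by
  have k1 : ∀ᶠ q in 𝓝 p, ∀ s ∈ K.faces, ∀ t ∈ K.faces, (s ∩ t).card = 2 → Gen q s t := by
    rw [Filter.eventually_all_finset]
    intro s hs
    rw [Filter.eventually_all_finset]
    intro t ht
    by_cases hc : (s ∩ t).card = 2
    · obtain ⟨v, a, b, c, rfl, rfl, hvol⟩ := h1 s hs t ht hc
      have hcont : Continuous fun q : V → E3 =>
          vol (q a - q v) (q b - q v) (q c - q v) := by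
        unfold vol
        have hq : ∀ (x : V) (i : Fin 3), Continuous fun q : V → E3 => (q x) i := fun x i =>
          ((EuclideanSpace.proj (𝕜 := ℝ) i).continuous).comp (continuous_apply x)
        have hd : ∀ (x : V) (i : Fin 3), Continuous fun q : V → E3 => (q x - q v) i := by
          intro x i
          show Continuous fun q : V → E3 => (q x) i - (q v) i
          exact (hq x i).sub (hq v i)
        have d := hd
        exact (((d a 0).mul (((d b 1).mul (d c 2)).sub ((d b 2).mul (d c 1)))).sub
          ((d a 1).mul (((d b 0).mul (d c 2)).sub ((d b 2).mul (d c 0))))).add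
          ((d a 2).mul (((d b 0).mul (d c 1)).sub ((d b 1).mul (d c 0))))
      have hev := hcont.continuousAt.eventually_ne hvol
      have c1 := K.card_eq _ hs
      have c2 := K.card_eq _ ht
      have hva : v ≠ a := by
        rintro rfl
        have := Finset.card_le_two (a := v) (b := b)
        simp only [Finset.insert_eq_of_mem (Finset.mem_insert_self v {b})] at c1
        omega
      have hvb : v ≠ b := by
        rintro rfl
        have e : ({v, a, v} : Finset V) = {v, a} := by ext x; simp; tauto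
        rw [e] at c1
        have := Finset.card_le_two (a := v) (b := a)
        omega
      have hvc : v ≠ c := by
        rintro rfl
        have e : ({v, a, v} : Finset V) = {v, a} := by ext x; simp; tauto
        rw [e] at c2
        have := Finset.card_le_two (a := v) (b := a)
        omega
      have hab : a ≠ b := by
        rintro rfl
        have e : ({v, a, a} : Finset V) = {v, a} := by ext x; simp
        rw [e] at c1
        have := Finset.card_le_two (a := v) (b := a)
        omega
      have hac : a ≠ c := by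
        rintro rfl
        have e : ({v, a, a} : Finset V) = {v, a} := by ext x; simp
        rw [e] at c2
        have := Finset.card_le_two (a := v) (b := a)
        omega
      have hbc : b ≠ c := by
        rintro rfl
        rw [Finset.inter_self] at hc
        omega
      filter_upwards [hev] with q hq _
      exact gen_of_vol rfl rfl hva hvb hvc hab hac hbc hq
    · exact Eventually.of_forall fun q h => absurd h hc
  have k2 : ∀ᶠ q in 𝓝 p, ∀ s ∈ K.faces, ∀ t ∈ K.faces, ∀ v ∈ (Finset.univ : Finset V), v ∈ s →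
      v ∈ t → (s ∩ t).card = 1 → ∃ m, Sep q s t v m := by
    rw [Filter.eventually_all_finset]
    intro s hs
    rw [Filter.eventually_all_finset]
    intro t ht
    rw [Filter.eventually_all_finset]
    intro v _
    by_cases hv : v ∈ s ∧ v ∈ t ∧ (s ∩ t).card = 1
    · obtain ⟨m, hm1, hm2⟩ := h2 s hs t ht v hv.1 hv.2.1 hv.2.2
      have hcont : ∀ w, Continuous fun q : V → E3 => inner ℝ m (q w - q v) := fun w =>
        continuous_const.inner ((continuous_apply w).sub (continuous_apply v))
      have e1 : ∀ᶠ q in 𝓝 p, ∀ w ∈ s.erase v, 0 < inner ℝ m (q w - q v) :=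
        (Filter.eventually_all_finset _).2 fun w hw =>
          (hcont w).continuousAt.eventually (lt_mem_nhds (hm1 w hw))
      have e2 : ∀ᶠ q in 𝓝 p, ∀ w ∈ t.erase v, inner ℝ m (q w - q v) < 0 :=
        (Filter.eventually_all_finset _).2 fun w hw =>
          (hcont w).continuousAt.eventually (gt_mem_nhds (hm2 w hw))
      filter_upwards [e1, e2] with q hq1 hq2 _ _ _
      exact ⟨m, hq1, hq2⟩
    · exact Eventually.of_forall fun q h h' h'' => absurd ⟨h, h', h''⟩ hv
  filter_upwards [k1, k2] with q hq1 hq2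
  exact immersion_of K hq1 fun s hs t ht v => hq2 s hs t ht v (Finset.mem_univ v)

end Pool.Agent.helper43.TF.IM
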