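import Pool.Agent.helper45.TF.Defs

/-! 0-tightness from pairwise adjacent hull vertices and saddle vertices. -/

open Set Topology

namespace Pool.Agent.helper43.TF.T0

open Pool.Agent.helper45.TF

variable {V : Type} [Fintype V] [DecidableEq V] (S : ClosedSurface V)

/-- every vertex of a lower set of heights descends to a vertex of `H` -/
theorem descend {val : V → ℝ} {H : Set V} (hd : ∀ v, v ∉ H → ∃ w, S.Adj v w ∧ val w < val v)
    {J : Set ℝ} (hJ : IsLowerSet J) :
    ∀ a, val a ∈ J → ∃ h ∈ H, val h ∈ J ∧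
      Relation.ReflTransGen (fun x y => S.Adj x y ∧ val x ∈ J ∧ val y ∈ J) a h := by
  classical
  intro a
  induction hk : (Finset.univ.filter fun w => val w < val a).card using Nat.strong_induction_on
    generalizing a with
  | _ k ih =>
    intro ha
    by_cases haH : a ∈ H
    · exact ⟨a, haH, ha, Relation.ReflTransGen.refl⟩
    · obtain ⟨w, haw, hlt⟩ := hd a haH
      have hw : val w ∈ J := hJ hlt.le ha
      have hcard : (Finset.univ.filter fun x => val x < val w).card < k := by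
        rw [← hk]
        apply Finset.card_lt_card
        refine ⟨fun x hx => ?_, fun hsub => ?_⟩
        · rw [Finset.mem_filter] at hx ⊢
          exact ⟨hx.1, hx.2.trans hlt⟩
        · have := hsub (Finset.mem_filter.2 ⟨Finset.mem_univ w, hlt⟩)
          exact lt_irrefl _ (Finset.mem_filter.1 this).2
      obtain ⟨h, hH, hhJ, hpath⟩ := ih _ hcard w rfl hw
      exact ⟨h, hH, hhJ, Relation.ReflTransGen.head ⟨haw, ha, hw⟩ hpath⟩

theorem reach {val : V → ℝ} {H : Set V} (hH : ∀ v ∈ H, ∀ w ∈ H, S.Adj v w)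
    (hd : ∀ v, v ∉ H → ∃ w, S.Adj v w ∧ val w < val v)
    {J : Set ℝ} (hJ : IsLowerSet J) (a b : V) (ha : val a ∈ J) (hb : val b ∈ J) :
    Relation.ReflTransGen (fun x y => S.Adj x y ∧ val x ∈ J ∧ val y ∈ J) a b := by
  obtain ⟨h, hh, hhJ, hpa⟩ := descend S hd hJ a ha
  obtain ⟨k, hk, hkJ, hpb⟩ := descend S hd hJ b hb
  have hsymm : Std.Symm (fun x y => S.Adj x y ∧ val x ∈ J ∧ val y ∈ J) := by
    constructor
    rintro x y ⟨⟨s, hs, h1, h2⟩, h3, h4⟩
    exact ⟨⟨s, hs, h2, h1⟩, h4, h3⟩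
  refine hpa.trans (Relation.ReflTransGen.head ⟨hH h hh k hk, hhJ, hkJ⟩ ?_)
  exact (Relation.ReflTransGen.stdSymm).symm _ _ hpb

/-- the linear extension of the heights -/
def lin (val : V → ℝ) (x : V → ℝ) : ℝ := ∑ v, x v * val v

omit [DecidableEq V] in
theorem inner_polyMap (p : V → E3) (a : E3) (x : V → ℝ) :
    inner ℝ a (polyMap p x) = lin (fun v => inner ℝ a (p v)) x := by
  simp [polyMap, lin, inner_sum, inner_smul_right]

/-- the part of the surface with heights in `J` -/
def part (val : V → ℝ) (J : Set ℝ) : Set (V → ℝ) := {x | x ∈ S.space ∧ lin val x ∈ J}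

omit [DecidableEq V] in
theorem convex_cell (s : Finset V) : Convex ℝ (cell s) := by
  intro x hx y hy a b ha hb hab
  refine ⟨fun v => ?_, ?_, fun v hv => ?_⟩
  · have h1 := mul_nonneg ha (hx.1 v)
    have h2 := mul_nonneg hb (hy.1 v)
    simpa using add_nonneg h1 h2
  · have h1 : ∑ v, (a • x + b • y) v = a * ∑ v, x v + b * ∑ v, y v := by
      simp [Finset.sum_add_distrib, Finset.mul_sum]
    rw [h1, hx.2.1, hy.2.1]; linarith
  · simp [hx.2.2 v hv, hy.2.2 v hv]

omit [DecidableEq V] in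
theorem convex_cellPart (val : V → ℝ) {J : Set ℝ} (hJ : IsLowerSet J) (s : Finset V) :
    Convex ℝ {x | x ∈ cell s ∧ lin val x ∈ J} := by
  intro x hx y hy a b ha hb hab
  refine ⟨convex_cell s hx.1 hy.1 ha hb hab, ?_⟩
  have h1 : lin val (a • x + b • y) = a * lin val x + b * lin val y := by
    simp [lin, Finset.sum_add_distrib, Finset.mul_sum, add_mul, mul_assoc]
  rw [h1]
  rcases le_total (lin val x) (lin val y) with h | h
  · refine hJ ?_ hy.2
    calc a * lin val x + b * lin val y ≤ a * lin val y + b * lin val y := by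
          have := mul_le_mul_of_nonneg_left h ha
          linarith
      _ = lin val y := by rw [← add_mul, hab, one_mul]
  · refine hJ ?_ hx.2
    calc a * lin val x + b * lin val y ≤ a * lin val x + b * lin val x := by
          have := mul_le_mul_of_nonneg_left h hb
          linarith
      _ = lin val x := by rw [← add_mul, hab, one_mul]

/-- the vertex `v` as a point of the realization -/
def vert (v : V) : V → ℝ := Pi.single v 1

theorem vert_mem_cell {v : V} {s : Finset V} (hv : v ∈ s) : vert v ∈ cell s := by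
  refine ⟨fun w => ?_, ?_, fun w hw => ?_⟩
  · by_cases h : w = v
    · subst h; simp [vert]
    · simp [vert, h]
  · simp [vert]
  · have : w ≠ v := fun h => hw (h ▸ hv)
    simp [vert, this]

theorem lin_vert (val : V → ℝ) (v : V) : lin val (vert v) = val v := by
  simp [lin, vert, Pi.single_apply]

/-- some vertex of the carrier is not higher than the point -/
theorem exists_low_vertex {val : V → ℝ} {s : Finset V} {x : V → ℝ} (hx : x ∈ cell s) :
    ∃ v ∈ s, x v ≠ 0 ∧ val v ≤ lin val x := by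
  by_contra hcon
  push Not at hcon
  have h1 : ∀ v, x v * lin val x ≤ x v * val v := by
    intro v
    by_cases hv : x v = 0
    · simp [hv]
    · have hvs : v ∈ s := by
        by_contra h; exact hv (hx.2.2 v h)
      exact mul_le_mul_of_nonneg_left (hcon v hvs hv).le (hx.1 v)
  have hex : ∃ v, x v ≠ 0 := by
    by_contra h
    push Not at h
    have := hx.2.1
    rw [Finset.sum_eq_zero fun v _ => h v] at this
    exact zero_ne_one this
  obtain ⟨v, hv⟩ := hex
  have hvs : v ∈ s := by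
    by_contra h; exact hv (hx.2.2 v h)
  have h2 : x v * lin val x < x v * val v :=
    mul_lt_mul_of_pos_left (hcon v hvs hv) (lt_of_le_of_ne (hx.1 v) (Ne.symm hv))
  have h3 : ∑ v, x v * lin val x < ∑ v, x v * val v :=
    Finset.sum_lt_sum (fun v _ => h1 v) ⟨v, Finset.mem_univ v, h2⟩
  rw [← Finset.sum_mul, hx.2.1, one_mul] at h3
  exact lt_irrefl _ h3

theorem joined_of_cell {val : V → ℝ} {J : Set ℝ} (hJ : IsLowerSet J) {s : Finset V}
    (hs : s ∈ S.faces) {x y : V → ℝ} (hx : x ∈ cell s) (hy : y ∈ cell s) (hxJ : lin val x ∈ J)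
    (hyJ : lin val y ∈ J) : JoinedIn (part S val J) x y := by
  apply JoinedIn.of_segment_subset
  intro z hz
  have := (convex_cellPart val hJ s).segment_subset ⟨hx, hxJ⟩ ⟨hy, hyJ⟩ hz
  exact ⟨⟨s, hs, this.1⟩, this.2⟩

theorem joined_vert {val : V → ℝ} {H : Set V} (hH : ∀ v ∈ H, ∀ w ∈ H, S.Adj v w)
    (hd : ∀ v, v ∉ H → ∃ w, S.Adj v w ∧ val w < val v) {J : Set ℝ} (hJ : IsLowerSet J) {a b : V}
    (ha : val a ∈ J) (hb : val b ∈ J) : JoinedIn (part S val J) (vert a) (vert b) := by
  have h := reach S hH hd hJ a b ha hb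
  clear hb
  induction h with
  | refl =>
    obtain ⟨s, hs, has⟩ := S.cover a
    have := vert_mem_cell has
    exact joined_of_cell S hJ hs this this (by rwa [lin_vert]) (by rwa [lin_vert])
  | tail _ hst ih =>
    obtain ⟨⟨s, hs, h1, h2⟩, h3, h4⟩ := hst
    exact ih.trans (joined_of_cell S hJ hs (vert_mem_cell h1) (vert_mem_cell h2)
      (by rwa [lin_vert]) (by rwa [lin_vert]))

theorem isPreconnected_part {val : V → ℝ} {H : Set V} (hH : ∀ v ∈ H, ∀ w ∈ H, S.Adj v w)
    (hd : ∀ v, v ∉ H → ∃ w, S.Adj v w ∧ val w < val v) {J : Set ℝ} (hJ : IsLowerSet J) :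
    IsPreconnected (part S val J) := by
  rcases (part S val J).eq_empty_or_nonempty with h0 | h0
  · rw [h0]; exact isPreconnected_empty
  · refine (isPathConnected_iff.2 ⟨h0, fun x hx y hy => ?_⟩).isConnected.isPreconnected
    obtain ⟨⟨s, hs, hxs⟩, hxJ⟩ := hx
    obtain ⟨⟨t, ht, hyt⟩, hyJ⟩ := hy
    obtain ⟨v, hvs, _, hvl⟩ := exists_low_vertex (val := val) hxs
    obtain ⟨w, hwt, _, hwl⟩ := exists_low_vertex (val := val) hyt
    have hvJ : val v ∈ J := hJ hvl hxJ
    have hwJ : val w ∈ J := hJ hwl hyJ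
    exact ((joined_of_cell S hJ hs hxs (vert_mem_cell hvs) hxJ (by rwa [lin_vert])).trans
      (joined_vert S hH hd hJ hvJ hwJ)).trans
      (joined_of_cell S hJ ht (vert_mem_cell hwt) hyt (by rwa [lin_vert]) hyJ)

/-- half-spaces as lower sets of heights -/
theorem halfSpace_lower {h : Set E3} (hh : IsHalfSpace h) :
    ∃ a : E3, a ≠ 0 ∧ ∃ J : Set ℝ, IsLowerSet J ∧ h = {y | inner ℝ a y ∈ J} := by
  obtain ⟨a, ha, c, hc | hc⟩ := hh
  · exact ⟨a, ha, Iic c, isLowerSet_Iic c, hc⟩
  · exact ⟨a, ha, Iio c, isLowerSet_Iio c, hc⟩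

theorem pre_eq_part (p : V → E3) (a : E3) (J : Set ℝ) :
    S.pre p {y | inner ℝ a y ∈ J} = part S (fun v => inner ℝ a (p v)) J := by
  ext x
  simp only [ClosedSurface.pre, part, mem_ofPred_eq, inner_polyMap]

theorem zeroTight (p : V → E3) {H : Set V} (hH : ∀ v ∈ H, ∀ w ∈ H, S.Adj v w)
    (hd : ∀ a : E3, a ≠ 0 → ∀ v, v ∉ H → ∃ w, S.Adj v w ∧ inner ℝ a (p w) < inner ℝ a (p v)) :
    ZeroTight S p := by
  intro h hh
  obtain ⟨a, ha, J, hJ, rfl⟩ := halfSpace_lower hh
  rw [pre_eq_part]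
  exact isPreconnected_part S hH (hd a ha) hJ

/-- the vertices outside a half-space are connected through each other -/
theorem reach_compl (p : V → E3) {H : Set V} (hH : ∀ v ∈ H, ∀ w ∈ H, S.Adj v w)
    (hd : ∀ a : E3, a ≠ 0 → ∀ v, v ∉ H → ∃ w, S.Adj v w ∧ inner ℝ a (p w) < inner ℝ a (p v))
    {a : E3} (ha : a ≠ 0) {J : Set ℝ} (hJ : IsLowerSet J) (v w : V)
    (hv : v ∉ {v | inner ℝ a (p v) ∈ J}) (hw : w ∉ {v | inner ℝ a (p v) ∈ J}) :
    Relation.ReflTransGen (fun x y => S.Adj x y ∧ x ∉ {v | inner ℝ a (p v) ∈ J} ∧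
      y ∉ {v | inner ℝ a (p v) ∈ J}) v w := by
  have hJ' : IsLowerSet {r : ℝ | -r ∉ J} := by
    intro r s hsr hr hs
    exact hr (hJ (neg_le_neg hsr) hs)
  have h := reach S (val := fun v => inner ℝ (-a) (p v)) hH (hd (-a) (neg_ne_zero.2 ha)) hJ' v w
    (by simpa using hv) (by simpa using hw)
  refine Relation.ReflTransGen.mono (fun x y hxy => ?_) _ _ h
  obtain ⟨h1, h2, h3⟩ := hxy
  exact ⟨h1, by simpa using h2, by simpa using h3⟩

end Pool.Agent.helper43.TF.T0
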