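import Pool.Agent.helper43.TF.DU
import Pool.Agent.helper43.TF.T0

/-! Singular chains mod 2: affine simplices, prism, subdivision of 1-chains. -/

open Set Topology

namespace Pool.Agent.helper43.TF.SG

open Pool.Agent.helper45.TF

/-! ### generalities on chains mod 2 -/

theorem lc_mem {α β : Type} (f : α → β →₀ ZMod 2) (P : Submodule (ZMod 2) (β →₀ ZMod 2))
    (c : α →₀ ZMod 2) (h : ∀ a ∈ c.support, f a ∈ P) :
    Finsupp.linearCombination (ZMod 2) f c ∈ P :=
  Submodule.sum_mem _ fun a ha => P.smul_mem _ (h a ha)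

theorem single_mem {β : Type} {s : Set β} {b : β} (hb : b ∈ s) :
    (Finsupp.single b (1 : ZMod 2)) ∈ Finsupp.supported (ZMod 2) (ZMod 2) s :=
  Finsupp.single_mem_supported _ _ hb

theorem lin_ext {α β : Type} {f g : (α →₀ ZMod 2) →ₗ[ZMod 2] (β →₀ ZMod 2)}
    (h : ∀ a, f (Finsupp.single a 1) = g (Finsupp.single a 1)) (c : α →₀ ZMod 2) : f c = g c := by
  suffices hfg : f = g by rw [hfg]
  refine Finsupp.lhom_ext' fun e => LinearMap.ext_ring ?_
  exact h e

variable {V : Type} [Fintype V] [DecidableEq V]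

omit [Fintype V] [DecidableEq V] in
theorem bd1_single (γ : Sing1 V) : bd1 (Finsupp.single γ 1) =
    Finsupp.single (γ 0) 1 + Finsupp.single (γ 1) 1 := by
  simp [bd1]

omit [Fintype V] [DecidableEq V] in
theorem bd2_single (τ : Sing2 V) : bd2 (Finsupp.single τ 1) =
    Finsupp.single (τ.comp (edgeMap 0 1)) 1 + Finsupp.single (τ.comp (edgeMap 0 2)) 1 +
      Finsupp.single (τ.comp (edgeMap 1 2)) 1 := by
  simp [bd2]

/-- 1-simplices in `X` -/
def S1 (X : Set (V → ℝ)) : Set (Sing1 V) := {γ | ∀ t, γ t ∈ X}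

/-- 2-simplices in `X` -/
def S2 (X : Set (V → ℝ)) : Set (Sing2 V) := {τ | ∀ t, τ t ∈ X}

omit [Fintype V] [DecidableEq V] in
theorem in1_iff {X : Set (V → ℝ)} {c : Sing1 V →₀ ZMod 2} :
    In1 X c ↔ c ∈ Finsupp.supported (ZMod 2) (ZMod 2) (S1 X) := by
  rw [Finsupp.mem_supported]; rfl

omit [Fintype V] [DecidableEq V] in
theorem in2_iff {X : Set (V → ℝ)} {c : Sing2 V →₀ ZMod 2} :
    In2 X c ↔ c ∈ Finsupp.supported (ZMod 2) (ZMod 2) (S2 X) := by
  rw [Finsupp.mem_supported]; rfl

/-! ### affine simplices -/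

theorem cont_coord (i : Fin 3) : Continuous fun t : D2 => t.1 i :=
  (continuous_apply i).comp continuous_subtype_val

/-- the straight 1-simplex from `x` to `y` -/
noncomputable def seg (x y : V → ℝ) : Sing1 V where
  toFun t := (1 - (t : ℝ)) • x + (t : ℝ) • y
  continuous_toFun := by fun_prop

/-- the straight 2-simplex with vertices `x, y, z` -/
noncomputable def tri (x y z : V → ℝ) : Sing2 V where
  toFun t := (t.1 0) • x + (t.1 1) • y + (t.1 2) • z
  continuous_toFun := (((cont_coord 0).smul continuous_const).add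
    ((cont_coord 1).smul continuous_const)).add ((cont_coord 2).smul continuous_const)

theorem edge_apply (i j : Fin 3) (t : unitInterval) (k : Fin 3) : (edgeMap i j t).1 k =
    (1 - (t : ℝ)) * (if k = i then 1 else 0) + (t : ℝ) * (if k = j then 1 else 0) := rfl

omit [Fintype V] [DecidableEq V] in
theorem tri_e01 (x y z : V → ℝ) : (tri x y z).comp (edgeMap 0 1) = seg x y := by
  ext t v
  simp [tri, seg, edge_apply]

omit [Fintype V] [DecidableEq V] in
theorem tri_e02 (x y z : V → ℝ) : (tri x y z).comp (edgeMap 0 2) = seg x z := by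
  ext t v
  simp [tri, seg, edge_apply]

omit [Fintype V] [DecidableEq V] in
theorem tri_e12 (x y z : V → ℝ) : (tri x y z).comp (edgeMap 1 2) = seg y z := by
  ext t v
  simp [tri, seg, edge_apply]

omit [Fintype V] [DecidableEq V] in
theorem bd2_tri (x y z : V → ℝ) : bd2 (Finsupp.single (tri x y z) 1) =
    Finsupp.single (seg x y) 1 + Finsupp.single (seg x z) 1 + Finsupp.single (seg y z) 1 := by
  rw [bd2_single, tri_e01, tri_e02, tri_e12]

omit [Fintype V] [DecidableEq V] in
theorem seg_mem {X : Set (V → ℝ)} (hX : Convex ℝ X) {x y : V → ℝ} (hx : x ∈ X) (hy : y ∈ X)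
    (t : unitInterval) : seg x y t ∈ X :=
  hX hx hy (by linarith [t.2.2]) t.2.1 (by ring)

omit [Fintype V] [DecidableEq V] in
theorem tri_mem {X : Set (V → ℝ)} (hX : Convex ℝ X) {x y z : V → ℝ} (hx : x ∈ X) (hy : y ∈ X)
    (hz : z ∈ X) (t : D2) : tri x y z t ∈ X := by
  have h := hX.sum_mem (t := Finset.univ) (w := t.1) (z := ![x, y, z]) (fun i _ => t.2.1 i) t.2.2
    (by intro i _; fin_cases i <;> simp [hx, hy, hz])
  simpa [tri, Fin.sum_univ_three] using h

/-! ### the prism -/

theorem cont_comb (a b c : ℝ) : Continuous fun t : D2 => t.1 0 * a + t.1 1 * b + t.1 2 * c :=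
  (((cont_coord 0).mul continuous_const).add ((cont_coord 1).mul continuous_const)).add
    ((cont_coord 2).mul continuous_const)

/-- affine map from the standard simplex to the square -/
noncomputable def sq (a b c : ℝ × ℝ) (ha : a ∈ Icc (0 : ℝ) 1 ×ˢ Icc (0 : ℝ) 1)
    (hb : b ∈ Icc (0 : ℝ) 1 ×ˢ Icc (0 : ℝ) 1) (hc : c ∈ Icc (0 : ℝ) 1 ×ˢ Icc (0 : ℝ) 1) :
    C(D2, unitInterval × unitInterval) where
  toFun t := (⟨t.1 0 * a.1 + t.1 1 * b.1 + t.1 2 * c.1, by
      have h0 := t.2.1 0; have h1 := t.2.1 1; have h2 := t.2.1 2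
      have hs : t.1 0 + t.1 1 + t.1 2 = 1 := by
        have := t.2.2; rwa [Fin.sum_univ_three] at this
      obtain ⟨⟨a1, a2⟩, -⟩ := ha; obtain ⟨⟨b1, b2⟩, -⟩ := hb; obtain ⟨⟨c1, c2⟩, -⟩ := hc
      constructor
      · positivity
      · nlinarith [mul_nonneg h0 (sub_nonneg.2 a2), mul_nonneg h1 (sub_nonneg.2 b2),
          mul_nonneg h2 (sub_nonneg.2 c2)]⟩,
    ⟨t.1 0 * a.2 + t.1 1 * b.2 + t.1 2 * c.2, by
      have h0 := t.2.1 0; have h1 := t.2.1 1; have h2 := t.2.1 2
      have hs : t.1 0 + t.1 1 + t.1 2 = 1 := by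
        have := t.2.2; rwa [Fin.sum_univ_three] at this
      obtain ⟨-, ⟨a1, a2⟩⟩ := ha; obtain ⟨-, ⟨b1, b2⟩⟩ := hb; obtain ⟨-, ⟨c1, c2⟩⟩ := hc
      constructor
      · positivity
      · nlinarith [mul_nonneg h0 (sub_nonneg.2 a2), mul_nonneg h1 (sub_nonneg.2 b2),
          mul_nonneg h2 (sub_nonneg.2 c2)]⟩)
  continuous_toFun := by
    refine Continuous.prodMk (Continuous.subtype_mk (cont_comb _ _ _) _)
      (Continuous.subtype_mk (cont_comb _ _ _) _)

/-- lower triangle of the square -/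
noncomputable def sqL : C(D2, unitInterval × unitInterval) :=
  sq (0, 0) (1, 0) (1, 1) (by simp) (by simp) (by simp)

/-- upper triangle of the square -/
noncomputable def sqU : C(D2, unitInterval × unitInterval) :=
  sq (0, 0) (0, 1) (1, 1) (by simp) (by simp) (by simp)

/-- the prism chain of a map of the square -/
noncomputable def prism (F : C(unitInterval × unitInterval, V → ℝ)) : Sing2 V →₀ ZMod 2 :=
  Finsupp.single (F.comp sqL) 1 + Finsupp.single (F.comp sqU) 1

/-- the four sides -/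
def bot : C(unitInterval, unitInterval × unitInterval) := ⟨fun t => (t, 0), by fun_prop⟩
def top' : C(unitInterval, unitInterval × unitInterval) := ⟨fun t => (t, 1), by fun_prop⟩
def left : C(unitInterval, unitInterval × unitInterval) := ⟨fun t => (0, t), by fun_prop⟩
def right : C(unitInterval, unitInterval × unitInterval) := ⟨fun t => (1, t), by fun_prop⟩
def diag : C(unitInterval, unitInterval × unitInterval) := ⟨fun t => (t, t), by fun_prop⟩

theorem sqL_e01 : sqL.comp (edgeMap 0 1) = bot := by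
  ext t <;> simp [sqL, sq, bot, edge_apply]

theorem sqL_e02 : sqL.comp (edgeMap 0 2) = diag := by
  ext t <;> simp [sqL, sq, diag, edge_apply]

theorem sqL_e12 : sqL.comp (edgeMap 1 2) = right := by
  ext t <;> simp [sqL, sq, right, edge_apply]

theorem sqU_e01 : sqU.comp (edgeMap 0 1) = left := by
  ext t <;> simp [sqU, sq, left, edge_apply]

theorem sqU_e02 : sqU.comp (edgeMap 0 2) = diag := by
  ext t <;> simp [sqU, sq, diag, edge_apply]

theorem sqU_e12 : sqU.comp (edgeMap 1 2) = top' := by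
  ext t <;> simp [sqU, sq, top', edge_apply]

omit [Fintype V] [DecidableEq V] in
theorem bd2_prism (F : C(unitInterval × unitInterval, V → ℝ)) : bd2 (prism F) =
    Finsupp.single (F.comp bot) 1 + Finsupp.single (F.comp right) 1 +
      (Finsupp.single (F.comp left) 1 + Finsupp.single (F.comp top') 1) := by
  rw [prism, map_add, bd2_single, bd2_single]
  simp only [ContinuousMap.comp_assoc, sqL_e01, sqL_e02, sqL_e12, sqU_e01, sqU_e02, sqU_e12]
  have h := ZModModule.add_self (Finsupp.single (F.comp diag) (1 : ZMod 2))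
  calc _ = (Finsupp.single (F.comp diag) (1 : ZMod 2) + Finsupp.single (F.comp diag) 1) +
      (Finsupp.single (F.comp bot) 1 + Finsupp.single (F.comp right) 1 +
      (Finsupp.single (F.comp left) 1 + Finsupp.single (F.comp top') 1)) := by abel
    _ = _ := by rw [h, zero_add]

omit [Fintype V] [DecidableEq V] in
theorem prism_mem {X : Set (V → ℝ)} {F : C(unitInterval × unitInterval, V → ℝ)}
    (hF : ∀ q, F q ∈ X) : prism F ∈ Finsupp.supported (ZMod 2) (ZMod 2) (S2 X) :=
  add_mem (single_mem fun _ => hF _) (single_mem fun _ => hF _)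

/-! ### constant simplices -/

noncomputable def cst1 (x : V → ℝ) : Sing1 V := ContinuousMap.const _ x
noncomputable def cst2 (x : V → ℝ) : Sing2 V := ContinuousMap.const _ x

omit [Fintype V] [DecidableEq V] in
theorem bd2_cst2 (x : V → ℝ) : bd2 (Finsupp.single (cst2 x) 1) = Finsupp.single (cst1 x) 1 := by
  rw [bd2_single]
  have h : ∀ i j : Fin 3, (cst2 x).comp (edgeMap i j) = cst1 x := fun i j => rfl
  rw [h, h, h, ZModModule.add_self, zero_add]

/-! ### subdivision of 1-simplices -/

/-- affine map of the standard simplex to the interval -/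
noncomputable def triI (a b c : unitInterval) : C(D2, unitInterval) where
  toFun t := ⟨t.1 0 * a + t.1 1 * b + t.1 2 * c, by
      have h0 := t.2.1 0; have h1 := t.2.1 1; have h2 := t.2.1 2
      have hs : t.1 0 + t.1 1 + t.1 2 = 1 := by
        have := t.2.2; rwa [Fin.sum_univ_three] at this
      obtain ⟨a1, a2⟩ := a.2; obtain ⟨b1, b2⟩ := b.2; obtain ⟨c1, c2⟩ := c.2
      constructor
      · positivity
      · nlinarith [mul_nonneg h0 (sub_nonneg.2 a2), mul_nonneg h1 (sub_nonneg.2 b2),
          mul_nonneg h2 (sub_nonneg.2 c2)]⟩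
  continuous_toFun := Continuous.subtype_mk (cont_comb _ _ _) _

/-- affine map of the interval to itself -/
noncomputable def segI (a b : unitInterval) : C(unitInterval, unitInterval) where
  toFun t := ⟨(1 - (t : ℝ)) * a + (t : ℝ) * b, by
      have h0 := t.2.1; have h1 := t.2.2
      obtain ⟨a1, a2⟩ := a.2; obtain ⟨b1, b2⟩ := b.2
      have h2 : 0 ≤ 1 - (t : ℝ) := by linarith
      constructor
      · positivity
      · nlinarith [mul_nonneg h0 (sub_nonneg.2 b2), mul_nonneg h2 (sub_nonneg.2 a2)]⟩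
  continuous_toFun := Continuous.subtype_mk (by fun_prop) _

theorem triI_e01 (a b c : unitInterval) : (triI a b c).comp (edgeMap 0 1) = segI a b := by
  ext t; simp [triI, segI, edge_apply]

theorem triI_e02 (a b c : unitInterval) : (triI a b c).comp (edgeMap 0 2) = segI a c := by
  ext t; simp [triI, segI, edge_apply]

theorem triI_e12 (a b c : unitInterval) : (triI a b c).comp (edgeMap 1 2) = segI b c := by
  ext t; simp [triI, segI, edge_apply]

theorem segI_01 : segI 0 1 = ContinuousMap.id _ := by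
  ext t; simp [segI]

/-- the point `i / N` of the interval -/
noncomputable def gpt (N i : ℕ) : unitInterval :=
  Set.projIcc (0 : ℝ) 1 zero_le_one ((i : ℝ) / N)

theorem gpt_zero (N : ℕ) : gpt N 0 = 0 := by
  apply Subtype.ext
  simp [gpt, Set.projIcc]

theorem gpt_self {N : ℕ} (hN : 0 < N) : gpt N N = 1 := by
  have : (N : ℝ) ≠ 0 := by positivity
  apply Subtype.ext
  simp [gpt, Set.projIcc, this]

theorem gpt_coe {N i : ℕ} (hN : 0 < N) (hi : i ≤ N) : ((gpt N i : unitInterval) : ℝ) = i / N := by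
  have h1 : (0 : ℝ) < N := by exact_mod_cast hN
  have h2 : (i : ℝ) ≤ N := by exact_mod_cast hi
  have h3 : (i : ℝ) / N ≤ 1 := (div_le_one h1).2 h2
  have h4 : 0 ≤ (i : ℝ) / N := by positivity
  simp [gpt, Set.projIcc, h3, h4]

/-- uniform subdivision of a singular 1-simplex -/
noncomputable def sd1' (N : ℕ) (γ : Sing1 V) : Sing1 V →₀ ZMod 2 :=
  ∑ i ∈ Finset.range N, Finsupp.single (γ.comp (segI (gpt N i) (gpt N (i + 1)))) 1

noncomputable def sd1 (N : ℕ) : (Sing1 V →₀ ZMod 2) →ₗ[ZMod 2] (Sing1 V →₀ ZMod 2) :=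
  Finsupp.linearCombination (ZMod 2) (sd1' N)

/-- chain homotopy between the identity and the subdivision of 1-chains -/
noncomputable def hd1' (N : ℕ) (γ : Sing1 V) : Sing2 V →₀ ZMod 2 :=
  (∑ i ∈ Finset.range N, Finsupp.single (γ.comp (triI 0 (gpt N i) (gpt N (i + 1)))) 1) +
    Finsupp.single (cst2 (γ 0)) 1

noncomputable def hd1 (N : ℕ) : (Sing1 V →₀ ZMod 2) →ₗ[ZMod 2] (Sing2 V →₀ ZMod 2) :=
  Finsupp.linearCombination (ZMod 2) (hd1' N)

theorem telescope {M : Type} [AddCommGroup M] [Module (ZMod 2) M] (g : ℕ → M) (N : ℕ) :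
    ∑ i ∈ Finset.range N, (g i + g (i + 1)) = g 0 + g N := by
  induction N with
  | zero => simp [ZModModule.add_self]
  | succ N ih =>
    rw [Finset.sum_range_succ, ih]
    have h := ZModModule.add_self (g N)
    calc g 0 + g N + (g N + g (N + 1)) = g 0 + (g N + g N) + g (N + 1) := by abel
      _ = g 0 + g (N + 1) := by rw [h, add_zero]

omit [Fintype V] [DecidableEq V] in
theorem bd2_hd1' {N : ℕ} (hN : 0 < N) (γ : Sing1 V) :
    bd2 (hd1' N γ) = Finsupp.single γ 1 + sd1' N γ := by
  have h1 : ∀ i, bd2 (Finsupp.single (γ.comp (triI 0 (gpt N i) (gpt N (i + 1)))) 1) =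
      (Finsupp.single (γ.comp (segI 0 (gpt N i))) 1 +
        Finsupp.single (γ.comp (segI 0 (gpt N (i + 1)))) 1) +
        Finsupp.single (γ.comp (segI (gpt N i) (gpt N (i + 1)))) 1 := by
    intro i
    rw [bd2_single]
    simp only [ContinuousMap.comp_assoc, triI_e01, triI_e02, triI_e12]
  have h2 : (γ.comp (segI 0 (gpt N 0))) = cst1 (γ 0) := by
    ext t; simp [gpt_zero, segI, cst1]
  have h3 : (γ.comp (segI 0 (gpt N N))) = γ := by
    rw [gpt_self hN, segI_01, ContinuousMap.comp_id]
  have h4 := ZModModule.add_self (Finsupp.single (cst1 (γ 0)) (1 : ZMod 2))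
  rw [hd1', map_add, map_sum, Finset.sum_congr rfl fun i _ => h1 i, Finset.sum_add_distrib,
    telescope (fun i => Finsupp.single (γ.comp (segI 0 (gpt N i))) (1 : ZMod 2)) N, h2, h3,
    bd2_cst2, sd1']
  calc _ = (Finsupp.single (cst1 (γ 0)) (1 : ZMod 2) + Finsupp.single (cst1 (γ 0)) 1) +
      (Finsupp.single γ 1 + ∑ i ∈ Finset.range N,
        Finsupp.single (γ.comp (segI (gpt N i) (gpt N (i + 1)))) 1) := by abel
    _ = _ := by rw [h4, zero_add]

omit [Fintype V] [DecidableEq V] in
theorem bd2_hd1 {N : ℕ} (hN : 0 < N) (c : Sing1 V →₀ ZMod 2) :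
    bd2 (hd1 N c) = c + sd1 N c := by
  have := lin_ext (f := bd2 ∘ₗ hd1 N) (g := LinearMap.id + sd1 N (V := V)) (fun γ => by
    simp only [LinearMap.comp_apply, LinearMap.add_apply, LinearMap.id_apply, hd1, sd1,
      Finsupp.linearCombination_single, one_smul]
    exact bd2_hd1' hN γ) c
  simpa using this

omit [Fintype V] [DecidableEq V] in
theorem hd1_mem {N : ℕ} {X : Set (V → ℝ)} {c : Sing1 V →₀ ZMod 2} (hc : In1 X c) :
    hd1 N c ∈ Finsupp.supported (ZMod 2) (ZMod 2) (S2 X) := by
  refine lc_mem _ _ _ fun γ hγ => add_mem (Submodule.sum_mem _ fun i _ => single_mem ?_)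
    (single_mem ?_)
  · exact fun t => hc γ hγ _
  · exact fun t => hc γ hγ _

end Pool.Agent.helper43.TF.SG
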