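import Pool.Agent.helper43.TF.SG1

/-! Uniform subdivision of singular 2-simplices (mod 2). -/

open Set Topology

namespace Pool.Agent.helper43.TF.SG

open Pool.Agent.helper45.TF

variable {V : Type}

/-- affine map from the interval to the standard 2-simplex -/
noncomputable def segD (P Q : D2) : C(unitInterval, D2) where
  toFun t := ⟨fun k => (1 - (t : ℝ)) * P.1 k + (t : ℝ) * Q.1 k, by
    have h0 := t.2.1; have h1 := t.2.2
    have h2 : 0 ≤ 1 - (t : ℝ) := by linarith
    constructor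
    · intro k
      exact add_nonneg (mul_nonneg h2 (P.2.1 k)) (mul_nonneg h0 (Q.2.1 k))
    · rw [Finset.sum_add_distrib, ← Finset.mul_sum, ← Finset.mul_sum, P.2.2, Q.2.2]; ring⟩
  continuous_toFun := Continuous.subtype_mk (by fun_prop) _

/-- affine map of the standard 2-simplex to itself -/
noncomputable def triD (P Q R : D2) : C(D2, D2) where
  toFun t := ⟨fun k => t.1 0 * P.1 k + t.1 1 * Q.1 k + t.1 2 * R.1 k, by
    constructor
    · intro k
      exact add_nonneg (add_nonneg (mul_nonneg (t.2.1 0) (P.2.1 k)) (mul_nonneg (t.2.1 1) (Q.2.1 k)))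
        (mul_nonneg (t.2.1 2) (R.2.1 k))
    · rw [Finset.sum_add_distrib, Finset.sum_add_distrib, ← Finset.mul_sum, ← Finset.mul_sum,
        ← Finset.mul_sum, P.2.2, Q.2.2, R.2.2]
      have := t.2.2
      rw [Fin.sum_univ_three] at this
      linarith⟩
  continuous_toFun := Continuous.subtype_mk (continuous_pi fun k => cont_comb _ _ _) _

theorem triD_e01 (P Q R : D2) : (triD P Q R).comp (edgeMap 0 1) = segD P Q := by
  ext t k; simp [triD, segD, edge_apply]

theorem triD_e02 (P Q R : D2) : (triD P Q R).comp (edgeMap 0 2) = segD P R := by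
  ext t k; simp [triD, segD, edge_apply]

theorem triD_e12 (P Q R : D2) : (triD P Q R).comp (edgeMap 1 2) = segD Q R := by
  ext t k; simp [triD, segD, edge_apply]

theorem grid_sum {M : Type} [AddCommGroup M] [Module (ZMod 2) M] (h k d : ℕ → ℕ → M) (N : ℕ) :
    (∑ i ∈ Finset.range N, ∑ j ∈ Finset.range (N - i), (h i j + k i j + d i j)) +
      (∑ i ∈ Finset.range N, ∑ j ∈ Finset.range (N - 1 - i), (d i j + k (i + 1) j + h i (j + 1))) =
    (∑ i ∈ Finset.range N, h i 0) + (∑ j ∈ Finset.range N, k 0 j) +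
      ∑ i ∈ Finset.range N, d i (N - 1 - i) := by
  have hH : (∑ i ∈ Finset.range N, ∑ j ∈ Finset.range (N - i), h i j) +
      (∑ i ∈ Finset.range N, ∑ j ∈ Finset.range (N - 1 - i), h i (j + 1)) =
      ∑ i ∈ Finset.range N, h i 0 := by
    rw [← Finset.sum_add_distrib]
    refine Finset.sum_congr rfl fun i hi => ?_
    have h1 : N - i = (N - 1 - i) + 1 := by have := Finset.mem_range.1 hi; omega
    rw [h1, Finset.sum_range_succ']
    have h2 := ZModModule.add_self (∑ j ∈ Finset.range (N - 1 - i), h i (j + 1))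
    calc _ = (∑ j ∈ Finset.range (N - 1 - i), h i (j + 1) +
        ∑ j ∈ Finset.range (N - 1 - i), h i (j + 1)) + h i 0 := by abel
      _ = h i 0 := by rw [h2, zero_add]
  have hD : (∑ i ∈ Finset.range N, ∑ j ∈ Finset.range (N - i), d i j) +
      (∑ i ∈ Finset.range N, ∑ j ∈ Finset.range (N - 1 - i), d i j) =
      ∑ i ∈ Finset.range N, d i (N - 1 - i) := by
    rw [← Finset.sum_add_distrib]
    refine Finset.sum_congr rfl fun i hi => ?_
    have h1 : N - i = (N - 1 - i) + 1 := by have := Finset.mem_range.1 hi; omega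
    rw [h1, Finset.sum_range_succ]
    have h2 := ZModModule.add_self (∑ j ∈ Finset.range (N - 1 - i), d i j)
    calc _ = (∑ j ∈ Finset.range (N - 1 - i), d i j +
        ∑ j ∈ Finset.range (N - 1 - i), d i j) + d i (N - 1 - i) := by abel
      _ = d i (N - 1 - i) := by rw [h2, zero_add]
  have hK : (∑ i ∈ Finset.range N, ∑ j ∈ Finset.range (N - i), k i j) +
      (∑ i ∈ Finset.range N, ∑ j ∈ Finset.range (N - 1 - i), k (i + 1) j) =
      ∑ j ∈ Finset.range N, k 0 j := by
    have h1 : ∀ i, (∑ j ∈ Finset.range (N - 1 - i), k (i + 1) j) =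
        (fun i => ∑ j ∈ Finset.range (N - i), k i j) (i + 1) := by
      intro i
      show _ = ∑ j ∈ Finset.range (N - (i + 1)), k (i + 1) j
      rw [show N - 1 - i = N - (i + 1) by omega]
    rw [Finset.sum_congr rfl fun i _ => h1 i, ← Finset.sum_add_distrib,
      telescope (fun i => ∑ j ∈ Finset.range (N - i), k i j) N]
    simp
  rw [← hH, ← hD, ← hK]
  simp only [Finset.sum_add_distrib]
  abel

/-- grid points of the standard simplex -/
noncomputable def G (N i j : ℕ) : D2 :=
  if h : 0 < N ∧ i + j ≤ N then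
    ⟨![1 - (i : ℝ) / N - (j : ℝ) / N, (i : ℝ) / N, (j : ℝ) / N], by
      have hN : (0 : ℝ) < N := by exact_mod_cast h.1
      have hij : (i : ℝ) / N + (j : ℝ) / N ≤ 1 := by
        rw [← add_div, div_le_one hN]; exact_mod_cast h.2
      constructor
      · intro k
        fin_cases k
        · show 0 ≤ 1 - (i : ℝ) / N - (j : ℝ) / N
          linarith
        · show 0 ≤ (i : ℝ) / N
          positivity
        · show 0 ≤ (j : ℝ) / N
          positivity
      · rw [Fin.sum_univ_three]
        show 1 - (i : ℝ) / N - (j : ℝ) / N + (i : ℝ) / N + (j : ℝ) / N = 1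
        ring⟩
  else ⟨![1, 0, 0], by
    constructor
    · intro k; fin_cases k <;> simp
    · simp [Fin.sum_univ_three]⟩

theorem G_val {N i j : ℕ} (hN : 0 < N) (h : i + j ≤ N) :
    (G N i j).1 = ![1 - (i : ℝ) / N - (j : ℝ) / N, (i : ℝ) / N, (j : ℝ) / N] := by
  rw [G, dif_pos ⟨hN, h⟩]

noncomputable def sd2' (N : ℕ) (τ : Sing2 V) : Sing2 V →₀ ZMod 2 :=
  (∑ i ∈ Finset.range N, ∑ j ∈ Finset.range (N - i),
    Finsupp.single (τ.comp (triD (G N i j) (G N (i + 1) j) (G N i (j + 1)))) 1) +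
  ∑ i ∈ Finset.range N, ∑ j ∈ Finset.range (N - 1 - i),
    Finsupp.single (τ.comp (triD (G N (i + 1) j) (G N i (j + 1)) (G N (i + 1) (j + 1)))) 1

noncomputable def sd2 (N : ℕ) : (Sing2 V →₀ ZMod 2) →ₗ[ZMod 2] (Sing2 V →₀ ZMod 2) :=
  Finsupp.linearCombination (ZMod 2) (sd2' N)

theorem edge01_seg {N i : ℕ} (hN : 0 < N) (hi : i < N) :
    (edgeMap 0 1).comp (segI (gpt N i) (gpt N (i + 1))) = segD (G N i 0) (G N (i + 1) 0) := by
  ext t k
  show (edgeMap 0 1 (segI (gpt N i) (gpt N (i + 1)) t)).1 k = (segD (G N i 0) (G N (i + 1) 0) t).1 k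
  rw [edge_apply]
  simp only [segD, segI, ContinuousMap.coe_mk, gpt_coe hN hi.le, gpt_coe hN (Nat.succ_le_of_lt hi),
    G_val hN (show i + 0 ≤ N by omega), G_val hN (show (i + 1) + 0 ≤ N by omega)]
  fin_cases k
  · simp; ring
  · simp
  · simp

theorem edge02_seg {N i : ℕ} (hN : 0 < N) (hi : i < N) :
    (edgeMap 0 2).comp (segI (gpt N i) (gpt N (i + 1))) = segD (G N 0 i) (G N 0 (i + 1)) := by
  ext t k
  show (edgeMap 0 2 (segI (gpt N i) (gpt N (i + 1)) t)).1 k = (segD (G N 0 i) (G N 0 (i + 1)) t).1 k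
  rw [edge_apply]
  simp only [segD, segI, ContinuousMap.coe_mk, gpt_coe hN hi.le, gpt_coe hN (Nat.succ_le_of_lt hi),
    G_val hN (show 0 + i ≤ N by omega), G_val hN (show 0 + (i + 1) ≤ N by omega)]
  fin_cases k
  · simp; ring
  · simp
  · simp

theorem edge12_seg {N j : ℕ} (hN : 0 < N) (hj : j < N) :
    (edgeMap 1 2).comp (segI (gpt N j) (gpt N (j + 1))) =
      segD (G N (N - 1 - j + 1) j) (G N (N - 1 - j) (j + 1)) := by
  have hNR : (N : ℝ) ≠ 0 := by positivity
  ext t k
  show (edgeMap 1 2 (segI (gpt N j) (gpt N (j + 1)) t)).1 k =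
    (segD (G N (N - 1 - j + 1) j) (G N (N - 1 - j) (j + 1)) t).1 k
  rw [edge_apply]
  have e1 : ((N - 1 - j : ℕ) : ℝ) = N - 1 - j := by
    rw [Nat.cast_sub (by omega), Nat.cast_sub (by omega)]; simp
  simp only [segD, segI, ContinuousMap.coe_mk, gpt_coe hN hj.le, gpt_coe hN (Nat.succ_le_of_lt hj),
    G_val hN (show (N - 1 - j + 1) + j ≤ N by omega),
    G_val hN (show (N - 1 - j) + (j + 1) ≤ N by omega), Nat.cast_add, Nat.cast_one, e1]
  fin_cases k
  · simp; field_simp; ring
  · simp; field_simp; ring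
  · simp

theorem bd2_sd2' {N : ℕ} (hN : 0 < N) (τ : Sing2 V) :
    bd2 (sd2' N τ) = sd1 N (bd2 (Finsupp.single τ 1)) := by
  have key := grid_sum
    (fun i j => Finsupp.single (τ.comp (segD (G N i j) (G N (i + 1) j))) (1 : ZMod 2))
    (fun i j => Finsupp.single (τ.comp (segD (G N i j) (G N i (j + 1)))) (1 : ZMod 2))
    (fun i j => Finsupp.single (τ.comp (segD (G N (i + 1) j) (G N i (j + 1)))) (1 : ZMod 2)) N
  have hl : bd2 (sd2' N τ) =
      (∑ i ∈ Finset.range N, ∑ j ∈ Finset.range (N - i),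
        (Finsupp.single (τ.comp (segD (G N i j) (G N (i + 1) j))) (1 : ZMod 2) +
        Finsupp.single (τ.comp (segD (G N i j) (G N i (j + 1)))) (1 : ZMod 2) +
        Finsupp.single (τ.comp (segD (G N (i + 1) j) (G N i (j + 1)))) (1 : ZMod 2))) +
      (∑ i ∈ Finset.range N, ∑ j ∈ Finset.range (N - 1 - i),
        (Finsupp.single (τ.comp (segD (G N (i + 1) j) (G N i (j + 1)))) (1 : ZMod 2) +
        Finsupp.single (τ.comp (segD (G N (i + 1) j) (G N (i + 1) (j + 1)))) (1 : ZMod 2) +
        Finsupp.single (τ.comp (segD (G N i (j + 1)) (G N (i + 1) (j + 1)))) (1 : ZMod 2))) := by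
    rw [sd2', map_add, map_sum, map_sum]
    congr 1
    · refine Finset.sum_congr rfl fun i _ => ?_
      rw [map_sum]
      refine Finset.sum_congr rfl fun j _ => ?_
      rw [bd2_single, ContinuousMap.comp_assoc, ContinuousMap.comp_assoc, ContinuousMap.comp_assoc,
        triD_e01, triD_e02, triD_e12]
    · refine Finset.sum_congr rfl fun i _ => ?_
      rw [map_sum]
      refine Finset.sum_congr rfl fun j _ => ?_
      rw [bd2_single, ContinuousMap.comp_assoc, ContinuousMap.comp_assoc, ContinuousMap.comp_assoc,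
        triD_e01, triD_e02, triD_e12]
  rw [hl, key, bd2_single, map_add, map_add]
  simp only [sd1, Finsupp.linearCombination_single, one_smul, sd1', ContinuousMap.comp_assoc]
  congr 1
  · congr 1
    · refine Finset.sum_congr rfl fun i hi => ?_
      rw [edge01_seg hN (Finset.mem_range.1 hi)]
    · refine Finset.sum_congr rfl fun i hi => ?_
      rw [edge02_seg hN (Finset.mem_range.1 hi)]
  · rw [← Finset.sum_range_reflect]
    refine Finset.sum_congr rfl fun j hj => ?_
    have hj' := Finset.mem_range.1 hj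
    rw [edge12_seg hN hj', show N - 1 - (N - 1 - j) = j by omega]

theorem bd2_sd2 {N : ℕ} (hN : 0 < N) (w : Sing2 V →₀ ZMod 2) :
    bd2 (sd2 N w) = sd1 N (bd2 w) :=
  lin_ext (f := bd2 ∘ₗ sd2 N) (g := sd1 N ∘ₗ bd2) (fun τ => by
    simp only [LinearMap.comp_apply, sd2, Finsupp.linearCombination_single, one_smul]
    exact bd2_sd2' hN τ) w

end Pool.Agent.helper43.TF.SG
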