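import Pool.Agent.helper43.TF.SG2

/-! Small pieces: Lebesgue number. -/

open Set Topology Filter

namespace Pool.Agent.helper43.TF.SG

open Pool.Agent.helper45.TF

variable {V : Type}

/-- Lebesgue number for a continuous map to barycentric coordinates -/
theorem leb {K : Type} [PseudoMetricSpace K] [CompactSpace K] (f : C(K, V → ℝ)) {Q : V → Prop}
    (hcov : ∀ t, ∃ v, Q v ∧ f t v ≠ 0) :
    ∃ δ > 0, ∀ x : K, ∃ v, Q v ∧ ∀ y, dist y x < δ → f y v ≠ 0 := by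
  obtain ⟨δ, hδ, h⟩ := lebesgue_number_lemma_of_metric (s := (univ : Set K))
    (c := fun v : {v : V // Q v} => {t : K | f t v.1 ≠ 0}) isCompact_univ
    (fun v => isOpen_ne_fun ((continuous_apply v.1).comp f.continuous) continuous_const)
    (fun t _ => by
      obtain ⟨v, hv, hv'⟩ := hcov t
      exact mem_iUnion.2 ⟨⟨v, hv⟩, hv'⟩)
  refine ⟨δ, hδ, fun x => ?_⟩
  obtain ⟨v, hv⟩ := h x (mem_univ x)
  exact ⟨v.1, v.2, fun y hy => hv hy⟩

/-- small singular 1-simplices in `X` -/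
def Sm1 (X : Set (V → ℝ)) (Q : V → Prop) : Set (Sing1 V) :=
  {γ | (∀ t, γ t ∈ X) ∧ ∃ v, Q v ∧ ∀ t, γ t v ≠ 0}

/-- small singular 2-simplices in `X` -/
def Sm2 (X : Set (V → ℝ)) (Q : V → Prop) : Set (Sing2 V) :=
  {γ | (∀ t, γ t ∈ X) ∧ ∃ v, Q v ∧ ∀ t, γ t v ≠ 0}

theorem dist_segI (a b t : unitInterval) : dist (segI a b t) a ≤ dist (b : ℝ) a := by
  rw [Subtype.dist_eq, Real.dist_eq, Real.dist_eq]
  show |(1 - (t : ℝ)) * a + (t : ℝ) * b - a| ≤ _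
  have h1 : (1 - (t : ℝ)) * a + (t : ℝ) * b - a = (t : ℝ) * (b - a) := by ring
  rw [h1, abs_mul, abs_of_nonneg t.2.1]
  calc (t : ℝ) * |(b : ℝ) - a| ≤ 1 * |(b : ℝ) - a| :=
        mul_le_mul_of_nonneg_right t.2.2 (abs_nonneg _)
    _ = _ := one_mul _

theorem small1 {X : Set (V → ℝ)} {Q : V → Prop} (hX : ∀ x ∈ X, ∃ v, Q v ∧ x v ≠ 0) (γ : Sing1 V)
    (hγ : ∀ t, γ t ∈ X) :
    ∀ᶠ N in atTop, sd1' N γ ∈ Finsupp.supported (ZMod 2) (ZMod 2) (Sm1 X Q) := by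
  obtain ⟨δ, hδ, h⟩ := leb γ (Q := Q) fun t => hX _ (hγ t)
  have hev : ∀ᶠ N : ℕ in atTop, (1 : ℝ) / N < δ := by
    have := tendsto_one_div_atTop_nhds_zero_nat (𝕜 := ℝ)
    exact this.eventually (gt_mem_nhds hδ)
  filter_upwards [hev, eventually_gt_atTop 0] with N hN hN0
  refine Submodule.sum_mem _ fun i hi => single_mem ⟨fun t => hγ _, ?_⟩
  obtain ⟨v, hv, hv'⟩ := h (gpt N i)
  refine ⟨v, hv, fun t => hv' _ ?_⟩
  refine lt_of_le_of_lt (dist_segI _ _ _) ?_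
  have hi' := Finset.mem_range.1 hi
  have hNR : (0 : ℝ) < N := by exact_mod_cast hN0
  rw [gpt_coe hN0 hi'.le, gpt_coe hN0 (Nat.succ_le_of_lt hi'), Real.dist_eq]
  have : (((i + 1 : ℕ) : ℝ) / N - (i : ℝ) / N) = 1 / N := by push_cast; ring
  rw [this, abs_of_pos (by positivity)]
  exact hN

theorem dist_triD (P Q R t : D2) {r : ℝ} (h1 : ∀ k, |Q.1 k - P.1 k| ≤ r)
    (h2 : ∀ k, |R.1 k - P.1 k| ≤ r) : dist (triD P Q R t) P ≤ r := by
  have hr : 0 ≤ r := (abs_nonneg _).trans (h1 0)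
  rw [Subtype.dist_eq, dist_pi_le_iff hr]
  intro k
  rw [Real.dist_eq]
  show |t.1 0 * P.1 k + t.1 1 * Q.1 k + t.1 2 * R.1 k - P.1 k| ≤ r
  have hs := t.2.2
  rw [Fin.sum_univ_three] at hs
  have h3 : t.1 0 * P.1 k + t.1 1 * Q.1 k + t.1 2 * R.1 k - P.1 k =
      t.1 1 * (Q.1 k - P.1 k) + t.1 2 * (R.1 k - P.1 k) := by
    have : t.1 0 = 1 - t.1 1 - t.1 2 := by linarith
    rw [this]; ring
  rw [h3]
  have t1 := t.2.1 1
  have t2 := t.2.1 2
  have t0 := t.2.1 0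
  calc |t.1 1 * (Q.1 k - P.1 k) + t.1 2 * (R.1 k - P.1 k)| ≤
      |t.1 1 * (Q.1 k - P.1 k)| + |t.1 2 * (R.1 k - P.1 k)| := abs_add_le _ _
    _ = t.1 1 * |Q.1 k - P.1 k| + t.1 2 * |R.1 k - P.1 k| := by
        rw [abs_mul, abs_mul, abs_of_nonneg t1, abs_of_nonneg t2]
    _ ≤ t.1 1 * r + t.1 2 * r :=
        add_le_add (mul_le_mul_of_nonneg_left (h1 k) t1) (mul_le_mul_of_nonneg_left (h2 k) t2)
    _ = (t.1 1 + t.1 2) * r := by ring
    _ ≤ 1 * r := mul_le_mul_of_nonneg_right (by linarith) hr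
    _ = r := one_mul r

theorem small2 {X : Set (V → ℝ)} {Q : V → Prop} (hX : ∀ x ∈ X, ∃ v, Q v ∧ x v ≠ 0) (τ : Sing2 V)
    (hτ : ∀ t, τ t ∈ X) :
    ∀ᶠ N in atTop, sd2' N τ ∈ Finsupp.supported (ZMod 2) (ZMod 2) (Sm2 X Q) := by
  have : CompactSpace D2 := isCompact_iff_compactSpace.1 (isCompact_stdSimplex (𝕜 := ℝ) (ι := Fin 3))
  obtain ⟨δ, hδ, h⟩ := leb τ (Q := Q) fun t => hX _ (hτ t)
  have hev : ∀ᶠ N : ℕ in atTop, (1 : ℝ) / N < δ := by
    have := tendsto_one_div_atTop_nhds_zero_nat (𝕜 := ℝ)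
    exact this.eventually (gt_mem_nhds hδ)
  filter_upwards [hev, eventually_gt_atTop 0] with N hN hN0
  have hNR : (0 : ℝ) < N := by exact_mod_cast hN0
  have hpos : (0 : ℝ) ≤ (N : ℝ)⁻¹ := by positivity
  refine add_mem (Submodule.sum_mem _ fun i hi => Submodule.sum_mem _ fun j hj =>
    single_mem ⟨fun t => hτ _, ?_⟩) (Submodule.sum_mem _ fun i hi => Submodule.sum_mem _ fun j hj =>
    single_mem ⟨fun t => hτ _, ?_⟩)
  · rw [Finset.mem_range] at hi hj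
    obtain ⟨v, hv, hv'⟩ := h (G N i j)
    refine ⟨v, hv, fun t => hv' _ (lt_of_le_of_lt (dist_triD _ _ _ _ (r := 1 / N) ?_ ?_) hN)⟩
    · intro k
      rw [G_val hN0 (show i + j ≤ N by omega), G_val hN0 (show i + 1 + j ≤ N by omega)]
      fin_cases k
      · have : (1 - ((i + 1 : ℕ) : ℝ) / N - (j : ℝ) / N) - (1 - (i : ℝ) / N - (j : ℝ) / N) =
            -(1 / N) := by push_cast; ring
        show |(1 - ((i + 1 : ℕ) : ℝ) / N - (j : ℝ) / N) - (1 - (i : ℝ) / N - (j : ℝ) / N)| ≤ _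
        rw [this, abs_neg, abs_of_nonneg (by positivity)]
      · have : ((i + 1 : ℕ) : ℝ) / N - (i : ℝ) / N = 1 / N := by push_cast; ring
        show |((i + 1 : ℕ) : ℝ) / N - (i : ℝ) / N| ≤ _
        rw [this, abs_of_nonneg (by positivity)]
      · show |(j : ℝ) / N - (j : ℝ) / N| ≤ _
        rw [sub_self, abs_zero]; positivity
    · intro k
      rw [G_val hN0 (show i + j ≤ N by omega), G_val hN0 (show i + (j + 1) ≤ N by omega)]
      fin_cases k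
      · have : (1 - (i : ℝ) / N - ((j + 1 : ℕ) : ℝ) / N) - (1 - (i : ℝ) / N - (j : ℝ) / N) =
            -(1 / N) := by push_cast; ring
        show |(1 - (i : ℝ) / N - ((j + 1 : ℕ) : ℝ) / N) - (1 - (i : ℝ) / N - (j : ℝ) / N)| ≤ _
        rw [this, abs_neg, abs_of_nonneg (by positivity)]
      · show |(i : ℝ) / N - (i : ℝ) / N| ≤ _
        rw [sub_self, abs_zero]; positivity
      · have : ((j + 1 : ℕ) : ℝ) / N - (j : ℝ) / N = 1 / N := by push_cast; ring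
        show |((j + 1 : ℕ) : ℝ) / N - (j : ℝ) / N| ≤ _
        rw [this, abs_of_nonneg (by positivity)]
  · rw [Finset.mem_range] at hi hj
    obtain ⟨v, hv, hv'⟩ := h (G N (i + 1) j)
    refine ⟨v, hv, fun t => hv' _ (lt_of_le_of_lt (dist_triD _ _ _ _ (r := 1 / N) ?_ ?_) hN)⟩
    · intro k
      rw [G_val hN0 (show i + 1 + j ≤ N by omega), G_val hN0 (show i + (j + 1) ≤ N by omega)]
      fin_cases k
      · have : (1 - (i : ℝ) / N - ((j + 1 : ℕ) : ℝ) / N) -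
            (1 - ((i + 1 : ℕ) : ℝ) / N - (j : ℝ) / N) = 0 := by push_cast; ring
        show |(1 - (i : ℝ) / N - ((j + 1 : ℕ) : ℝ) / N) -
            (1 - ((i + 1 : ℕ) : ℝ) / N - (j : ℝ) / N)| ≤ _
        rw [this, abs_zero]; positivity
      · have : (i : ℝ) / N - ((i + 1 : ℕ) : ℝ) / N = -(1 / N) := by push_cast; ring
        show |(i : ℝ) / N - ((i + 1 : ℕ) : ℝ) / N| ≤ _
        rw [this, abs_neg, abs_of_nonneg (by positivity)]
      · have : ((j + 1 : ℕ) : ℝ) / N - (j : ℝ) / N = 1 / N := by push_cast; ring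
        show |((j + 1 : ℕ) : ℝ) / N - (j : ℝ) / N| ≤ _
        rw [this, abs_of_nonneg (by positivity)]
    · intro k
      rw [G_val hN0 (show i + 1 + j ≤ N by omega), G_val hN0 (show i + 1 + (j + 1) ≤ N by omega)]
      fin_cases k
      · have : (1 - ((i + 1 : ℕ) : ℝ) / N - ((j + 1 : ℕ) : ℝ) / N) -
            (1 - ((i + 1 : ℕ) : ℝ) / N - (j : ℝ) / N) = -(1 / N) := by push_cast; ring
        show |(1 - ((i + 1 : ℕ) : ℝ) / N - ((j + 1 : ℕ) : ℝ) / N) -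
            (1 - ((i + 1 : ℕ) : ℝ) / N - (j : ℝ) / N)| ≤ _
        rw [this, abs_neg, abs_of_nonneg (by positivity)]
      · show |((i + 1 : ℕ) : ℝ) / N - ((i + 1 : ℕ) : ℝ) / N| ≤ _
        rw [sub_self, abs_zero]; positivity
      · have : ((j + 1 : ℕ) : ℝ) / N - (j : ℝ) / N = 1 / N := by push_cast; ring
        show |((j + 1 : ℕ) : ℝ) / N - (j : ℝ) / N| ≤ _
        rw [this, abs_of_nonneg (by positivity)]

theorem small1_chain {X : Set (V → ℝ)} {Q : V → Prop} (hX : ∀ x ∈ X, ∃ v, Q v ∧ x v ≠ 0)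
    {c : Sing1 V →₀ ZMod 2} (hc : In1 X c) :
    ∀ᶠ N in atTop, sd1 N c ∈ Finsupp.supported (ZMod 2) (ZMod 2) (Sm1 X Q) := by
  have : ∀ᶠ N in atTop, ∀ γ ∈ c.support,
      sd1' N γ ∈ Finsupp.supported (ZMod 2) (ZMod 2) (Sm1 X Q) :=
    (Filter.eventually_all_finset c.support).2 fun γ hγ => small1 hX γ (hc γ hγ)
  filter_upwards [this] with N hN
  exact lc_mem _ _ _ hN

theorem small2_chain {X : Set (V → ℝ)} {Q : V → Prop} (hX : ∀ x ∈ X, ∃ v, Q v ∧ x v ≠ 0)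
    {c : Sing2 V →₀ ZMod 2} (hc : In2 X c) :
    ∀ᶠ N in atTop, sd2 N c ∈ Finsupp.supported (ZMod 2) (ZMod 2) (Sm2 X Q) := by
  have : ∀ᶠ N in atTop, ∀ γ ∈ c.support,
      sd2' N γ ∈ Finsupp.supported (ZMod 2) (ZMod 2) (Sm2 X Q) :=
    (Filter.eventually_all_finset c.support).2 fun γ hγ => small2 hX γ (hc γ hγ)
  filter_upwards [this] with N hN
  exact lc_mem _ _ _ hN

end Pool.Agent.helper43.TF.SG
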